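import Pool.Agent.MP_2c15fb_gt.Cells

/-!
# Sums over boxes
-/

set_option linter.unusedSectionVars false

namespace Pool.Agent.MP2c15fb

noncomputable section

section box

variable {Λ : Type} [Fintype Λ] [DecidableEq Λ] {ι : Type} [Fintype ι] [DecidableEq ι]

/-- the cells of the interval from `2 p` to `2 q` -/
def vals (p q : ℤ) : Finset ℤ :=
  if p = q then {2 * p} else (Finset.Ico p q).image fun t => 2 * t + 1

/-- the top dimensional cells of a box -/
def cells (B : ι → ℤ × ℤ) : Finset (ι → ℤ) := Fintype.piFinset fun i => vals (B i).1 (B i).2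

/-- the sum over the cells of a box -/
def Tot (ℓ : (ι → ℤ) → Λ) (k : ℕ) (B : ι → ℤ × ℤ) : Finset Λ → ZMod 2 :=
  ∑ c ∈ cells B, Sd ℓ k c

/-- the directions in which a box is not degenerate -/
def nondeg (B : ι → ℤ × ℤ) : Finset ι := Finset.univ.filter fun i => (B i).1 ≠ (B i).2

theorem vals_self (p : ℤ) : vals p p = {2 * p} := by simp [vals]

theorem mem_vals_of_ne {p q : ℤ} (h : p ≠ q) {x : ℤ} :
    x ∈ vals p q ↔ Odd x ∧ 2 * p < x ∧ x < 2 * q := by
  rw [vals, if_neg h, Finset.mem_image]
  constructor
  · rintro ⟨t, ht, rfl⟩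
    rw [Finset.mem_Ico] at ht
    exact ⟨⟨t, rfl⟩, by omega, by omega⟩
  · rintro ⟨⟨t, rfl⟩, h1, h2⟩
    exact ⟨t, Finset.mem_Ico.2 ⟨by omega, by omega⟩, rfl⟩

theorem odds_of_mem_cells {B : ι → ℤ × ℤ} {c : ι → ℤ} (hc : c ∈ cells B) :
    odds c = nondeg B := by
  ext i
  rw [mem_odds, nondeg, Finset.mem_filter]
  have := (Fintype.mem_piFinset.1 hc) i
  by_cases h : (B i).1 = (B i).2
  · rw [h, vals_self, Finset.mem_singleton] at this
    simp [this, h]
  · rw [mem_vals_of_ne h] at this
    simp [this.1, h]

section fibers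

variable {X : Type} [AddCommMonoid X]

theorem sum_fiber (s : ι → Finset ℤ) (i : ι) (G : (ι → ℤ) → X) :
    ∑ c ∈ Fintype.piFinset s, G c =
      ∑ a ∈ s i, ∑ c ∈ Fintype.piFinset (Function.update s i {a}), G c := by
  rw [← Finset.sum_fiberwise_of_maps_to (g := fun c : ι → ℤ => c i) (t := s i)]
  · apply Finset.sum_congr rfl
    intro a ha
    apply Finset.sum_congr _ (fun _ _ => rfl)
    ext c
    rw [Finset.mem_filter, Fintype.mem_piFinset, Fintype.mem_piFinset]
    constructor
    · rintro ⟨h1, h2⟩ j
      by_cases hj : j = i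
      · subst hj
        rw [Function.update_self, Finset.mem_singleton]
        exact h2
      · rw [Function.update_of_ne hj]
        exact h1 j
    · intro h
      have hi := h i
      rw [Function.update_self, Finset.mem_singleton] at hi
      refine ⟨fun j => ?_, hi⟩
      by_cases hj : j = i
      · subst hj
        rw [hi]
        exact ha
      · have := h j
        rwa [Function.update_of_ne hj] at this
  · intro c hc
    exact (Fintype.mem_piFinset.1 hc) i

theorem sum_shift (s : ι → Finset ℤ) (i : ι) (a b : ℤ) (G : (ι → ℤ) → X) :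
    ∑ c ∈ Fintype.piFinset (Function.update s i {a}), G (Function.update c i b) =
      ∑ c ∈ Fintype.piFinset (Function.update s i {b}), G c := by
  have aux : ∀ (a b : ℤ) (c : ι → ℤ), c ∈ Fintype.piFinset (Function.update s i {a}) →
      Function.update c i b ∈ Fintype.piFinset (Function.update s i {b}) := by
    intro a b c hc
    rw [Fintype.mem_piFinset] at hc ⊢
    intro j
    by_cases hj : j = i
    · subst hj
      simp
    · have := hc j
      rw [Function.update_of_ne hj] at this
      rw [Function.update_of_ne hj, Function.update_of_ne hj]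
      exact this
  have aux2 : ∀ (a b : ℤ) (c : ι → ℤ), c ∈ Fintype.piFinset (Function.update s i {a}) →
      Function.update (Function.update c i b) i a = c := by
    intro a b c hc
    rw [Fintype.mem_piFinset] at hc
    have := hc i
    rw [Function.update_self, Finset.mem_singleton] at this
    rw [Function.update_idem, ← this, Function.update_eq_self]
  exact Finset.sum_bij' (fun c _ => Function.update c i b) (fun c _ => Function.update c i a)
    (aux a b) (aux b a) (aux2 a b) (aux2 b a) (fun _ _ => rfl)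

end fibers

theorem telescope (T : ℤ → Finset Λ → ZMod 2) (p : ℤ) (n : ℕ) :
    ∑ t ∈ Finset.Ico p (p + n), (T (2 * t + 1 + 1) + T (2 * t + 1 - 1)) =
      T (2 * (p + n)) + T (2 * p) := by
  induction n with
  | zero => simp [chain_add_self]
  | succ n ih =>
    have : Finset.Ico p (p + (n + 1 : ℕ)) = insert (p + n) (Finset.Ico p (p + n)) := by
      ext x
      simp only [Finset.mem_Ico, Finset.mem_insert]
      push_cast
      omega
    rw [this, Finset.sum_insert (by simp), ih]
    have e1 : 2 * (p + (n : ℤ)) + 1 + 1 = 2 * (p + (n + 1 : ℕ)) := by push_cast; ring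
    have e2 : 2 * (p + (n : ℤ)) + 1 - 1 = 2 * (p + n) := by ring
    rw [e1, e2]
    have := chain_add_self (T (2 * (p + n)))
    calc T (2 * (p + (n + 1 : ℕ))) + T (2 * (p + n)) + (T (2 * (p + n)) + T (2 * p))
        = T (2 * (p + (n + 1 : ℕ))) + (T (2 * (p + n)) + T (2 * (p + n))) + T (2 * p) := by abel
      _ = _ := by rw [this, add_zero]

theorem update_vals (B : ι → ℤ × ℤ) (i : ι) (p : ℤ) :
    Function.update (fun i => vals (B i).1 (B i).2) i {2 * p} =
      fun j => vals (Function.update B i (p, p) j).1 (Function.update B i (p, p) j).2 := by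
  funext j
  by_cases hj : j = i
  · subst hj
    simp [vals_self]
  · simp [hj]

/-- The boundary of a box. -/
theorem bd_Tot (ℓ : (ι → ℤ) → Λ) (k : ℕ) (B : ι → ℤ × ℤ) (hB : ∀ i, (B i).1 ≤ (B i).2)
    (hk : (nondeg B).card = k + 1) :
    bd (Tot ℓ (k + 1) B) = ∑ i ∈ nondeg B,
      (Tot ℓ k (Function.update B i ((B i).2, (B i).2)) +
        Tot ℓ k (Function.update B i ((B i).1, (B i).1))) := by
  rw [Tot, map_sum]
  have h1 : ∀ c ∈ cells B, bd (Sd ℓ (k + 1) c) =
      ∑ i ∈ nondeg B, (Sd ℓ k (up c i) + Sd ℓ k (dn c i)) := by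
    intro c hc
    rw [bd_Sd ℓ k c (by rw [odds_of_mem_cells hc, hk]), fac, odds_of_mem_cells hc]
  rw [Finset.sum_congr rfl h1, Finset.sum_comm]
  apply Finset.sum_congr rfl
  intro i hi
  rw [nondeg, Finset.mem_filter] at hi
  have hne := hi.2
  rw [cells, sum_fiber _ i]
  have h2 : ∀ a ∈ (fun i => vals (B i).1 (B i).2) i,
      ∑ c ∈ Fintype.piFinset (Function.update (fun i => vals (B i).1 (B i).2) i {a}),
        (Sd ℓ k (up c i) + Sd ℓ k (dn c i)) =
      ∑ c ∈ Fintype.piFinset (Function.update (fun i => vals (B i).1 (B i).2) i {a + 1}),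
        Sd ℓ k c +
      ∑ c ∈ Fintype.piFinset (Function.update (fun i => vals (B i).1 (B i).2) i {a - 1}),
        Sd ℓ k c := by
    intro a _
    rw [Finset.sum_add_distrib, ← sum_shift _ i a (a + 1), ← sum_shift _ i a (a - 1)]
    congr 1
    · apply Finset.sum_congr rfl
      intro c hc
      have := (Fintype.mem_piFinset.1 hc) i
      rw [Function.update_self, Finset.mem_singleton] at this
      rw [up, this]
    · apply Finset.sum_congr rfl
      intro c hc
      have := (Fintype.mem_piFinset.1 hc) i
      rw [Function.update_self, Finset.mem_singleton] at this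
      rw [dn, this]
  rw [Finset.sum_congr rfl h2]
  have h3 : (fun i => vals (B i).1 (B i).2) i =
      (Finset.Ico (B i).1 (B i).2).image fun t => 2 * t + 1 := by
    simp [vals, hne]
  rw [h3, Finset.sum_image (by intro x _ y _ h; simpa using h)]
  obtain ⟨n, hn⟩ := Int.le.dest (hB i)
  rw [← hn, telescope (fun a => ∑ c ∈ Fintype.piFinset
    (Function.update (fun i => vals (B i).1 (B i).2) i {a}), Sd ℓ k c), update_vals, update_vals]
  rfl

theorem Tot_congr {ℓ ℓ' : (ι → ℤ) → Λ} (k : ℕ) (B : ι → ℤ × ℤ)
    (h : ∀ c ∈ cells B, ∀ c', Face c' c → ℓ c' = ℓ' c') : Tot ℓ k B = Tot ℓ' k B :=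
  Finset.sum_congr rfl fun c hc => Sd_congr k c (h c hc)

theorem Tot_const {ℓ : (ι → ℤ) → Λ} {l : Λ} (k : ℕ) (B : ι → ℤ × ℤ)
    (h : ∀ c ∈ cells B, ∀ c', Face c' c → ℓ c' = l) : Tot ℓ (k + 1) B = 0 :=
  Finset.sum_eq_zero fun c hc => Sd_const k c (h c hc)

theorem Tot_support {ℓ : (ι → ℤ) → Λ} {k : ℕ} {B : ι → ℤ × ℤ} {S : Finset Λ}
    (h : Tot ℓ k B S ≠ 0) : S.card = k + 1 ∧ ∃ c ∈ cells B, ∀ l ∈ S, ∃ c', Face c' c ∧ ℓ c' = l := by
  rw [Tot, Finset.sum_apply] at h
  obtain ⟨c, hc, hne⟩ := Finset.exists_ne_zero_of_sum_ne_zero h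
  obtain ⟨h1, h2⟩ := Sd_support _ _ _ hne
  exact ⟨h1, c, hc, h2⟩

/-- Symmetry of boxes. -/
theorem Tot_aff {ℓ : (ι → ℤ) → Λ} {ε : ι → ℤˣ} {t : ι → ℤ} (ht : ∀ i, Even (t i)) {h : Λ → Λ}
    (hh : Function.Involutive h) (k : ℕ) (B B' : ι → ℤ × ℤ)
    (hB : ∀ c, c ∈ cells B → aff ε t c ∈ cells B')
    (hB' : ∀ c, c ∈ cells B' → ∃ c' ∈ cells B, aff ε t c' = c)
    (hℓ : ∀ c ∈ cells B, ∀ c', Face c' c → ℓ (aff ε t c') = h (ℓ c')) :
    Tot ℓ k B' = push h (Tot ℓ k B) := by
  rw [Tot, Tot, map_sum]
  symm
  refine Finset.sum_bij (fun c _ => aff ε t c) hB ?_ ?_ ?_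
  · intro c _ c' _ hcc
    funext i
    have := congrFun hcc i
    simp only [aff, add_left_inj] at this
    rcases Int.units_eq_one_or (ε i) with h | h
    · simpa [h] using this
    · simpa [h] using this
  · intro c hc
    obtain ⟨c', h1, h2⟩ := hB' c hc
    exact ⟨c', h1, h2⟩
  · intro c hc
    exact (Sd_aff ht hh k c (hℓ c hc)).symm

/-- Splitting a box. -/
theorem Tot_split (ℓ : (ι → ℤ) → Λ) (k : ℕ) (B : ι → ℤ × ℤ) (i : ι) (p q r : ℤ) (hpq : p < q)
    (hqr : q < r) (hB : B i = (p, r)) :
    Tot ℓ k B = Tot ℓ k (Function.update B i (p, q)) + Tot ℓ k (Function.update B i (q, r)) := by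
  rw [Tot, Tot, Tot, ← Finset.sum_union]
  · apply Finset.sum_congr _ (fun _ _ => rfl)
    ext c
    rw [Finset.mem_union, cells, cells, cells, Fintype.mem_piFinset, Fintype.mem_piFinset,
      Fintype.mem_piFinset]
    constructor
    · intro h
      have hi := h i
      rw [hB, mem_vals_of_ne (by simp; omega)] at hi
      simp only at hi
      rcases lt_or_ge (c i) (2 * q) with hlt | hge
      · left
        intro j
        by_cases hj : j = i
        · subst hj
          rw [Function.update_self, mem_vals_of_ne (by simp; omega)]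
          exact ⟨hi.1, hi.2.1, hlt⟩
        · rw [Function.update_of_ne hj]
          exact h j
      · right
        intro j
        by_cases hj : j = i
        · subst hj
          rw [Function.update_self, mem_vals_of_ne (by simp; omega)]
          refine ⟨hi.1, ?_, hi.2.2⟩
          rcases hge.lt_or_eq with h1 | h1
          · exact h1
          · exfalso
            have := hi.1
            rw [← h1] at this
            exact (Int.not_odd_iff_even.2 (even_two_mul q)) this
        · rw [Function.update_of_ne hj]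
          exact h j
    · rintro (h | h)
      · intro j
        have := h j
        by_cases hj : j = i
        · subst hj
          rw [Function.update_self, mem_vals_of_ne (by simp; omega)] at this
          rw [hB, mem_vals_of_ne (by simp; omega)]
          simp only at this ⊢
          exact ⟨this.1, this.2.1, by omega⟩
        · rwa [Function.update_of_ne hj] at this
      · intro j
        have := h j
        by_cases hj : j = i
        · subst hj
          rw [Function.update_self, mem_vals_of_ne (by simp; omega)] at this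
          rw [hB, mem_vals_of_ne (by simp; omega)]
          simp only at this ⊢
          exact ⟨this.1, by omega, this.2.2⟩
        · rwa [Function.update_of_ne hj] at this
  · rw [Finset.disjoint_left]
    intro c h1 h2
    rw [cells, Fintype.mem_piFinset] at h1 h2
    have e1 := h1 i
    have e2 := h2 i
    rw [Function.update_self, mem_vals_of_ne (by simp; omega)] at e1 e2
    simp only at e1 e2
    omega

end box

end

end Pool.Agent.MP2c15fb
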