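import Pool.Agent.MP_2c15fb_gt.Spaces

/-!
# Finite equivariant CW complexes
-/

set_option linter.unusedSectionVars false

namespace Pool.Agent.MP2c15fb

open Topology OnePoint unitInterval

noncomputable section

section

variable {A : Type} [TopologicalSpace A] [Invol A]

/-- The set `F'` is obtained from the set `F` by attaching finitely many equivariant `d`-cells
`G/H × I^d` along their boundaries. The characteristic maps of the cells of orbit types
`H 0, ..., H (k - 1)` are put together into one map `χ`. -/
def AttachCells (d : ℕ) (F F' : Set (OnePoint A)) : Prop :=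
  ∃ (k : ℕ) (H : Fin k → Subgroup ℤˣ) (χ : (Σ j, Orbit (H j)) × (Fin d → I) → OnePoint A),
    Continuous χ ∧
    (∀ j o t, χ (⟨j, inv o⟩, t) = opInv (χ (⟨j, o⟩, t))) ∧
    (∀ o, ∀ t ∈ Cube.boundary (Fin d), χ (o, t) ∈ F) ∧
    (∀ o, ∀ t ∉ Cube.boundary (Fin d), χ (o, t) ∉ F) ∧
    (∀ o, ∀ t ∉ Cube.boundary (Fin d), ∀ o', ∀ t' ∉ Cube.boundary (Fin d),
      χ (o, t) = χ (o', t') → o = o' ∧ t = t') ∧
    F' = F ∪ Set.range χ

end

/-- The one-point compactification of `A` has the structure of a finite pointed equivariant CW
complex: there are skeleta, beginning with the base point `∞` and ending with the whole space,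
such that the next skeleton arises by attaching finitely many equivariant cells of the next
dimension (`sk d` is the skeleton of dimension `d - 1`). -/
def IsFiniteCW (A : Type) [TopologicalSpace A] [Invol A] : Prop :=
  ∃ (N : ℕ) (sk : ℕ → Set (OnePoint A)), sk 0 = {∞} ∧ sk N = Set.univ ∧
    ∀ d, AttachCells d (sk d) (sk (d + 1))

end

end Pool.Agent.MP2c15fb
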