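import Pool.Agent.MP_2c15fb_gt.CWexamples

/-!
# `X` is a finite equivariant CW complex
-/

set_option linter.unusedSectionVars false

namespace Pool.Agent.MP2c15fb

open Topology OnePoint unitInterval

noncomputable section

/-! ### Coordinates on the Möbius band -/

theorem cx_ne_zero (t : ℝ) : cx t ≠ 0 := by
  intro h
  have := norm_cx t
  rw [h] at this
  simp at this

/-- a complex number whose square is a nonnegative real number is real -/
theorem real_of_sq {v : ℂ} (h : v ^ 2 = (‖v‖ : ℂ) ^ 2) : v = (v.re : ℂ) := by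
  have him : v.im = 0 := by
    have h1 := congrArg Complex.re h
    have h2 : ‖v‖ ^ 2 = v.re ^ 2 + v.im ^ 2 := by
      rw [← Complex.normSq_eq_norm_sq, Complex.normSq_apply]; ring
    rw [← Complex.ofReal_pow, Complex.ofReal_re, sq, Complex.mul_re, h2] at h1
    nlinarith [sq_nonneg v.im]
  apply Complex.ext
  · simp
  · simp [him]

theorem mb_one (m : Mb) (h : m.1.1 = 1) : ∃ β : ℝ, m = mbpt 0 β := by
  have h2 := m.2.2
  rw [h, mul_one] at h2
  refine ⟨m.1.2.re, Subtype.ext (Prod.ext ?_ ?_)⟩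
  · simp [mbpt, cx_zero, h]
  · simp only [mbpt, cx_zero, one_mul]
    exact real_of_sq h2

theorem mb_ne_one (m : Mb) (h : m.1.1 ≠ 1) :
    ∃ α β : ℝ, (0 < α ∧ α < 1) ∧ m = mbpt α β := by
  have hpi := Real.pi_pos
  -- the angle
  obtain ⟨α, hα, hw⟩ : ∃ α : ℝ, (0 < α ∧ α < 1) ∧ cx α ^ 2 = m.1.1 := by
    obtain ⟨θ, hθ1, hθ2, hexp⟩ : ∃ θ : ℝ, -Real.pi < θ ∧ θ ≤ Real.pi ∧
        m.1.1 = Complex.exp (θ * Complex.I) := by
      refine ⟨Complex.arg m.1.1, Complex.neg_pi_lt_arg _, Complex.arg_le_pi _, ?_⟩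
      have := Complex.norm_mul_exp_arg_mul_I m.1.1
      rw [m.2.1] at this
      simpa using this.symm
    have hcx : ∀ α : ℝ, cx α ^ 2 = Complex.exp ((2 * Real.pi * α : ℝ) * Complex.I) := by
      intro α
      rw [cx, ← Complex.exp_nat_mul]
      congr 1
      push_cast
      ring
    rcases lt_trichotomy θ 0 with hlt | heq | hgt
    · refine ⟨θ / (2 * Real.pi) + 1, ⟨?_, ?_⟩, ?_⟩
      · have : -(1 / 2) < θ / (2 * Real.pi) := by
          rw [lt_div_iff₀ (by positivity)]
          linarith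
        linarith
      · have : θ / (2 * Real.pi) < 0 := div_neg_of_neg_of_pos hlt (by positivity)
        linarith
      · rw [hcx, hexp]
        have e1 : ((2 * Real.pi * (θ / (2 * Real.pi) + 1) : ℝ) : ℂ) * Complex.I =
            (θ : ℂ) * Complex.I + 2 * Real.pi * Complex.I := by
          have : 2 * Real.pi * (θ / (2 * Real.pi) + 1) = θ + 2 * Real.pi := by
            field_simp
          rw [this]
          push_cast
          ring
        rw [e1, Complex.exp_add, Complex.exp_two_pi_mul_I, mul_one]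
    · exfalso
      apply h
      rw [hexp, heq]
      simp
    · refine ⟨θ / (2 * Real.pi), ⟨by positivity, ?_⟩, ?_⟩
      · rw [div_lt_one (by positivity)]
        linarith
      · rw [hcx, hexp]
        have e1 : ((2 * Real.pi * (θ / (2 * Real.pi)) : ℝ) : ℂ) = (θ : ℂ) := by
          have : 2 * Real.pi * (θ / (2 * Real.pi)) = θ := by
            field_simp
          rw [this]
        rw [e1]
  have hc := cx_ne_zero α
  have hr : (m.1.2 / cx α) ^ 2 = (‖m.1.2 / cx α‖ : ℂ) ^ 2 := by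
    rw [div_pow, norm_div, norm_cx, div_one, m.2.2, ← hw]
    field_simp
  refine ⟨α, (m.1.2 / cx α).re, hα, Subtype.ext (Prod.ext ?_ ?_)⟩
  · exact hw.symm
  · simp only [mbpt]
    rw [← real_of_sq hr]
    field_simp

theorem mbpt_fst_ne {α : ℝ} (h : 0 < α ∧ α < 1) (β : ℝ) : (mbpt α β).1.1 ≠ 1 := by
  intro h1
  have h2 := (omr_pos_iff β h.1.le h.2.le).2 h
  rw [omr, h1] at h2
  simp at h2

theorem mbpt_inj {α α' β β' : ℝ} (h : 0 < α ∧ α < 1) (h' : 0 < α' ∧ α' < 1)
    (e : mbpt α β = mbpt α' β') : α = α' ∧ β = β' := by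
  have hpi := Real.pi_pos
  have h1 : cx α ^ 2 = cx α' ^ 2 := congrArg (fun m : Mb => m.1.1) e
  have h2 : cx α * (β : ℂ) = cx α' * (β' : ℂ) := congrArg (fun m : Mb => m.1.2) e
  have hα : α = α' := by
    have hcos : Real.cos (2 * Real.pi * (α - α')) = 1 := by
      have e1 : cx (α - α') ^ 2 = 1 := by
        have e2 : cx α = cx (α - α') * cx α' := by rw [← cx_add]; congr 1; ring
        rw [e2, mul_pow] at h1
        have := pow_ne_zero 2 (cx_ne_zero α')
        apply mul_right_cancel₀ this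
        rw [h1, one_mul]
      rw [← cx_sq_re, e1]
      simp
    rw [Real.cos_eq_one_iff_of_lt_of_lt] at hcos
    · have : α - α' = 0 := by
        rcases mul_eq_zero.1 hcos with h3 | h3
        · exfalso; linarith
        · exact h3
      linarith
    · nlinarith [h.1, h.2, h'.1, h'.2]
    · nlinarith [h.1, h.2, h'.1, h'.2]
  subst hα
  refine ⟨rfl, ?_⟩
  have := mul_left_cancel₀ (cx_ne_zero α) h2
  exact_mod_cast this

theorem mbpt_zero_inj {β β' : ℝ} (e : mbpt 0 β = mbpt 0 β') : β = β' := by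
  have h2 : cx 0 * (β : ℂ) = cx 0 * (β' : ℂ) := congrArg (fun m : Mb => m.1.2) e
  have := mul_left_cancel₀ (cx_ne_zero 0) h2
  exact_mod_cast this

theorem mbpt_zero_fst (β : ℝ) : (mbpt 0 β).1.1 = 1 := by
  simp [mbpt, cx_zero]

theorem mbpt_one_fst (β : ℝ) : (mbpt 1 β).1.1 = 1 := by
  simp [mbpt, cx_one]

/-- coordinates on the one-point compactification of the Möbius band -/
def mm (p : I × OnePoint ℝ) : OnePoint Mb := OnePoint.map (fun β => mbpt p.1 β) p.2

theorem continuous_mm : Continuous mm := by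
  have h1 : Continuous (openExt (Set.univ : Set (I × ℝ)) fun p => mbpt p.1 p.2) := by
    apply continuous_openExt _ _ isOpen_univ
    · apply Continuous.continuousOn
      exact continuous_mbpt (by fun_prop) (by fun_prop)
    · intro C hC
      have hC' : IsCompact ((fun m : Mb => m.1.2) '' C) :=
        hC.image (continuous_snd.comp continuous_subtype_val)
      obtain ⟨c, hc⟩ := hC'.isBounded.exists_norm_le
      refine ⟨Set.univ ×ˢ Metric.closedBall 0 c, Set.subset_univ _,
        isCompact_univ.prod (isCompact_closedBall _ _), ?_⟩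
      rintro ⟨t, β⟩ - hp
      refine ⟨trivial, ?_⟩
      rw [mem_closedBall_zero_iff]
      have := hc _ ⟨_, hp, rfl⟩
      simpa [mbpt, norm_cx] using this
  convert h1 using 1
  funext ⟨t, x⟩
  induction x using OnePoint.rec with
  | infty => rfl
  | coe a => simp [mm, openExt_coe_of_mem (Set.mem_univ _)]

theorem mm_coe (t : I) (β : ℝ) : mm (t, (β : OnePoint ℝ)) = (mbpt t β : Mb) := rfl

theorem mm_infty (t : I) : mm (t, ∞) = ∞ := rfl

/-! ### The cells of `X` -/

/-- the 1-skeleton -/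
def sk1 : Set (OnePoint X) := {x | x = ∞ ∨ ∃ m : Mb, m.1.1 = 1 ∧ x = (((0 : ℝ), m) : X)}

/-- the 2-skeleton -/
def sk2 : Set (OnePoint X) :=
  {x | x = ∞ ∨ ∃ (s : ℝ) (m : Mb), (s = 0 ∨ m.1.1 = 1) ∧ x = ((s, m) : X)}

/-- characteristic maps -/
def chiX1 (t : Fin 1 → I) : OnePoint X :=
  pair (((0 : ℝ) : RSgn) : OnePoint RSgn) (mm (0, gam (t 0)))

/-- characteristic maps -/
def chiX2a (t : Fin 2 → I) : OnePoint X :=
  pair (((0 : ℝ) : RSgn) : OnePoint RSgn) (mm (t 0, gam (t 1)))

/-- characteristic maps -/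
def chiX2b (t : Fin 2 → I) : OnePoint X :=
  pair (eta (t 0)) (mm (0, gam (t 1)))

/-- characteristic maps -/
def chiX3 (t : Fin 3 → I) : OnePoint X :=
  pair (eta (t 0)) (mm (t 1, gam (t 2)))

theorem continuous_chiX1 : Continuous chiX1 := by
  have h1 := continuous_gam
  have h2 : Continuous fun t : Fin 1 → I => mm (0, gam (t 0)) :=
    continuous_mm.comp (continuous_const.prodMk (h1.comp (continuous_apply 0)))
  exact continuous_pair.comp (continuous_const.prodMk h2)

theorem continuous_chiX2a : Continuous chiX2a := by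
  have h1 := continuous_gam
  have h2 : Continuous fun t : Fin 2 → I => mm (t 0, gam (t 1)) :=
    continuous_mm.comp ((continuous_apply 0).prodMk (h1.comp (continuous_apply 1)))
  exact continuous_pair.comp (continuous_const.prodMk h2)

theorem continuous_chiX2b : Continuous chiX2b := by
  have h1 := continuous_gam
  have h0 := continuous_eta
  have h2 : Continuous fun t : Fin 2 → I => mm (0, gam (t 1)) :=
    continuous_mm.comp (continuous_const.prodMk (h1.comp (continuous_apply 1)))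
  exact continuous_pair.comp ((h0.comp (continuous_apply 0)).prodMk h2)

theorem continuous_chiX3 : Continuous chiX3 := by
  have h1 := continuous_gam
  have h0 := continuous_eta
  have h2 : Continuous fun t : Fin 3 → I => mm (t 1, gam (t 2)) :=
    continuous_mm.comp ((continuous_apply 1).prodMk (h1.comp (continuous_apply 2)))
  exact continuous_pair.comp ((h0.comp (continuous_apply 0)).prodMk h2)

theorem chiX1_int {t : Fin 1 → I} (ht : t ∉ Cube.boundary (Fin 1)) :
    ∃ y : ℝ, gam (t 0) = (y : OnePoint ℝ) ∧ chiX1 t = (((0 : ℝ), mbpt 0 y) : X) := by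
  obtain ⟨y, hy⟩ := gam_fin (not_bd ht 0)
  refine ⟨y, hy, ?_⟩
  rw [chiX1, hy]
  rfl

theorem chiX2a_int {t : Fin 2 → I} (ht : t ∉ Cube.boundary (Fin 2)) :
    ∃ y : ℝ, gam (t 1) = (y : OnePoint ℝ) ∧ chiX2a t = (((0 : ℝ), mbpt (t 0) y) : X) := by
  obtain ⟨y, hy⟩ := gam_fin (not_bd ht 1)
  refine ⟨y, hy, ?_⟩
  rw [chiX2a, hy]
  rfl

theorem chiX2b_int {t : Fin 2 → I} (ht : t ∉ Cube.boundary (Fin 2)) :
    ∃ s y : ℝ, 0 < s ∧ eta (t 0) = (s : OnePoint ℝ) ∧ gam (t 1) = (y : OnePoint ℝ) ∧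
      chiX2b t = ((s, mbpt 0 y) : X) := by
  obtain ⟨s, hs0, hs⟩ := eta_pos (not_bd ht 0)
  obtain ⟨y, hy⟩ := gam_fin (not_bd ht 1)
  refine ⟨s, y, hs0, hs, hy, ?_⟩
  rw [chiX2b, hs, hy]
  rfl

theorem chiX3_int {t : Fin 3 → I} (ht : t ∉ Cube.boundary (Fin 3)) :
    ∃ s y : ℝ, 0 < s ∧ eta (t 0) = (s : OnePoint ℝ) ∧ gam (t 2) = (y : OnePoint ℝ) ∧
      chiX3 t = ((s, mbpt (t 1) y) : X) := by
  obtain ⟨s, hs0, hs⟩ := eta_pos (not_bd ht 0)
  obtain ⟨y, hy⟩ := gam_fin (not_bd ht 2)
  refine ⟨s, y, hs0, hs, hy, ?_⟩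
  rw [chiX3, hs, hy]
  rfl

theorem isCell_X1 : IsCell 1 ({∞} : Set (OnePoint X)) ⊤ (fun p => chiX1 p.2) := by
  apply isCell_top continuous_chiX1
  · intro t
    exact opInv_pair_zero inv_Mb' _
  · rintro t ⟨i, hi⟩
    rw [Subsingleton.elim i 0] at hi
    rw [Set.mem_singleton_iff, chiX1, gam_bd hi, mm_infty, pair_infty_right]
  · intro t ht
    obtain ⟨y, -, h⟩ := chiX1_int ht
    rw [Set.mem_singleton_iff, h]
    exact OnePoint.coe_ne_infty _
  · intro t ht t' ht' e
    obtain ⟨y, hy, h⟩ := chiX1_int ht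
    obtain ⟨y', hy', h'⟩ := chiX1_int ht'
    rw [h, h', OnePoint.coe_eq_coe, Prod.mk.injEq] at e
    have e1 := mbpt_zero_inj e.2
    have g0 : t 0 = t' 0 := gam_inj (not_bd ht 0) (not_bd ht' 0) (by rw [hy, hy', e1])
    funext i
    rw [Subsingleton.elim i 0]
    exact g0

theorem isCell_X2a : IsCell 2 sk1 ⊤ (fun p => chiX2a p.2) := by
  apply isCell_top continuous_chiX2a
  · intro t
    exact opInv_pair_zero inv_Mb' _
  · rintro t ⟨i, hi⟩
    by_cases hinf : gam (t 1) = ∞
    · left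
      rw [chiX2a, hinf, mm_infty, pair_infty_right]
    · obtain ⟨y, hy⟩ := OnePoint.ne_infty_iff_exists.1 hinf
      fin_cases i
      · right
        rcases hi with hi | hi
        · change t 0 = 0 at hi
          refine ⟨mbpt 0 y, mbpt_zero_fst y, ?_⟩
          rw [chiX2a, hi, ← hy]
          rfl
        · change t 0 = 1 at hi
          refine ⟨mbpt 1 y, mbpt_one_fst y, ?_⟩
          rw [chiX2a, hi, ← hy]
          rfl
      · exact absurd (gam_bd hi) hinf
  · intro t ht
    obtain ⟨y, -, h⟩ := chiX2a_int ht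
    rw [h]
    rintro (h1 | ⟨m, hm, h1⟩)
    · exact OnePoint.coe_ne_infty _ h1
    · rw [OnePoint.coe_eq_coe, Prod.mk.injEq] at h1
      rw [← h1.2] at hm
      exact mbpt_fst_ne (not_bd ht 0) _ hm
  · intro t ht t' ht' e
    obtain ⟨y, hy, h⟩ := chiX2a_int ht
    obtain ⟨y', hy', h'⟩ := chiX2a_int ht'
    rw [h, h', OnePoint.coe_eq_coe, Prod.mk.injEq] at e
    obtain ⟨e0, e1⟩ := mbpt_inj (not_bd ht 0) (not_bd ht' 0) e.2
    have g0 : t 0 = t' 0 := Subtype.ext e0
    have g1 : t 1 = t' 1 := gam_inj (not_bd ht 1) (not_bd ht' 1) (by rw [hy, hy', e1])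
    funext i
    fin_cases i
    · exact g0
    · exact g1

theorem cell_X2b : ∃ χ : Orbit ⊥ × (Fin 2 → I) → OnePoint X, IsCell 2 sk1 ⊥ χ ∧
      (∀ o t, χ (o, t) = chiX2b t ∨ χ (o, t) = opInv (chiX2b t)) ∧
      Set.range χ = Set.range chiX2b ∪ opInv '' Set.range chiX2b := by
  apply isCell_bot continuous_chiX2b continuous_opInv
  · rintro x (rfl | ⟨m, hm, rfl⟩)
    · exact Or.inl rfl
    · right
      refine ⟨m, hm, ?_⟩
      rw [opInv_coe_pair inv_Mb']
      simp
  · rintro t ⟨i, hi⟩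
    by_cases hinf : gam (t 1) = ∞
    · left
      rw [chiX2b, hinf, mm_infty, pair_infty_right]
    · obtain ⟨y, hy⟩ := OnePoint.ne_infty_iff_exists.1 hinf
      fin_cases i
      · rcases hi with hi | hi
        · change t 0 = 0 at hi
          right
          refine ⟨mbpt 0 y, mbpt_zero_fst y, ?_⟩
          rw [chiX2b, hi, eta_zero, ← hy]
          rfl
        · change t 0 = 1 at hi
          left
          rw [chiX2b, hi, eta_one, pair_infty_left]
      · exact absurd (gam_bd hi) hinf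
  · intro t ht
    obtain ⟨s, y, hs, -, -, h⟩ := chiX2b_int ht
    rw [h]
    rintro (h1 | ⟨m, hm, h1⟩)
    · exact OnePoint.coe_ne_infty _ h1
    · rw [OnePoint.coe_eq_coe, Prod.mk.injEq] at h1
      exact hs.ne' h1.1
  · intro t ht t' ht' e
    obtain ⟨s, y, hs0, hs, hy, h⟩ := chiX2b_int ht
    obtain ⟨s', y', hs0', hs', hy', h'⟩ := chiX2b_int ht'
    rw [h, h', OnePoint.coe_eq_coe, Prod.mk.injEq] at e
    have e1 := mbpt_zero_inj e.2
    have g0 : t 0 = t' 0 := eta_inj (not_bd ht 0).2 (not_bd ht' 0).2 (by rw [hs, hs', e.1])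
    have g1 : t 1 = t' 1 := gam_inj (not_bd ht 1) (not_bd ht' 1) (by rw [hy, hy', e1])
    funext i
    fin_cases i
    · exact g0
    · exact g1
  · intro t ht t' ht' e
    obtain ⟨s, y, hs0, hs, hy, h⟩ := chiX2b_int ht
    obtain ⟨s', y', hs0', hs', hy', h'⟩ := chiX2b_int ht'
    rw [h, h', opInv_coe_pair inv_Mb', OnePoint.coe_eq_coe, Prod.mk.injEq] at e
    have := e.1
    linarith

theorem cell_X3 : ∃ χ : Orbit ⊥ × (Fin 3 → I) → OnePoint X, IsCell 3 sk2 ⊥ χ ∧
      (∀ o t, χ (o, t) = chiX3 t ∨ χ (o, t) = opInv (chiX3 t)) ∧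
      Set.range χ = Set.range chiX3 ∪ opInv '' Set.range chiX3 := by
  apply isCell_bot continuous_chiX3 continuous_opInv
  · rintro x (rfl | ⟨s, m, hm, rfl⟩)
    · exact Or.inl rfl
    · right
      refine ⟨-s, m, ?_, ?_⟩
      · rcases hm with hm | hm
        · left; rw [hm, neg_zero]
        · right; exact hm
      · rw [opInv_coe_pair inv_Mb']
  · rintro t ⟨i, hi⟩
    by_cases hinf : gam (t 2) = ∞
    · left
      rw [chiX3, hinf, mm_infty, pair_infty_right]
    · obtain ⟨y, hy⟩ := OnePoint.ne_infty_iff_exists.1 hinf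
      fin_cases i
      · rcases hi with hi | hi
        · change t 0 = 0 at hi
          right
          refine ⟨0, mbpt (t 1) y, Or.inl rfl, ?_⟩
          rw [chiX3, hi, eta_zero, ← hy]
          rfl
        · change t 0 = 1 at hi
          left
          rw [chiX3, hi, eta_one, pair_infty_left]
      · by_cases hinf0 : eta (t 0) = ∞
        · left
          rw [chiX3, hinf0, pair_infty_left]
        · obtain ⟨s, hs⟩ := OnePoint.ne_infty_iff_exists.1 hinf0
          right
          rcases hi with hi | hi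
          · change t 1 = 0 at hi
            refine ⟨s, mbpt 0 y, Or.inr (mbpt_zero_fst y), ?_⟩
            rw [chiX3, hi, ← hs, ← hy]
            rfl
          · change t 1 = 1 at hi
            refine ⟨s, mbpt 1 y, Or.inr (mbpt_one_fst y), ?_⟩
            rw [chiX3, hi, ← hs, ← hy]
            rfl
      · exact absurd (gam_bd hi) hinf
  · intro t ht
    obtain ⟨s, y, hs, -, -, h⟩ := chiX3_int ht
    rw [h]
    rintro (h1 | ⟨s', m, hm, h1⟩)
    · exact OnePoint.coe_ne_infty _ h1
    · rw [OnePoint.coe_eq_coe, Prod.mk.injEq] at h1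
      rcases hm with hm | hm
      · rw [hm] at h1
        exact hs.ne' h1.1
      · rw [← h1.2] at hm
        exact mbpt_fst_ne (not_bd ht 1) _ hm
  · intro t ht t' ht' e
    obtain ⟨s, y, hs0, hs, hy, h⟩ := chiX3_int ht
    obtain ⟨s', y', hs0', hs', hy', h'⟩ := chiX3_int ht'
    rw [h, h', OnePoint.coe_eq_coe, Prod.mk.injEq] at e
    obtain ⟨e0, e1⟩ := mbpt_inj (not_bd ht 1) (not_bd ht' 1) e.2
    have g0 : t 0 = t' 0 := eta_inj (not_bd ht 0).2 (not_bd ht' 0).2 (by rw [hs, hs', e.1])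
    have g1 : t 1 = t' 1 := Subtype.ext e0
    have g2 : t 2 = t' 2 := gam_inj (not_bd ht 2) (not_bd ht' 2) (by rw [hy, hy', e1])
    funext i
    fin_cases i
    · exact g0
    · exact g1
    · exact g2
  · intro t ht t' ht' e
    obtain ⟨s, y, hs0, hs, hy, h⟩ := chiX3_int ht
    obtain ⟨s', y', hs0', hs', hy', h'⟩ := chiX3_int ht'
    rw [h, h', opInv_coe_pair inv_Mb', OnePoint.coe_eq_coe, Prod.mk.injEq] at e
    have := e.1
    linarith

theorem range_X1 : ({∞} : Set (OnePoint X)) ∪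
    Set.range (fun p : Orbit ⊤ × (Fin 1 → I) => chiX1 p.2) = sk1 := by
  ext z
  constructor
  · rintro (rfl | ⟨⟨o, t⟩, rfl⟩)
    · exact Or.inl rfl
    · simp only [chiX1]
      by_cases hinf : gam (t 0) = ∞
      · left
        rw [hinf, mm_infty, pair_infty_right]
      · right
        obtain ⟨y, hy⟩ := OnePoint.ne_infty_iff_exists.1 hinf
        exact ⟨mbpt 0 y, mbpt_zero_fst y, by rw [← hy]; rfl⟩
  · rintro (rfl | ⟨m, hm, rfl⟩)
    · exact Or.inl rfl
    · right
      obtain ⟨β, rfl⟩ := mb_one m hm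
      obtain ⟨t0, -, h0⟩ := gam_surj β
      refine ⟨(((1 : ℤˣ) : ℤˣ ⧸ (⊤ : Subgroup ℤˣ)), ![t0]), ?_⟩
      simp only [chiX1, Matrix.cons_val_zero]
      rw [h0]
      rfl

theorem range_X2 {χ : Orbit ⊥ × (Fin 2 → I) → OnePoint X}
    (h : Set.range χ = Set.range chiX2b ∪ opInv '' Set.range chiX2b) :
    sk1 ∪ (Set.range (fun p : Orbit ⊤ × (Fin 2 → I) => chiX2a p.2) ∪ Set.range χ) = sk2 := by
  rw [h]
  have hb : ∀ t, chiX2b t = ∞ ∨ ∃ (s : ℝ) (m : Mb), m.1.1 = 1 ∧ chiX2b t = ((s, m) : X) := by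
    intro t
    by_cases hinf : gam (t 1) = ∞
    · left
      rw [chiX2b, hinf, mm_infty, pair_infty_right]
    · by_cases hinf0 : eta (t 0) = ∞
      · left
        rw [chiX2b, hinf0, pair_infty_left]
      · right
        obtain ⟨y, hy⟩ := OnePoint.ne_infty_iff_exists.1 hinf
        obtain ⟨s, hs⟩ := OnePoint.ne_infty_iff_exists.1 hinf0
        exact ⟨s, mbpt 0 y, mbpt_zero_fst y, by rw [chiX2b, ← hs, ← hy]; rfl⟩
  ext z
  constructor
  · rintro ((rfl | ⟨m, hm, rfl⟩) | (⟨⟨o, t⟩, rfl⟩ | (⟨t, rfl⟩ | ⟨_, ⟨t, rfl⟩, rfl⟩)))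
    · exact Or.inl rfl
    · exact Or.inr ⟨0, m, Or.inl rfl, rfl⟩
    · simp only [chiX2a]
      by_cases hinf : gam (t 1) = ∞
      · left
        rw [hinf, mm_infty, pair_infty_right]
      · right
        obtain ⟨y, hy⟩ := OnePoint.ne_infty_iff_exists.1 hinf
        exact ⟨0, mbpt (t 0) y, Or.inl rfl, by rw [← hy]; rfl⟩
    · rcases hb t with h1 | ⟨s, m, hm, h1⟩
      · exact Or.inl h1
      · exact Or.inr ⟨s, m, Or.inr hm, h1⟩
    · rcases hb t with h1 | ⟨s, m, hm, h1⟩
      · left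
        rw [h1]
        rfl
      · right
        refine ⟨-s, m, Or.inr hm, ?_⟩
        rw [h1, opInv_coe_pair inv_Mb']
  · rintro (rfl | ⟨s, m, hm, rfl⟩)
    · exact Or.inl (Or.inl rfl)
    · have keyb : ∀ (s : ℝ), 0 ≤ s → m.1.1 = 1 →
          (((s, m) : X) : OnePoint X) ∈ Set.range chiX2b := by
        intro s hs hm1
        obtain ⟨β, rfl⟩ := mb_one m hm1
        obtain ⟨t, -, ht⟩ := eta_surj hs
        obtain ⟨t0, -, h0⟩ := gam_surj β
        refine ⟨![t, t0], ?_⟩
        rw [chiX2b]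
        change pair (eta t) (mm (0, gam t0)) = _
        rw [ht, h0]
        rfl
      by_cases hm1 : m.1.1 = 1
      · right
        right
        rcases le_total 0 s with h1 | h1
        · exact Or.inl (keyb s h1 hm1)
        · right
          have h' : (0 : ℝ) ≤ -s := neg_nonneg.2 h1
          refine ⟨_, keyb (-s) h' hm1, ?_⟩
          rw [opInv_coe_pair inv_Mb', neg_neg]
      · have hs : s = 0 := by
          rcases hm with h1 | h1
          · exact h1
          · exact absurd h1 hm1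
        subst hs
        right
        left
        obtain ⟨α, β, hα, rfl⟩ := mb_ne_one m hm1
        obtain ⟨t0, -, h0⟩ := gam_surj β
        refine ⟨(((1 : ℤˣ) : ℤˣ ⧸ (⊤ : Subgroup ℤˣ)), ![⟨α, hα.1.le, hα.2.le⟩, t0]), ?_⟩
        simp only [chiX2a, Matrix.cons_val_zero, Matrix.cons_val_one]
        rw [h0]
        rfl

theorem range_X3 {χ : Orbit ⊥ × (Fin 3 → I) → OnePoint X}
    (h : Set.range χ = Set.range chiX3 ∪ opInv '' Set.range chiX3) :
    sk2 ∪ Set.range χ = Set.univ := by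
  rw [Set.eq_univ_iff_forall, h]
  intro z
  induction z using OnePoint.rec with
  | infty => exact Or.inl (Or.inl rfl)
  | coe p =>
    obtain ⟨s, m⟩ := p
    by_cases hm1 : m.1.1 = 1
    · exact Or.inl (Or.inr ⟨s, m, Or.inr hm1, rfl⟩)
    · right
      have key : ∀ (s : ℝ), 0 ≤ s → (((s, m) : X) : OnePoint X) ∈ Set.range chiX3 := by
        intro s hs
        obtain ⟨α, β, hα, rfl⟩ := mb_ne_one m hm1
        obtain ⟨t, -, ht⟩ := eta_surj hs
        obtain ⟨t0, -, h0⟩ := gam_surj β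
        refine ⟨![t, ⟨α, hα.1.le, hα.2.le⟩, t0], ?_⟩
        rw [chiX3]
        change pair (eta t) (mm (⟨α, hα.1.le, hα.2.le⟩, gam t0)) = _
        rw [ht, h0]
        rfl
      rcases le_total 0 s with h1 | h1
      · exact Or.inl (key s h1)
      · right
        have h' : (0 : ℝ) ≤ -s := neg_nonneg.2 h1
        refine ⟨_, key (-s) h', ?_⟩
        rw [opInv_coe_pair inv_Mb', neg_neg]

theorem isFiniteCW_X : IsFiniteCW X := by
  obtain ⟨χ2, hχ2, hor2, hr2⟩ := cell_X2b
  obtain ⟨χ3, hχ3, -, hr3⟩ := cell_X3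
  have a1 := attach_one isCell_X1
  rw [range_X1] at a1
  have a2 : AttachCells 2 sk1 sk2 := by
    have := attach_two isCell_X2a hχ2 ?_
    · rw [range_X2 hr2] at this
      exact this
    · intro o t ht o' t' ht' e
      simp only at e
      obtain ⟨y, -, h⟩ := chiX2a_int ht
      obtain ⟨s', y', hs', -, -, h'⟩ := chiX2b_int ht'
      rcases hor2 o' t' with h1 | h1
      · rw [h, h1, h', OnePoint.coe_eq_coe, Prod.mk.injEq] at e
        exact hs'.ne e.1
      · rw [h, h1, h', opInv_coe_pair inv_Mb', OnePoint.coe_eq_coe, Prod.mk.injEq] at e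
        have := e.1
        linarith
  have a3 := attach_one hχ3
  rw [range_X3 hr3] at a3
  refine ⟨4, fun d => if d ≤ 1 then {∞} else if d = 2 then sk1 else if d = 3 then sk2
    else Set.univ, rfl, rfl, ?_⟩
  intro d
  rcases Nat.lt_or_ge d 1 with h0 | h0
  · obtain rfl : d = 0 := by omega
    exact attach_none 0 _
  · rcases Nat.lt_or_ge d 2 with h1 | h1
    · obtain rfl : d = 1 := by omega
      exact a1
    · rcases Nat.lt_or_ge d 3 with h2 | h2
      · obtain rfl : d = 2 := by omega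
        exact a2
      · rcases Nat.lt_or_ge d 4 with h3 | h3
        · obtain rfl : d = 3 := by omega
          exact a3
        · simp only [if_neg (by omega : ¬ d ≤ 1), if_neg (by omega : ¬ d + 1 ≤ 1),
            if_neg (by omega : ¬ d = 2), if_neg (by omega : ¬ d + 1 = 2),
            if_neg (by omega : ¬ d + 1 = 3), if_neg (by omega : ¬ d = 3)]
          exact attach_none d _

end

end Pool.Agent.MP2c15fb
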