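import Pool.Agent.MP_2c15fb_gt.Psi

/-!
# Analysis of the labels at the beginning of the homotopy
-/

set_option linter.unusedSectionVars false

namespace Pool.Agent.MP2c15fb

open Lab Topology Filter OnePoint unitInterval

noncomputable section

variable {n : ℕ}

/-- thresholds for the trivial coordinates -/
def thT (K : ℤ) : Fin (n + 3) → ℤ → Bool :=
  Matrix.vecCons (fun z => decide (z < 2 * K)) (Matrix.vecCons (fun z => decide (K < z))
    (Matrix.vecCons (fun z => decide (z < 0)) (fun _ z => decide (z < 0))))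

/-- threshold for the first sign coordinate -/
def thY (K : ℤ) : ℤ → Bool := fun z => decide (2 * K ≤ z)

theorem thT_0 (K z : ℤ) : thT (n := n) K 0 z = decide (z < 2 * K) := rfl
theorem thT_1 (K z : ℤ) : thT (n := n) K (Fin.succ 0) z = decide (K < z) := rfl
theorem thT_2 (K z : ℤ) : thT (n := n) K (Fin.succ (Fin.succ 0)) z = decide (z < 0) := rfl
theorem thT_3 (K z : ℤ) (k : Fin n) : thT K k.succ.succ.succ z = decide (z < 0) := rfl

theorem cx_sq_re (α : ℝ) : (cx α ^ 2).re = Real.cos (2 * Real.pi * α) := by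
  have : cx α ^ 2 = Complex.exp ((2 * Real.pi * α : ℝ) * Complex.I) := by
    rw [cx, ← Complex.exp_nat_mul]
    congr 1
    push_cast
    ring
  rw [this, Complex.exp_ofReal_mul_I_re]

theorem cx_sq_im (α : ℝ) : (cx α ^ 2).im = Real.sin (2 * Real.pi * α) := by
  have : cx α ^ 2 = Complex.exp ((2 * Real.pi * α : ℝ) * Complex.I) := by
    rw [cx, ← Complex.exp_nat_mul]
    congr 1
    push_cast
    ring
  rw [this, Complex.exp_ofReal_mul_I_im]

theorem cx_im (α : ℝ) : (cx α).im = Real.sin (Real.pi * α) := by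
  have : cx α = Complex.exp ((Real.pi * α : ℝ) * Complex.I) := by
    rw [cx]
    congr 1
    push_cast
    ring
  rw [this, Complex.exp_ofReal_mul_I_im]

theorem omr_mbpt (α β : ℝ) : omr (mbpt α β) = 1 - Real.cos (2 * Real.pi * α) := by
  rw [omr, mbpt, cx_sq_re]

theorem p0_mbpt_0 (α β : ℝ) : p₀fun (mbpt α β) 0 =
    Real.sin (2 * Real.pi * α) / (1 - Real.cos (2 * Real.pi * α)) := by
  rw [p₀fun, Matrix.cons_val_zero, omr_mbpt, mbpt, cx_sq_im]

theorem p0_mbpt_1 (α β : ℝ) : p₀fun (mbpt α β) 1 =
    β * Real.sin (Real.pi * α) / (1 - Real.cos (2 * Real.pi * α)) := by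
  rw [p₀fun, Matrix.cons_val_one, omr_mbpt, mbpt]
  simp [cx_im, mul_comm]

/-- the value of the map at `(x, y)` with all sign coordinates except the first equal to `0` -/
theorem Fn_src_fin (x : Ix (n + 3) (n + n + 2 + 1) → ℝ) (h : x (Tc 0) ≠ 0)
    (h' : 0 < omr (mbpt (x (Tc (Fin.succ 0))) (x (Tc (Fin.succ (Fin.succ 0)))))) :
    Fn n (src n x) = (((src n x).1, (Qfun (src n x).2.1, ((src n x).2.2.1,
      p₀fun (mbpt (x (Tc (Fin.succ 0))) (x (Tc (Fin.succ (Fin.succ 0)))))))) : Zt n) :=
  Fn_fin _ h h'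

theorem omr_pos_iff {α : ℝ} (β : ℝ) (h0 : 0 ≤ α) (h1 : α ≤ 1) :
    0 < omr (mbpt α β) ↔ 0 < α ∧ α < 1 := by
  rw [omr_mbpt]
  have hpi := Real.pi_pos
  constructor
  · intro h
    constructor
    · rcases h0.lt_or_eq with h2 | h2
      · exact h2
      · rw [← h2] at h
        simp at h
    · rcases h1.lt_or_eq with h2 | h2
      · exact h2
      · rw [h2] at h
        simp at h
  · rintro ⟨h2, h3⟩
    have : Real.cos (2 * Real.pi * α) < 1 := by
      rw [lt_iff_le_and_ne]
      refine ⟨Real.cos_le_one _, fun h => ?_⟩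
      rw [Real.cos_eq_one_iff_of_lt_of_lt] at h
      · nlinarith
      · nlinarith
      · nlinarith
    linarith

theorem sin_two_pi_neg_iff {α : ℝ} (h0 : 0 < α) (h1 : α < 1) :
    Real.sin (2 * Real.pi * α) < 0 ↔ 1 / 2 < α := by
  have hpi := Real.pi_pos
  constructor
  · intro h
    by_contra hcon
    push Not at hcon
    have : 0 ≤ Real.sin (2 * Real.pi * α) := by
      apply Real.sin_nonneg_of_nonneg_of_le_pi
      · positivity
      · nlinarith
    linarith
  · intro h
    have : Real.sin (2 * Real.pi * α) = Real.sin (2 * Real.pi * α - 2 * Real.pi) := by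
      rw [Real.sin_sub_two_pi]
    rw [this]
    apply Real.sin_neg_of_neg_of_neg_pi_lt
    · nlinarith
    · nlinarith

theorem sin_pi_pos {α : ℝ} (h0 : 0 < α) (h1 : α < 1) : 0 < Real.sin (Real.pi * α) := by
  have hpi := Real.pi_pos
  apply Real.sin_pos_of_pos_of_lt_pi
  · positivity
  · nlinarith

theorem rho_neg_iff {a : ℝ} (ha : 0 < a) : rho a < 0 ↔ a < 1 := by
  unfold rho
  rw [abs_of_pos ha, sub_neg]
  have h1 : a * a⁻¹ = 1 := mul_inv_cancel₀ ha.ne'
  have h2 : 0 < a⁻¹ := inv_pos.2 ha
  constructor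
  · intro h
    by_contra hcon
    push Not at hcon
    nlinarith
  · intro h
    by_contra hcon
    push Not at hcon
    nlinarith

theorem Qfun_pos {p : V 1} (h : 0 < p.1 0) : (Qfun p).2 = p.2 := by
  simp only [Qfun]
  rw [if_pos h]

theorem Qfun_neg {p : V 1} (h : p.1 0 < 0) : (Qfun p).2 = fun i => (starRingEnd ℂ) (p.2 i) := by
  simp only [Qfun]
  rw [if_neg (by linarith)]

theorem src_b (x : Ix (n + 3) (n + n + 2 + 1) → ℝ) (i : Fin 1) : (src n x).2.1.2 i =
    (x (Yc (Fin.succ 0)) : ℂ) + (x (Yc 0) : ℂ) * Complex.I := rfl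

/-- data for the count -/
theorem count_data {K : ℤ} (hK : 0 < K) (c : Ix (n + 3) (n + n + 2 + 1) → ℤ)
    (hY : ∀ i, i ≠ 0 → c (Yc i) = 0) (ha : c (Tc 0) ≠ 0)
    (h0 : 0 ≤ c (Tc (Fin.succ 0))) (h1 : c (Tc (Fin.succ 0)) ≤ 2 * K) :
    Fn n (src n (pt K c)) = ∞ ∨ ∃ z : Zt n, Fn n (src n (pt K c)) = z ∧
      tco z 0 = rho (pt K c (Tc 0)) ∧
      (0 < pt K c (Tc (Fin.succ 0)) ∧ pt K c (Tc (Fin.succ 0)) < 1) ∧
      tco z (Fin.succ 0) = Real.sin (2 * Real.pi * pt K c (Tc (Fin.succ 0))) /
        (1 - Real.cos (2 * Real.pi * pt K c (Tc (Fin.succ 0)))) ∧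
      tco z (Fin.succ (Fin.succ 0)) = pt K c (Tc (Fin.succ (Fin.succ 0))) *
        Real.sin (Real.pi * pt K c (Tc (Fin.succ 0))) /
        (1 - Real.cos (2 * Real.pi * pt K c (Tc (Fin.succ 0)))) ∧
      (∀ k : Fin n, tco z k.succ.succ.succ = pt K c (Tc k.succ.succ.succ)) ∧
      (0 < pt K c (Tc 0) → yco z 0 = pt K c (Yc 0)) ∧
      (pt K c (Tc 0) < 0 → yco z 0 = -pt K c (Yc 0)) ∧
      ∀ i, i ≠ 0 → yco z i = 0 := by
  have hK' : (0 : ℝ) < K := by exact_mod_cast hK
  have hYp : ∀ i, i ≠ 0 → pt K c (Yc i) = 0 := by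
    intro i hi
    rw [pt, hY i hi]
    simp
  have hane : pt K c (Tc 0) ≠ 0 := by
    rw [pt]
    apply div_ne_zero
    · exact_mod_cast ha
    · positivity
  have hα0 : 0 ≤ pt K c (Tc (Fin.succ 0)) := by
    rw [pt]
    apply div_nonneg
    · exact_mod_cast h0
    · positivity
  have hα1 : pt K c (Tc (Fin.succ 0)) ≤ 1 := by
    rw [pt, div_le_one (by positivity)]
    exact_mod_cast h1
  by_cases hom : 0 < omr (mbpt (pt K c (Tc (Fin.succ 0))) (pt K c (Tc (Fin.succ (Fin.succ 0)))))
  · right
    refine ⟨_, Fn_src_fin _ hane hom, ?_⟩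
    rw [omr_pos_iff _ hα0 hα1] at hom
    refine ⟨rfl, hom, ?_, ?_, fun k => rfl, ?_, ?_, ?_⟩
    · rw [tco_1]
      exact p0_mbpt_0 _ _
    · rw [tco_2]
      exact p0_mbpt_1 _ _
    · intro hpos
      rw [yco_0]
      simp only
      rw [Qfun_pos hpos, src_b]
      simp
    · intro hneg
      rw [yco_0]
      simp only
      rw [Qfun_neg hneg]
      beta_reduce
      rw [src_b]
      simp
    · intro i
      refine casesY (p := fun i => i ≠ 0 → yco _ i = 0) ?_ ?_ ?_ ?_ ?_ i
      · intro h
        exact absurd rfl h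
      · intro _
        rw [yco_1]
        simp only
        rcases lt_or_gt_of_ne hane with hlt | hgt
        · rw [Qfun_neg hlt]
          beta_reduce
          rw [src_b, Complex.conj_re]
          simp only [Complex.add_re, Complex.ofReal_re, Complex.mul_re, Complex.I_re,
            Complex.I_im, Complex.ofReal_im]
          rw [hYp _ (Fin.succ_ne_zero _)]
          ring
        · rw [Qfun_pos hgt, src_b]
          simp only [Complex.add_re, Complex.ofReal_re, Complex.mul_re, Complex.I_re,
            Complex.I_im, Complex.ofReal_im]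
          rw [hYp _ (Fin.succ_ne_zero _)]
          ring
      · intro _
        rw [yco_2]
        simp only [src]
        exact hYp _ (Fin.succ_ne_zero _)
      · intro k _
        rw [yco_3l]
        simp only [src, Complex.add_re, Complex.ofReal_re, Complex.mul_re, Complex.I_re,
            Complex.I_im, Complex.ofReal_im]
        rw [hYp _ (Fin.succ_ne_zero _)]
        ring
      · intro k _
        rw [yco_3r]
        simp only [src, Complex.add_im, Complex.ofReal_re, Complex.mul_im, Complex.I_re,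
            Complex.I_im, Complex.ofReal_im]
        rw [hYp _ (Fin.succ_ne_zero _)]
        ring
  · left
    exact Fn_infty _ (Or.inr hom)

/-- Labels for `a < 0`. -/
theorem label_neg {K : ℤ} (hK : 0 < K) (c : Ix (n + 3) (n + n + 2 + 1) → ℤ)
    (hY : ∀ i, i ≠ 0 → c (Yc i) = 0) (hY0 : 0 ≤ c (Yc 0)) (ha : c (Tc 0) < 0)
    (h0 : 0 ≤ c (Tc (Fin.succ 0))) (h1 : c (Tc (Fin.succ 0)) ≤ 2 * K) (i : Fin (n + n + 2 + 1)) :
    LO (Fn n (src n (pt K c))) ≠ e i true := by
  have hK' : (0 : ℝ) < K := by exact_mod_cast hK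
  intro hcon
  rcases count_data hK c hY ha.ne h0 h1 with h | ⟨z, hz, -, -, -, -, -, -, hzY, hzY'⟩
  · rw [h, LO_infty] at hcon
    exact absurd hcon (by simp)
  · rw [hz, LO_coe] at hcon
    have := cond_LR (tco z) (yco z)
    rw [hcon] at this
    have h2 : 1 ≤ yco z i := this
    have haneg : pt K c (Tc 0) < 0 := by
      rw [pt]
      apply div_neg_of_neg_of_pos
      · exact_mod_cast ha
      · positivity
    have hy0 : 0 ≤ pt K c (Yc 0) := by
      rw [pt]
      apply div_nonneg
      · exact_mod_cast hY0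
      · positivity
    by_cases hi : i = 0
    · subst hi
      rw [hzY haneg] at h2
      linarith
    · rw [hzY' i hi] at h2
      linarith

/-- Labels for `a = 0`. -/
theorem label_zero {K : ℤ} (c : Ix (n + 3) (n + n + 2 + 1) → ℤ) (ha : c (Tc 0) = 0) :
    LO (Fn n (src n (pt K c))) = outer := by
  rw [Fn_infty, LO_infty]
  left
  simp [src, pt, ha]

/-- Labels for `a > 0`. -/
theorem label_pos' {K : ℤ} (hK : 0 < K) (c : Ix (n + 3) (n + n + 2 + 1) → ℤ)
    (hY : ∀ i, i ≠ 0 → c (Yc i) = 0) (hY0 : 0 ≤ c (Yc 0)) (ha : 0 < c (Tc 0))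
    (h0 : 0 ≤ c (Tc (Fin.succ 0))) (h1 : c (Tc (Fin.succ 0)) ≤ 2 * K) :
    LO (Fn n (src n (pt K c))) = outer ∨ LO (Fn n (src n (pt K c))) =
      prio Lab.last thrLab (thrFun (thT K) (thY K)) (plist (n + 3) (n + n + 2)) c := by
  have hK' : (0 : ℝ) < K := by exact_mod_cast hK
  rcases count_data hK c hY ha.ne' h0 h1 with
    h | ⟨z, hz, z0, hα, z1, z2, z3, hzY, -, hzY'⟩
  · left
    rw [h, LO_infty]
  · rw [hz, LO_coe]
    have hapos : 0 < pt K c (Tc 0) := by
      rw [pt]
      apply div_pos
      · exact_mod_cast ha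
      · positivity
    have hy0 : 0 ≤ pt K c (Yc 0) := by
      rw [pt]
      apply div_nonneg
      · exact_mod_cast hY0
      · positivity
    have hden : 0 < 1 - Real.cos (2 * Real.pi * pt K c (Tc (Fin.succ 0))) := by
      have := (omr_pos_iff (α := pt K c (Tc (Fin.succ 0))) 0 hα.1.le hα.2.le).2 hα
      rwa [omr_mbpt] at this
    have hsgn : ∀ m : ℤ, ((m : ℝ) / (2 * K) < 0 ↔ m < 0) := by
      intro m
      rw [div_neg_iff]
      constructor
      · rintro (⟨-, h⟩ | ⟨h, -⟩)
        · linarith
        · exact_mod_cast h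
      · intro h
        right
        exact ⟨by exact_mod_cast h, by positivity⟩
    apply LR_eq_prio hzY'
    · rw [hzY hapos]; exact hy0
    · rw [hzY hapos, thY, pt]
      rw [decide_eq_decide, le_div_iff₀ (by positivity), one_mul]
      constructor
      · intro h; exact_mod_cast h
      · intro h; exact_mod_cast h
    · intro t
      refine casesT (p := fun t => thT K t (c (Tc t)) = decide (tco z t < 0)) ?_ ?_ ?_ ?_ t
      · rw [thT_0, z0, decide_eq_decide, rho_neg_iff hapos, pt, div_lt_one (by positivity)]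
        constructor
        · intro h; exact_mod_cast h
        · intro h; exact_mod_cast h
      · rw [thT_1, z1, decide_eq_decide, div_neg_iff]
        have hs := sin_two_pi_neg_iff hα.1 hα.2
        have hk : (1 / 2 < pt K c (Tc (Fin.succ 0))) ↔ K < c (Tc (Fin.succ 0)) := by
          rw [pt, div_lt_div_iff₀ (by norm_num) (by positivity)]
          constructor
          · intro h
            have : (K : ℝ) < c (Tc (Fin.succ 0)) := by linarith
            exact_mod_cast this
          · intro h
            have : (K : ℝ) < c (Tc (Fin.succ 0)) := by exact_mod_cast h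
            linarith
        constructor
        · intro h
          right
          exact ⟨hs.2 (hk.2 h), hden⟩
        · rintro (⟨-, h⟩ | ⟨h, -⟩)
          · linarith
          · exact hk.1 (hs.1 h)
      · rw [thT_2, z2, decide_eq_decide, div_neg_iff]
        have hs := sin_pi_pos hα.1 hα.2
        have hk : (pt K c (Tc (Fin.succ (Fin.succ 0))) < 0) ↔ c (Tc (Fin.succ (Fin.succ 0))) < 0 := by
          rw [pt]
          exact hsgn _
        constructor
        · intro h
          right
          refine ⟨?_, hden⟩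
          have := hk.2 h
          nlinarith
        · rintro (⟨-, h⟩ | ⟨h, -⟩)
          · linarith
          · rw [← hk]
            by_contra hcon
            push Not at hcon
            have := mul_nonneg hcon hs.le
            linarith
      · intro k
        rw [thT_3, z3, decide_eq_decide, pt]
        exact (hsgn _).symm

/-- Labels near the crossing point. -/
theorem label_cross {K : ℤ} (hK : 4 ≤ K) (c : Ix (n + 3) (n + n + 2 + 1) → ℤ)
    (hY : ∀ i, i ≠ 0 → c (Yc i) = 0)
    (ha : |c (Tc 0) - 2 * K| ≤ 2) (h1 : |c (Tc (Fin.succ 0)) - K| ≤ 2)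
    (h2 : |c (Tc (Fin.succ (Fin.succ 0)))| ≤ 2) (h3 : ∀ k : Fin n, |c (Tc k.succ.succ.succ)| ≤ 2)
    (hY0 : |c (Yc 0) - 2 * K| ≤ 2) : LO (Fn n (src n (pt K c))) ≠ outer := by
  have hK0 : 0 < K := by omega
  have hK' : (4 : ℝ) ≤ K := by exact_mod_cast hK
  rw [abs_le] at ha h1 hY0
  intro hcon
  have hKr : (0 : ℝ) < 2 * K := by linarith
  rcases count_data hK0 c hY (by omega) (by omega) (by omega) with
    h | ⟨z, hz, z0, hα, z1, z2, z3, hzY, -, hzY'⟩
  · exfalso
    -- the point is finite
    have hane : pt K c (Tc 0) ≠ 0 := by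
      rw [pt]
      apply div_ne_zero
      · have : c (Tc 0) ≠ 0 := by omega
        exact_mod_cast this
      · exact hKr.ne'
    have hom : 0 < omr (mbpt (pt K c (Tc (Fin.succ 0))) (pt K c (Tc (Fin.succ (Fin.succ 0))))) := by
      rw [omr_pos_iff]
      · rw [pt]
        constructor
        · apply div_pos _ hKr
          have : 0 < c (Tc (Fin.succ 0)) := by omega
          exact_mod_cast this
        · rw [div_lt_one hKr]
          have : c (Tc (Fin.succ 0)) < 2 * K := by omega
          exact_mod_cast this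
      · rw [pt]
        apply div_nonneg _ hKr.le
        have : 0 ≤ c (Tc (Fin.succ 0)) := by omega
        exact_mod_cast this
      · rw [pt, div_le_one hKr]
        have : c (Tc (Fin.succ 0)) ≤ 2 * K := by omega
        exact_mod_cast this
    rw [Fn_src_fin _ hane hom] at h
    exact OnePoint.coe_ne_infty _ h
  · rw [hz, LO_coe] at hcon
    have hc := cond_LR (tco z) (yco z)
    rw [hcon] at hc
    have small : ∀ m : ℤ, |m| ≤ 2 → |(m : ℝ) / (2 * K)| ≤ 1 / 4 := by
      intro m hm
      rw [abs_div, abs_of_pos hKr, div_le_iff₀ hKr]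
      have : |(m : ℝ)| ≤ 2 := by exact_mod_cast hm
      linarith
    have hap : |pt K c (Tc 0) - 1| ≤ 1 / 4 := by
      have : pt K c (Tc 0) - 1 = ((c (Tc 0) - 2 * K : ℤ) : ℝ) / (2 * K) := by
        rw [pt]
        push_cast
        field_simp
      rw [this]
      exact small _ (abs_le.2 ha)
    have hyp : |pt K c (Yc 0) - 1| ≤ 1 / 4 := by
      have : pt K c (Yc 0) - 1 = ((c (Yc 0) - 2 * K : ℤ) : ℝ) / (2 * K) := by
        rw [pt]
        push_cast
        field_simp
      rw [this]
      exact small _ (abs_le.2 hY0)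
    have hαp : |pt K c (Tc (Fin.succ 0)) - 1 / 2| ≤ 1 / 4 := by
      have : pt K c (Tc (Fin.succ 0)) - 1 / 2 = ((c (Tc (Fin.succ 0)) - K : ℤ) : ℝ) / (2 * K) := by
        rw [pt]
        push_cast
        field_simp
      rw [this]
      exact small _ (abs_le.2 h1)
    rw [abs_le] at hap hyp hαp
    have hpi := Real.pi_pos
    have hcos : Real.cos (2 * Real.pi * pt K c (Tc (Fin.succ 0))) ≤ 0 := by
      apply Real.cos_nonpos_of_pi_div_two_le_of_le
      · nlinarith
      · nlinarith
    have hden : 1 ≤ 1 - Real.cos (2 * Real.pi * pt K c (Tc (Fin.succ 0))) := by linarith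
    have hapos : 0 < pt K c (Tc 0) := by linarith
    rcases hc with ⟨t, ht⟩ | ⟨i, hi⟩
    · revert ht
      rw [imp_false, not_le]
      refine casesT (p := fun t => |tco z t| < 2) ?_ ?_ ?_ ?_ t
      · rw [z0, rho, abs_of_pos hapos]
        set a := pt K c (Tc 0)
        have h4 : a⁻¹ ≤ 4 / 3 := by
          rw [inv_le_comm₀ hapos (by norm_num)]
          norm_num
          linarith
        have h5 : 0 < a⁻¹ := inv_pos.2 hapos
        rw [abs_lt]
        constructor <;> linarith
      · rw [z1, abs_div, abs_of_pos (by linarith : (0:ℝ) <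
          1 - Real.cos (2 * Real.pi * pt K c (Tc (Fin.succ 0)))), div_lt_iff₀ (by linarith)]
        have := Real.abs_sin_le_one (2 * Real.pi * pt K c (Tc (Fin.succ 0)))
        linarith
      · rw [z2, abs_div, abs_of_pos (by linarith : (0:ℝ) <
          1 - Real.cos (2 * Real.pi * pt K c (Tc (Fin.succ 0)))), div_lt_iff₀ (by linarith),
          abs_mul]
        have h4 := Real.abs_sin_le_one (Real.pi * pt K c (Tc (Fin.succ 0)))
        have h5 : |pt K c (Tc (Fin.succ (Fin.succ 0)))| ≤ 1 / 4 := by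
          rw [pt]
          exact small _ h2
        have h6 := abs_nonneg (pt K c (Tc (Fin.succ (Fin.succ 0))))
        have h7 := abs_nonneg (Real.sin (Real.pi * pt K c (Tc (Fin.succ 0))))
        nlinarith
      · intro k
        rw [z3, pt]
        have := small _ (h3 k)
        linarith
    · by_cases hi0 : i = 0
      · subst hi0
        rw [hzY hapos, abs_of_pos (by linarith)] at hi
        linarith
      · rw [hzY' i hi0] at hi
        norm_num at hi

end

end Pool.Agent.MP2c15fb
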