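import Pool.Agent.MP_2c15fb_gt.Spaces

/-!
# Stable maps

An element of the group of stable equivariant maps from the one-point compactification of `K` to
that of `L` is represented by a pointed equivariant map `PMap (V n × K) (V n × L)`.
-/

set_option linter.unusedSectionVars false

namespace Pool.Agent.MP2c15fb

open Topology OnePoint

noncomputable section

section

variable {A B C D : Type} [TopologicalSpace A] [TopologicalSpace B] [TopologicalSpace C]
  [TopologicalSpace D] [T2Space A] [T2Space B] [T2Space C] [T2Space D]
  [LocallyCompactSpace A] [LocallyCompactSpace B] [LocallyCompactSpace C] [LocallyCompactSpace D]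
  [Invol A] [Invol B] [Invol C] [Invol D]

/-- `φ` is stably null if it becomes null after smashing with the one-point compactification of
one of the representations `V m`. -/
def StablyNull (φ : PMap A B) : Prop := ∃ m : ℕ, Null (smash (PMap.id (V m)) φ)

/-- The map of one-point compactifications induced by an equivariant homeomorphism. -/
def PMap.ofHomeo (e : A ≃ₜ B) (he : ∀ a, e (inv a) = inv (e a)) : PMap A B where
  map := ⟨OnePoint.map e, e.onePointCongr.continuous⟩
  prop := by
    refine ⟨rfl, fun x => ?_⟩
    induction x using OnePoint.rec with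
    | infty => rfl
    | coe a =>
      change ((e (inv a) : B) : OnePoint B) = ((inv (e a) : B) : OnePoint B)
      rw [he]

/-- The homeomorphism `E × (V × (T × K)) ≃ V × (T × (E × K))` permuting the factors. -/
def shuffleHomeo (E V T K : Type) [TopologicalSpace E] [TopologicalSpace V] [TopologicalSpace T]
    [TopologicalSpace K] : E × (V × (T × K)) ≃ₜ V × (T × (E × K)) where
  toFun p := (p.2.1, (p.2.2.1, (p.1, p.2.2.2)))
  invFun p := (p.2.2.1, (p.1, (p.2.1, p.2.2.2)))
  left_inv _ := rfl
  right_inv _ := rfl
  continuous_toFun := by fun_prop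
  continuous_invFun := by fun_prop

/-- The pointed equivariant map induced by `shuffleHomeo`. -/
def shuffle (E V T K : Type) [TopologicalSpace E] [TopologicalSpace V] [TopologicalSpace T]
    [TopologicalSpace K] [Invol E] [Invol V] [Invol T] [Invol K] :
    PMap (E × (V × (T × K))) (V × (T × (E × K))) where
  map := ⟨OnePoint.map (shuffleHomeo E V T K), (shuffleHomeo E V T K).onePointCongr.continuous⟩
  prop := by
    refine ⟨rfl, fun x => ?_⟩
    induction x using OnePoint.rec with
    | infty => rfl
    | coe a => rfl

end

/-- The composite of stable maps. If `u : (V n)⁺ ∧ A⁺ → (V n)⁺ ∧ (ℝ^j)⁺ ∧ K⁺` represents a stable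
map `A⁺ → Σ^j K⁺` and `f : (V m)⁺ ∧ K⁺ → (V m)⁺ ∧ L⁺` represents a stable map `K⁺ → L⁺`, then
`stableComp f u : (V m)⁺ ∧ (V n)⁺ ∧ A⁺ → (V n)⁺ ∧ (ℝ^j)⁺ ∧ (V m)⁺ ∧ L⁺` represents the composite
of `u` with the `j`-fold suspension of `f`. -/
def stableComp {m n j : ℕ} {A K L : Type} [TopologicalSpace A] [TopologicalSpace K]
    [TopologicalSpace L] [T2Space A] [T2Space K] [T2Space L] [LocallyCompactSpace A]
    [LocallyCompactSpace K] [LocallyCompactSpace L] [Invol A] [Invol K] [Invol L]
    (f : PMap (V m × K) (V m × L)) (u : PMap (V n × A) (V n × (Triv j × K))) :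
    PMap (V m × (V n × A)) (V n × (Triv j × (V m × L))) :=
  (smash (PMap.id (V n)) (smash (PMap.id (Triv j)) f)).comp
    ((shuffle (V m) (V n) (Triv j) K).comp (smash (PMap.id (V m)) u))

end

end Pool.Agent.MP2c15fb
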