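import Pool.Agent.MP_2c15fb_gt.MapF
import Pool.Agent.MP_2c15fb_gt.Stable

/-!
# Homotopies
-/

set_option linter.unusedSectionVars false

namespace Pool.Agent.MP2c15fb

open Topology OnePoint unitInterval

noncomputable section

section

variable {A B C D : Type} [TopologicalSpace A] [TopologicalSpace B] [TopologicalSpace C]
  [TopologicalSpace D] [T2Space A] [T2Space B] [T2Space C] [T2Space D]
  [LocallyCompactSpace A] [LocallyCompactSpace B] [LocallyCompactSpace C] [LocallyCompactSpace D]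
  [Invol A] [Invol B] [Invol C] [Invol D]

/-- The underlying function of a pointed equivariant map. -/
instance : CoeFun (PMap A B) (fun _ => OnePoint A → OnePoint B) := ⟨fun φ => φ.map⟩

@[simp] theorem PMap.map_infty (φ : PMap A B) : φ ∞ = ∞ := φ.prop.1

theorem PMap.map_opInv (φ : PMap A B) (x : OnePoint A) : φ (opInv x) = opInv (φ x) := φ.prop.2 x

theorem PMap.continuous (φ : PMap A B) : Continuous φ := φ.map.continuous

theorem continuous_opInv : Continuous (opInv : OnePoint A → OnePoint A) := by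
  let e : A ≃ₜ A := ⟨⟨inv, inv, inv_inv, inv_inv⟩, continuous_inv, continuous_inv⟩
  exact e.onePointCongr.continuous

/-- Pointed equivariant homotopy, in terms of functions. -/
def GHtpy (φ ψ : OnePoint A → OnePoint B) : Prop :=
  ∃ H : I × OnePoint A → OnePoint B, Continuous H ∧ (∀ x, H (0, x) = φ x) ∧
    (∀ x, H (1, x) = ψ x) ∧ (∀ t, H (t, ∞) = ∞) ∧ ∀ t x, H (t, opInv x) = opInv (H (t, x))

/-- Pointed homotopy, in terms of functions. -/
def NHtpy (φ ψ : OnePoint A → OnePoint B) : Prop :=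
  ∃ H : I × OnePoint A → OnePoint B, Continuous H ∧ (∀ x, H (0, x) = φ x) ∧
    (∀ x, H (1, x) = ψ x) ∧ (∀ t, H (t, ∞) = ∞)

theorem null_iff (φ : PMap A B) : Null φ ↔ GHtpy φ (fun _ => ∞) := by
  constructor
  · rintro ⟨H⟩
    refine ⟨H, H.continuous, H.apply_zero, fun x => H.apply_one x, fun t => (H.prop t).1,
      fun t x => (H.prop t).2 x⟩
  · rintro ⟨H, hc, h0, h1, hi, he⟩
    exact ⟨⟨⟨⟨H, hc⟩, h0, h1⟩, fun t => ⟨hi t, he t⟩⟩⟩

theorem ghtpy_iff (φ ψ : PMap A B) : GHtpy φ ψ ↔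
    ContinuousMap.HomotopicWith φ.map ψ.map IsPtdEquivariant := by
  constructor
  · rintro ⟨H, hc, h0, h1, hi, he⟩
    exact ⟨⟨⟨⟨H, hc⟩, h0, h1⟩, fun t => ⟨hi t, he t⟩⟩⟩
  · rintro ⟨H⟩
    refine ⟨H, H.continuous, H.apply_zero, fun x => H.apply_one x, fun t => (H.prop t).1,
      fun t x => (H.prop t).2 x⟩

theorem nhtpy_iff (φ ψ : C(OnePoint A, OnePoint B)) : NHtpy φ ψ ↔
    ContinuousMap.HomotopicWith φ ψ (fun g => g ∞ = ∞) := by
  constructor
  · rintro ⟨H, hc, h0, h1, hi⟩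
    exact ⟨⟨⟨⟨H, hc⟩, h0, h1⟩, fun t => hi t⟩⟩
  · rintro ⟨H⟩
    refine ⟨H, H.continuous, H.apply_zero, fun x => H.apply_one x, fun t => H.prop t⟩

theorem GHtpy.trans {φ ψ χ : PMap A B} (h1 : GHtpy φ ψ) (h2 : GHtpy ψ χ) : GHtpy φ χ := by
  rw [ghtpy_iff] at *
  exact h1.trans h2

theorem GHtpy.symm {φ ψ : PMap A B} (h1 : GHtpy φ ψ) : GHtpy ψ φ := by
  rw [ghtpy_iff] at *
  exact h1.symm

theorem NHtpy.trans {φ ψ χ : C(OnePoint A, OnePoint B)} (h1 : NHtpy φ ψ) (h2 : NHtpy ψ χ) :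
    NHtpy φ χ := by
  rw [nhtpy_iff] at *
  exact h1.trans h2

theorem NHtpy.symm {φ ψ : C(OnePoint A, OnePoint B)} (h1 : NHtpy φ ψ) : NHtpy ψ φ := by
  rw [nhtpy_iff] at *
  exact h1.symm

theorem Null.comp_left {φ : PMap A B} (h : Null φ) (ψ : PMap B C) : Null (ψ.comp φ) := by
  rw [null_iff] at *
  obtain ⟨H, hc, h0, h1, hi, he⟩ := h
  refine ⟨fun p => ψ (H p), ψ.continuous.comp hc, fun x => ?_, fun x => ?_, fun t => ?_,
    fun t x => ?_⟩
  · beta_reduce; rw [h0]; rfl
  · beta_reduce; rw [h1, ψ.map_infty]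
  · beta_reduce; rw [hi, ψ.map_infty]
  · beta_reduce; rw [he, ψ.map_opInv]

theorem Null.comp_right {φ : PMap A B} (h : Null φ) (ψ : PMap C A) : Null (φ.comp ψ) := by
  rw [null_iff] at *
  obtain ⟨H, hc, h0, h1, hi, he⟩ := h
  refine ⟨fun p => H (p.1, ψ p.2), hc.comp (continuous_fst.prodMk
    (ψ.continuous.comp continuous_snd)), fun x => ?_, fun x => ?_, fun t => ?_,
    fun t x => ?_⟩
  · dsimp only; rw [h0]; rfl
  · dsimp only; rw [h1]
  · dsimp only; rw [ψ.map_infty, hi]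
  · dsimp only; rw [← he, ψ.map_opInv]

theorem Null.smash_left {φ : PMap A B} (h : Null φ) (ψ : PMap C D) : Null (smash ψ φ) := by
  rw [null_iff] at *
  obtain ⟨H, hc, h0, h1, hi, he⟩ := h
  have key : ∀ (t : I) (x : OnePoint C) (y : OnePoint A),
      smashFun ψ (fun x => H (t, x)) (pair x y) = pair (ψ x) (H (t, y)) := fun t x y =>
    smashFun_pair ψ.map_infty (hi t) x y
  refine ⟨fun p => smashFun ψ (fun x => H (p.1, x)) p.2, ?_, fun x => ?_, fun x => ?_,
    fun t => rfl, fun t x => ?_⟩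
  · rw [(isQuotientMap_pair I).continuous_iff]
    have : (fun p : I × OnePoint (C × A) => smashFun ψ (fun x => H (p.1, x)) p.2) ∘
        (fun p : I × (OnePoint C × OnePoint A) => (p.1, pair p.2.1 p.2.2)) =
        fun p => pair (ψ p.2.1) (H (p.1, p.2.2)) := by
      funext p
      exact key _ _ _
    rw [this]
    refine continuous_pair.comp (Continuous.prodMk ?_ ?_)
    · exact ψ.continuous.comp (continuous_fst.comp continuous_snd)
    · exact hc.comp (continuous_fst.prodMk (continuous_snd.comp continuous_snd))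
  · induction x using OnePoint.rec with
    | infty => rfl
    | coe p =>
      change pair _ (H (0, p.2)) = pair _ _
      rw [h0]
  · induction x using OnePoint.rec with
    | infty => rfl
    | coe p =>
      change pair _ (H (1, p.2)) = ∞
      rw [h1, pair_infty_right]
  · obtain ⟨⟨y, z⟩, rfl⟩ := pair_surjective x
    simp only
    rw [opInv_pair, key, key, ψ.map_opInv, he, opInv_pair]

theorem Null.stablyNull {φ : PMap A B} (h : Null φ) : StablyNull φ := ⟨0, h.smash_left _⟩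

end

end

end Pool.Agent.MP2c15fb
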