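import Pool.Agent.MP_2c15fb_gt.CWproof
import Pool.Agent.MP_2c15fb_gt.Homotopy
import Pool.Agent.MP_2c15fb_gt.CountAn

/-!
# `X` and `Y` are finite equivariant CW complexes
-/

set_option linter.unusedSectionVars false

namespace Pool.Agent.MP2c15fb

open Topology OnePoint unitInterval

noncomputable section

theorem not_bd {d : ℕ} {t : Fin d → I} (h : t ∉ Cube.boundary (Fin d)) (i : Fin d) :
    0 < (t i : ℝ) ∧ (t i : ℝ) < 1 := by
  have h' : ¬ ∃ i, t i = 0 ∨ t i = 1 := h
  push Not at h'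
  have h0 := (t i).2.1
  have h1 := (t i).2.2
  constructor
  · rcases h0.lt_or_eq with h2 | h2
    · exact h2
    · exact absurd (Subtype.ext h2.symm) (h' i).1
  · rcases h1.lt_or_eq with h2 | h2
    · exact h2
    · exact absurd (Subtype.ext h2) (h' i).2

theorem eta_pos {t : I} (h : 0 < (t : ℝ) ∧ (t : ℝ) < 1) :
    ∃ x : ℝ, 0 < x ∧ eta t = (x : OnePoint ℝ) :=
  ⟨(t : ℝ) / (1 - t), div_pos h.1 (by linarith [h.2]), eta_int h.2⟩

theorem gam_fin {t : I} (h : 0 < (t : ℝ) ∧ (t : ℝ) < 1) :
    ∃ x : ℝ, gam t = (x : OnePoint ℝ) := ⟨_, gam_int h⟩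

/-! ### The sphere -/

/-- the plane -/
def qm (p : OnePoint ℝ × OnePoint ℝ) : OnePoint (Triv 2) :=
  OnePoint.map (fun q : ℝ × ℝ => (![q.1, q.2] : Triv 2)) (pair p.1 p.2)

theorem continuous_qm : Continuous qm := by
  have h : (fun q : ℝ × ℝ => (![q.1, q.2] : Triv 2)) = (Homeomorph.finTwoArrow (X := ℝ)).symm := by
    funext q
    rfl
  unfold qm
  rw [h]
  exact (Homeomorph.finTwoArrow (X := ℝ)).symm.onePointCongr.continuous.comp continuous_pair

theorem qm_coe (x y : ℝ) : qm ((x : OnePoint ℝ), (y : OnePoint ℝ)) =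
    ((![x, y] : Triv 2) : OnePoint (Triv 2)) := rfl

theorem qm_left (y : OnePoint ℝ) : qm (∞, y) = ∞ := rfl

theorem qm_right (x : OnePoint ℝ) : qm (x, ∞) = ∞ := by
  unfold qm
  simp

/-- the equator of the sphere -/
def eqY : Set (OnePoint Y) := {x | x = ∞ ∨ ∃ q : Triv 2, x = (((0 : ℝ), q) : Y)}

/-- characteristic map of the equator -/
def chiY2 (t : Fin 2 → I) : OnePoint Y :=
  pair (((0 : ℝ) : RSgn) : OnePoint RSgn) (qm (gam (t 0), gam (t 1)))

/-- characteristic map of the hemisphere -/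
def chiY3 (t : Fin 3 → I) : OnePoint Y :=
  pair (eta (t 0)) (qm (gam (t 1), gam (t 2)))

theorem opInv_pair_zero {B : Type} [TopologicalSpace B] [Invol B] (hB : ∀ b : B, inv b = b)
    (y : OnePoint B) : opInv (pair (((0 : ℝ) : RSgn) : OnePoint RSgn) y) =
      pair (((0 : ℝ) : RSgn) : OnePoint RSgn) y := by
  rw [opInv_pair, opInv_coe]
  have h1 : (inv ((0 : ℝ) : RSgn) : RSgn) = (0 : ℝ) := neg_zero
  have h2 : opInv y = y := by
    induction y using OnePoint.rec with
    | infty => rfl
    | coe b => rw [opInv_coe, hB]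
  rw [h1, h2]

theorem opInv_coe_pair {B : Type} [TopologicalSpace B] [Invol B] (hB : ∀ b : B, inv b = b)
    (x : ℝ) (b : B) : opInv (((x, b) : RSgn × B) : OnePoint (RSgn × B)) =
      (((-x, b) : RSgn × B) : OnePoint (RSgn × B)) := by
  rw [opInv_coe, inv_prod, hB]
  rfl

theorem inv_T2 (b : Triv 2) : inv b = b := rfl

theorem inv_Mb' (b : Mb) : inv b = b := rfl

theorem chiY2_int {t : Fin 2 → I} (ht : t ∉ Cube.boundary (Fin 2)) :
    ∃ x y : ℝ, gam (t 0) = (x : OnePoint ℝ) ∧ gam (t 1) = (y : OnePoint ℝ) ∧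
      chiY2 t = (((0 : ℝ), (![x, y] : Triv 2)) : Y) := by
  obtain ⟨x, hx⟩ := gam_fin (not_bd ht 0)
  obtain ⟨y, hy⟩ := gam_fin (not_bd ht 1)
  refine ⟨x, y, hx, hy, ?_⟩
  rw [chiY2, hx, hy, qm_coe]
  rfl

theorem chiY3_int {t : Fin 3 → I} (ht : t ∉ Cube.boundary (Fin 3)) :
    ∃ s x y : ℝ, 0 < s ∧ eta (t 0) = (s : OnePoint ℝ) ∧ gam (t 1) = (x : OnePoint ℝ) ∧
      gam (t 2) = (y : OnePoint ℝ) ∧ chiY3 t = ((s, (![x, y] : Triv 2)) : Y) := by
  obtain ⟨s, hs0, hs⟩ := eta_pos (not_bd ht 0)
  obtain ⟨x, hx⟩ := gam_fin (not_bd ht 1)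
  obtain ⟨y, hy⟩ := gam_fin (not_bd ht 2)
  refine ⟨s, x, y, hs0, hs, hx, hy, ?_⟩
  rw [chiY3, hs, hx, hy, qm_coe]
  rfl

theorem vec2_inj {x y x' y' : ℝ} (h : (![x, y] : Triv 2) = ![x', y']) : x = x' ∧ y = y' := by
  have h0 := congrFun h 0
  have h1 := congrFun h 1
  simp only [Matrix.cons_val_zero, Matrix.cons_val_one] at h0 h1
  exact ⟨h0, h1⟩

theorem isCell_Y2 : IsCell 2 ({∞} : Set (OnePoint Y)) ⊤ (fun p => chiY2 p.2) := by
  apply isCell_top
  · unfold chiY2
    have h1 := continuous_gam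
    have h2 : Continuous fun t : Fin 2 → I => qm (gam (t 0), gam (t 1)) :=
      continuous_qm.comp ((h1.comp (continuous_apply 0)).prodMk (h1.comp (continuous_apply 1)))
    exact continuous_pair.comp (continuous_const.prodMk h2)
  · intro t
    exact opInv_pair_zero inv_T2 _
  · rintro t ⟨i, hi⟩
    rw [Set.mem_singleton_iff, chiY2]
    have : qm (gam (t 0), gam (t 1)) = ∞ := by
      fin_cases i
      · have := gam_bd hi
        change gam (t 0) = ∞ at this
        rw [this, qm_left]
      · have := gam_bd hi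
        change gam (t 1) = ∞ at this
        rw [this, qm_right]
    rw [this, pair_infty_right]
  · intro t ht
    obtain ⟨x, y, -, -, h⟩ := chiY2_int ht
    rw [Set.mem_singleton_iff, h]
    exact OnePoint.coe_ne_infty _
  · intro t ht t' ht' e
    obtain ⟨x, y, hx, hy, h⟩ := chiY2_int ht
    obtain ⟨x', y', hx', hy', h'⟩ := chiY2_int ht'
    rw [h, h', OnePoint.coe_eq_coe, Prod.mk.injEq] at e
    obtain ⟨e1, e2⟩ := vec2_inj e.2
    have g0 : t 0 = t' 0 := gam_inj (not_bd ht 0) (not_bd ht' 0) (by rw [hx, hx', e1])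
    have g1 : t 1 = t' 1 := gam_inj (not_bd ht 1) (not_bd ht' 1) (by rw [hy, hy', e2])
    funext i
    fin_cases i
    · exact g0
    · exact g1

theorem isFiniteCW_Y : IsFiniteCW Y := by
  have h3 : ∃ χ : Orbit ⊥ × (Fin 3 → I) → OnePoint Y, IsCell 3 eqY ⊥ χ ∧
      (∀ o t, χ (o, t) = chiY3 t ∨ χ (o, t) = opInv (chiY3 t)) ∧
      Set.range χ = Set.range chiY3 ∪ opInv '' Set.range chiY3 := by
    apply isCell_bot
    · unfold chiY3
      have h1 := continuous_gam
      have h0 := continuous_eta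
      have h2 : Continuous fun t : Fin 3 → I => qm (gam (t 1), gam (t 2)) :=
        continuous_qm.comp ((h1.comp (continuous_apply 1)).prodMk (h1.comp (continuous_apply 2)))
      exact continuous_pair.comp ((h0.comp (continuous_apply 0)).prodMk h2)
    · exact continuous_opInv
    · rintro x (rfl | ⟨q, rfl⟩)
      · exact Or.inl rfl
      · right
        refine ⟨q, ?_⟩
        rw [opInv_coe_pair inv_T2]
        simp
    · rintro t ⟨i, hi⟩
      by_cases hinf : qm (gam (t 1), gam (t 2)) = ∞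
      · left
        rw [chiY3, hinf, pair_infty_right]
      · fin_cases i
        · rcases hi with hi | hi
          · right
            obtain ⟨q, hq⟩ := OnePoint.ne_infty_iff_exists.1 hinf
            refine ⟨q, ?_⟩
            change t 0 = 0 at hi
            rw [chiY3, hi, eta_zero, ← hq]
            rfl
          · left
            change t 0 = 1 at hi
            rw [chiY3, hi, eta_one, pair_infty_left]
        · have := gam_bd hi
          change gam (t 1) = ∞ at this
          rw [this, qm_left] at hinf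
          exact absurd rfl hinf
        · have := gam_bd hi
          change gam (t 2) = ∞ at this
          rw [this, qm_right] at hinf
          exact absurd rfl hinf
    · intro t ht
      obtain ⟨s, x, y, hs, -, -, -, h⟩ := chiY3_int ht
      rw [h]
      rintro (h1 | ⟨q, h1⟩)
      · exact OnePoint.coe_ne_infty _ h1
      · rw [OnePoint.coe_eq_coe, Prod.mk.injEq] at h1
        exact hs.ne' h1.1
    · intro t ht t' ht' e
      obtain ⟨s, x, y, hs0, hs, hx, hy, h⟩ := chiY3_int ht
      obtain ⟨s', x', y', hs0', hs', hx', hy', h'⟩ := chiY3_int ht'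
      rw [h, h', OnePoint.coe_eq_coe, Prod.mk.injEq] at e
      obtain ⟨e1, e2⟩ := vec2_inj e.2
      have g0 : t 0 = t' 0 := eta_inj (not_bd ht 0).2 (not_bd ht' 0).2 (by rw [hs, hs', e.1])
      have g1 : t 1 = t' 1 := gam_inj (not_bd ht 1) (not_bd ht' 1) (by rw [hx, hx', e1])
      have g2 : t 2 = t' 2 := gam_inj (not_bd ht 2) (not_bd ht' 2) (by rw [hy, hy', e2])
      funext i
      fin_cases i
      · exact g0
      · exact g1
      · exact g2
    · intro t ht t' ht' e
      obtain ⟨s, x, y, hs0, hs, hx, hy, h⟩ := chiY3_int ht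
      obtain ⟨s', x', y', hs0', hs', hx', hy', h'⟩ := chiY3_int ht'
      rw [h, h', opInv_coe_pair inv_T2, OnePoint.coe_eq_coe, Prod.mk.injEq] at e
      have := e.1
      linarith
  obtain ⟨χ, hχ, -, hrange⟩ := h3
  have r2 : ({∞} : Set (OnePoint Y)) ∪ Set.range (fun p : Orbit ⊤ × (Fin 2 → I) => chiY2 p.2) =
      eqY := by
    ext z
    constructor
    · rintro (rfl | ⟨⟨o, t⟩, rfl⟩)
      · exact Or.inl rfl
      · simp only [chiY2]
        by_cases hinf : qm (gam (t 0), gam (t 1)) = ∞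
        · left
          rw [hinf, pair_infty_right]
        · right
          obtain ⟨q, hq⟩ := OnePoint.ne_infty_iff_exists.1 hinf
          exact ⟨q, by rw [← hq]; rfl⟩
    · rintro (rfl | ⟨q, rfl⟩)
      · exact Or.inl rfl
      · right
        obtain ⟨t0, -, h0⟩ := gam_surj (q 0)
        obtain ⟨t1, -, h1⟩ := gam_surj (q 1)
        refine ⟨(((1 : ℤˣ) : ℤˣ ⧸ (⊤ : Subgroup ℤˣ)), ![t0, t1]), ?_⟩
        simp only [chiY2, Matrix.cons_val_zero, Matrix.cons_val_one]
        rw [h0, h1, qm_coe, pair_coe]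
        congr 2
        funext i
        fin_cases i <;> rfl
  have r3 : eqY ∪ Set.range χ = Set.univ := by
    rw [Set.eq_univ_iff_forall]
    intro z
    rw [hrange]
    have key : ∀ (s : ℝ) (q : Triv 2), 0 ≤ s →
        (((s, q) : Y) : OnePoint Y) ∈ Set.range chiY3 := by
      intro s q hs
      obtain ⟨t, -, ht⟩ := eta_surj hs
      obtain ⟨t0, -, h0⟩ := gam_surj (q 0)
      obtain ⟨t1, -, h1⟩ := gam_surj (q 1)
      refine ⟨![t, t0, t1], ?_⟩
      rw [chiY3]
      change pair (eta t) (qm (gam t0, gam t1)) = _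
      rw [ht, h0, h1, qm_coe, pair_coe]
      congr 2
      funext i
      fin_cases i <;> rfl
    induction z using OnePoint.rec with
    | infty => exact Or.inl (Or.inl rfl)
    | coe p =>
      obtain ⟨s, q⟩ := p
      right
      rcases le_total 0 s with h | h
      · exact Or.inl (key s q h)
      · right
        have h' : (0 : ℝ) ≤ -s := neg_nonneg.2 h
        refine ⟨_, key (-s) q h', ?_⟩
        rw [opInv_coe_pair inv_T2, neg_neg]
  refine ⟨4, fun d => if d ≤ 2 then {∞} else if d = 3 then eqY else Set.univ, rfl, rfl, ?_⟩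
  intro d
  by_cases h1 : d ≤ 1
  · simp only [if_pos (by omega : d ≤ 2), if_pos (by omega : d + 1 ≤ 2)]
    exact attach_none d _
  · by_cases h2 : d = 2
    · subst h2
      have := attach_one isCell_Y2
      rw [r2] at this
      exact this
    · by_cases h3 : d = 3
      · subst h3
        have := attach_one hχ
        rw [r3] at this
        exact this
      · simp only [if_neg (by omega : ¬ d ≤ 2), if_neg (by omega : ¬ d + 1 ≤ 2),
          if_neg (by omega : ¬ d + 1 = 3), if_neg h3]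
        exact attach_none d _

end

end Pool.Agent.MP2c15fb
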