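import Pool.Agent.MP_2c15fb_gt.Spaces

/-! # Extending maps to one-point compactifications -/

set_option linter.unusedSectionVars false

namespace Pool.Agent.MP2c15fb

open Topology OnePoint

noncomputable section

section ext

variable {T A B : Type} [TopologicalSpace T] [TopologicalSpace A] [TopologicalSpace B]

/-- The extension of a partially defined map `g : T × A → B` with domain `U` to a map
`T × OnePoint A → OnePoint B` which is `∞` outside of `U`. -/
def openExt (U : Set (T × A)) (g : T × A → B) (p : T × OnePoint A) : OnePoint B :=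
  p.2.elim ∞ fun a => open Classical in if (p.1, a) ∈ U then (g (p.1, a) : OnePoint B) else ∞

@[simp] theorem openExt_infty (U : Set (T × A)) (g : T × A → B) (t : T) :
    openExt U g (t, ∞) = ∞ := rfl

theorem openExt_coe_of_mem {U : Set (T × A)} {g : T × A → B} {t : T} {a : A} (h : (t, a) ∈ U) :
    openExt U g (t, (a : OnePoint A)) = g (t, a) := by
  simp [openExt, h]

theorem openExt_coe_of_notMem {U : Set (T × A)} {g : T × A → B} {t : T} {a : A}
    (h : (t, a) ∉ U) : openExt U g (t, (a : OnePoint A)) = ∞ := by
  simp [openExt, h]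

theorem isOpenEmbedding_idCoe :
    IsOpenEmbedding (fun p : T × A => ((p.1, (p.2 : OnePoint A)) : T × OnePoint A)) :=
  IsOpenEmbedding.id.prodMap OnePoint.isOpenEmbedding_coe

theorem continuous_openExt [T2Space T] [T2Space A] [T2Space B] [LocallyCompactSpace A]
    (U : Set (T × A)) (g : T × A → B) (hU : IsOpen U) (hg : ContinuousOn g U)
    (hK : ∀ C : Set B, IsCompact C → ∃ K ⊆ U, IsCompact K ∧ ∀ p ∈ U, g p ∈ C → p ∈ K) :
    Continuous (openExt U g) := by
  rw [continuous_def]
  intro V hV
  by_cases h : (∞ : OnePoint B) ∈ V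
  · have hc : IsCompact (((↑) : B → OnePoint B) ⁻¹' Vᶜ) := ((OnePoint.isOpen_iff_of_mem h).1 hV).2
    obtain ⟨K, hKU, hKc, hK'⟩ := hK _ hc
    have hcomp : IsCompact (K ∩ g ⁻¹' (((↑) : B → OnePoint B) ⁻¹' Vᶜ)) := by
      have : IsClosed (K ∩ g ⁻¹' (((↑) : B → OnePoint B) ⁻¹' Vᶜ)) :=
        (hg.mono hKU).preimage_isClosed_of_isClosed hKc.isClosed hc.isClosed
      exact hKc.of_isClosed_subset this Set.inter_subset_left
    have himg : (openExt U g ⁻¹' V)ᶜ = (fun p : T × A => ((p.1, (p.2 : OnePoint A)) :
        T × OnePoint A)) '' (K ∩ g ⁻¹' (((↑) : B → OnePoint B) ⁻¹' Vᶜ)) := by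
      ext ⟨t, x⟩
      constructor
      · intro hx
        induction x using OnePoint.rec with
        | infty => exact absurd h (by simpa using hx)
        | coe a =>
          by_cases ha : (t, a) ∈ U
          · have hx' : (g (t, a) : OnePoint B) ∈ Vᶜ := by
              simpa [openExt_coe_of_mem ha] using hx
            exact ⟨(t, a), ⟨hK' _ ha hx', hx'⟩, rfl⟩
          · exact absurd h (by simpa [openExt_coe_of_notMem ha] using hx)
      · rintro ⟨⟨t', a⟩, ⟨hab, hg'⟩, he⟩
        simp only [Prod.mk.injEq] at he
        obtain ⟨rfl, rfl⟩ := he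
        have := openExt_coe_of_mem (g := g) (hKU hab)
        simp only [Set.mem_compl_iff, Set.mem_preimage, this]
        exact hg'
    rw [← isClosed_compl_iff, himg]
    apply IsCompact.isClosed
    apply hcomp.image
    exact isOpenEmbedding_idCoe.continuous
  · have himg : openExt U g ⁻¹' V = (fun p : T × A => ((p.1, (p.2 : OnePoint A)) :
        T × OnePoint A)) '' (U ∩ g ⁻¹' (((↑) : B → OnePoint B) ⁻¹' V)) := by
      ext ⟨t, x⟩
      constructor
      · intro hx
        induction x using OnePoint.rec with
        | infty => exact absurd (by simpa using hx) h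
        | coe a =>
          by_cases ha : (t, a) ∈ U
          · have hx' : (g (t, a) : OnePoint B) ∈ V := by
              simpa [openExt_coe_of_mem ha] using hx
            exact ⟨(t, a), ⟨ha, hx'⟩, rfl⟩
          · exact absurd (by simpa [openExt_coe_of_notMem ha] using hx) h
      · rintro ⟨⟨t', a⟩, ⟨hab, hg'⟩, he⟩
        simp only [Prod.mk.injEq] at he
        obtain ⟨rfl, rfl⟩ := he
        simp only [Set.mem_preimage, openExt_coe_of_mem hab]
        exact hg'
    rw [himg]
    apply isOpenEmbedding_idCoe.isOpenMap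
    exact hg.isOpen_inter_preimage hU (hV.preimage OnePoint.continuous_coe)

/-- The version without parameters. -/
def openExt' (U : Set A) (g : A → B) (x : OnePoint A) : OnePoint B :=
  x.elim ∞ fun a => open Classical in if a ∈ U then (g a : OnePoint B) else ∞

@[simp] theorem openExt'_infty (U : Set A) (g : A → B) :
    openExt' U g ∞ = ∞ := rfl

theorem openExt'_coe_of_mem {U : Set A} {g : A → B} {a : A} (h : a ∈ U) :
    openExt' U g (a : OnePoint A) = g a := by
  simp [openExt', h]

theorem openExt'_coe_of_notMem {U : Set A} {g : A → B} {a : A}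
    (h : a ∉ U) : openExt' U g (a : OnePoint A) = ∞ := by
  simp [openExt', h]

theorem continuous_openExt' [T2Space A] [T2Space B] [LocallyCompactSpace A]
    (U : Set A) (g : A → B) (hU : IsOpen U) (hg : ContinuousOn g U)
    (hK : ∀ C : Set B, IsCompact C → ∃ K ⊆ U, IsCompact K ∧ ∀ p ∈ U, g p ∈ C → p ∈ K) :
    Continuous (openExt' U g) := by
  have h1 : Continuous (openExt (T := Unit) (Prod.snd ⁻¹' U) (fun p => g p.2)) := by
    apply continuous_openExt
    · exact hU.preimage continuous_snd
    · exact hg.comp continuous_snd.continuousOn (fun p hp => hp)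
    · intro C hC
      obtain ⟨K, h1, h2, h3⟩ := hK C hC
      exact ⟨Set.univ ×ˢ K, fun p hp => h1 hp.2, isCompact_univ.prod h2,
        fun p hp hp' => ⟨trivial, h3 _ hp hp'⟩⟩
  exact h1.comp (Continuous.prodMk_right ())

/-- A family of maps with a continuous family of left inverses extends continuously. -/
theorem continuous_famExt [CompactSpace T] [T2Space T] [T2Space A] [T2Space B]
    [LocallyCompactSpace A]
    (Φ : T × A → B) (Ψ : T × B → A) (hΦ : Continuous Φ) (hΨ : Continuous Ψ)
    (h : ∀ t a, Ψ (t, Φ (t, a)) = a) :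
    Continuous (fun p : T × OnePoint A => OnePoint.map (fun a => Φ (p.1, a)) p.2) := by
  have h1 : Continuous (openExt Set.univ Φ) := by
    apply continuous_openExt _ _ isOpen_univ hΦ.continuousOn
    intro C hC
    refine ⟨(fun p : T × B => (p.1, Ψ p)) '' (Set.univ ×ˢ C), Set.subset_univ _, ?_, ?_⟩
    · apply (isCompact_univ.prod hC).image
      exact continuous_fst.prodMk hΨ
    · rintro ⟨t, a⟩ - hp
      exact ⟨(t, Φ (t, a)), ⟨trivial, hp⟩, by simp [h]⟩
  convert h1 using 1
  funext ⟨t, x⟩
  induction x using OnePoint.rec with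
  | infty => rfl
  | coe a => simp [openExt_coe_of_mem (Set.mem_univ _)]

end ext

end

end Pool.Agent.MP2c15fb
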