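import Pool.Agent.MP_2c15fb_gt.Vanish

/-!
# Vanishing of `f` on homotopy groups, continued
-/

set_option linter.unusedSectionVars false

namespace Pool.Agent.MP2c15fb

open Topology OnePoint unitInterval Filter

noncomputable section

/-- the target -/
abbrev Lt (n j : ℕ) : Type := CSgn 1 × (V n × (Triv j × Y))

/-- the path from the inversion to the conjugation -/
def pP (n j : ℕ) (p : I × Lt n j) : Lt n j :=
  (fun i => ((-(Real.cos (Real.pi * p.1) * (p.2.1 i).re -
      Real.sin (Real.pi * p.1) * p.2.2.2.2.1) : ℝ) : ℂ) + ((-(p.2.1 i).im : ℝ) : ℂ) * Complex.I,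
    ((p.2.2.1.1, fun i => -(cx p.1 * p.2.2.1.2 i)), (p.2.2.2.1,
      (-(Real.sin (Real.pi * p.1) * (p.2.1 0).re + Real.cos (Real.pi * p.1) * p.2.2.2.2.1),
        p.2.2.2.2.2))))

/-- the inverse path -/
def pP' (n j : ℕ) (p : I × Lt n j) : Lt n j :=
  (fun i => ((-(Real.cos (Real.pi * p.1) * (p.2.1 i).re +
      Real.sin (Real.pi * p.1) * p.2.2.2.2.1) : ℝ) : ℂ) + ((-(p.2.1 i).im : ℝ) : ℂ) * Complex.I,
    ((p.2.2.1.1, fun i => -(cx (-p.1) * p.2.2.1.2 i)), (p.2.2.2.1,
      ((Real.sin (Real.pi * p.1) * (p.2.1 0).re - Real.cos (Real.pi * p.1) * p.2.2.2.2.1),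
        p.2.2.2.2.2))))

theorem ghtpy_inv_conj (n j : ℕ) :
    GHtpy (invMap (Lt n j)) (smash conjMap (PMap.id (V n × (Triv j × Y)))) := by
  have hc := continuous_cx
  apply ghtpy_fam (pP n j) (pP' n j)
  · unfold pP
    fun_prop
  · unfold pP'
    fun_prop
  · rintro t ⟨b, ⟨x, y⟩, s, z, q⟩
    have hcs := Real.sin_sq_add_cos_sq (Real.pi * t)
    refine Prod.ext ?_ (Prod.ext (Prod.ext rfl ?_) (Prod.ext rfl (Prod.ext ?_ rfl)))
    · funext i
      obtain rfl := Subsingleton.elim i 0
      apply Complex.ext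
      · simp only [pP, pP', Complex.add_re, Complex.ofReal_re, Complex.mul_re, Complex.I_re,
          Complex.I_im, Complex.ofReal_im]
        linear_combination (b 0).re * hcs
      · simp only [pP, pP', Complex.add_im, Complex.ofReal_re, Complex.mul_im, Complex.I_re,
          Complex.I_im, Complex.ofReal_im]
        ring
    · funext i
      simp only [pP, pP', mul_neg, neg_neg, ← mul_assoc, cx_neg_mul, one_mul]
    · simp only [pP, pP', Complex.add_re, Complex.ofReal_re, Complex.mul_re, Complex.I_re,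
          Complex.I_im, Complex.ofReal_im]
      linear_combination z * hcs
  · rintro ⟨b, ⟨x, y⟩, s, z, q⟩
    change ((inv (b, ((x, y), (s, (z, q)))) : Lt n j) : OnePoint (Lt n j)) = _
    rw [OnePoint.coe_eq_coe]
    refine Prod.ext ?_ (Prod.ext (Prod.ext rfl ?_) (Prod.ext rfl (Prod.ext ?_ rfl)))
    · funext i
      obtain rfl := Subsingleton.elim i 0
      apply Complex.ext <;> simp [pP]
    · funext i
      simp [pP, cx_zero]
    · simp [pP]
  · rintro ⟨b, ⟨x, y⟩, s, z, q⟩
    change (((fun i => (starRingEnd ℂ) (b i), ((x, y), (s, (z, q)))) : Lt n j) :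
      OnePoint (Lt n j)) = _
    rw [OnePoint.coe_eq_coe]
    refine Prod.ext ?_ (Prod.ext (Prod.ext rfl ?_) (Prod.ext rfl (Prod.ext ?_ rfl)))
    · funext i
      obtain rfl := Subsingleton.elim i 0
      apply Complex.ext <;> simp [pP]
    · funext i
      simp [pP, cx_one]
    · simp [pP]
  · rintro t ⟨b, ⟨x, y⟩, s, z, q⟩
    refine Prod.ext ?_ (Prod.ext (Prod.ext rfl ?_) (Prod.ext rfl (Prod.ext ?_ rfl)))
    · funext i
      obtain rfl := Subsingleton.elim i 0
      apply Complex.ext
      · simp only [pP, inv_prod, inv_CSgn, inv_RSgn, Pi.neg_apply, Complex.neg_re, Complex.add_re,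
          Complex.ofReal_re, Complex.mul_re, Complex.I_re, Complex.I_im, Complex.ofReal_im]
        ring
      · simp only [pP, inv_prod, inv_CSgn, inv_RSgn, Pi.neg_apply, Complex.neg_im, Complex.add_im,
          Complex.ofReal_re, Complex.mul_im, Complex.I_re, Complex.I_im, Complex.ofReal_im]
        ring
    · funext i
      simp [pP]
    · simp [pP]
      ring

section triv

variable {A : Type} [TopologicalSpace A] [T2Space A] [LocallyCompactSpace A] [Invol A]

theorem ghtpy_triv (n j : ℕ) (hA : ∀ a : A, inv a = a)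
    (v : PMap (V n × A) (V n × (Triv j × Y))) : GHtpy (Upos v) (Uneg v) := by
  have h1 : GHtpy ((Upos v).comp (PMap.id _)) ((Upos v).comp (invMap _)) :=
    (ghtpy_id_inv n hA).comp_left _
  have h2 : GHtpy ((invMap _).comp (Upos v)) ((smash conjMap (PMap.id _)).comp (Upos v)) :=
    (ghtpy_inv_conj n j).comp_right _
  have e1 : (Upos v).comp (PMap.id _) = Upos v := PMap.ext' fun x => rfl
  have e2 : (Upos v).comp (invMap _) = (invMap _).comp (Upos v) := PMap.ext' fun x =>
    (Upos v).map_opInv x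
  have e3 : (smash conjMap (PMap.id _)).comp (Upos v) = Uneg v := PMap.ext' fun x => by
    obtain ⟨⟨y, z⟩, rfl⟩ := pair_surjective x
    change smashFun conjMap (PMap.id _) (smashFun (PMap.id _) v (pair y z)) =
      smashFun conjMap v (pair y z)
    rw [smashFun_pair (PMap.map_infty _) v.map_infty, smashFun_pair (PMap.map_infty _)
      (PMap.map_infty _), smashFun_pair (PMap.map_infty _) v.map_infty]
    rfl
  rw [e1] at h1
  rw [e3, ← e2] at h2
  exact h1.trans h2

end triv

/-! ## The free case -/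

/-- the reflection `q₁ ↦ -q₁` of `Triv 2` -/
def lamHomeo (n j : ℕ) : (V n × (Triv j × Y)) ≃ₜ (V n × (Triv j × Y)) where
  toFun p := (p.1, (p.2.1, (p.2.2.1, ![p.2.2.2 0, - p.2.2.2 1])))
  invFun p := (p.1, (p.2.1, (p.2.2.1, ![p.2.2.2 0, - p.2.2.2 1])))
  left_inv p := by
    refine Prod.ext rfl (Prod.ext rfl (Prod.ext rfl ?_))
    funext i
    fin_cases i <;> simp
  right_inv p := by
    refine Prod.ext rfl (Prod.ext rfl (Prod.ext rfl ?_))
    funext i
    fin_cases i <;> simp
  continuous_toFun := by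
    refine Continuous.prodMk (by fun_prop) (Continuous.prodMk (by fun_prop)
      (Continuous.prodMk (by fun_prop) ?_))
    refine continuous_pi fun i => ?_
    fin_cases i
    · exact (show Continuous fun p : V n × (Triv j × Y) => p.2.2.2 0 by fun_prop)
    · exact (show Continuous fun p : V n × (Triv j × Y) => -p.2.2.2 1 by fun_prop)
  continuous_invFun := by
    refine Continuous.prodMk (by fun_prop) (Continuous.prodMk (by fun_prop)
      (Continuous.prodMk (by fun_prop) ?_))
    refine continuous_pi fun i => ?_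
    fin_cases i
    · exact (show Continuous fun p : V n × (Triv j × Y) => p.2.2.2 0 by fun_prop)
    · exact (show Continuous fun p : V n × (Triv j × Y) => -p.2.2.2 1 by fun_prop)

/-- the reflection as a map -/
def lamMap' (n j : ℕ) : PMap (V n × (Triv j × Y)) (V n × (Triv j × Y)) :=
  PMap.ofHomeo (lamHomeo n j) (fun _ => rfl)

/-- the reflection as a map -/
def lamMap (n j : ℕ) : PMap (Lt n j) (Lt n j) := smash (PMap.id (CSgn 1)) (lamMap' n j)

/-- the rotation in the plane of `b₂` and `q₁` -/
def pR (n j : ℕ) (p : I × Lt n j) : Lt n j :=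
  (fun i => (((p.2.1 i).re : ℝ) : ℂ) + ((-(Real.cos (Real.pi * p.1) * (p.2.1 i).im) +
    Real.sin (Real.pi * p.1) * p.2.2.2.2.2 1 : ℝ) : ℂ) * Complex.I,
    (p.2.2.1, (p.2.2.2.1, (p.2.2.2.2.1, ![p.2.2.2.2.2 0,
      Real.sin (Real.pi * p.1) * (p.2.1 0).im + Real.cos (Real.pi * p.1) * p.2.2.2.2.2 1]))))

theorem continuous_pR (n j : ℕ) : Continuous (pR n j) := by
  unfold pR
  refine Continuous.prodMk (by fun_prop) (Continuous.prodMk (by fun_prop)
      (Continuous.prodMk (by fun_prop) (Continuous.prodMk (by fun_prop) ?_)))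
  refine continuous_pi fun i => ?_
  fin_cases i
  · exact (show Continuous fun p : I × Lt n j => p.2.2.2.2.2 0 by fun_prop)
  · exact (show Continuous fun p : I × Lt n j => Real.sin (Real.pi * p.1) * (p.2.1 0).im +
      Real.cos (Real.pi * p.1) * p.2.2.2.2.2 1 by fun_prop)

theorem nhtpy_conj_lam (n j : ℕ) :
    NHtpy (smash conjMap (PMap.id (V n × (Triv j × Y)))) (lamMap n j) := by
  apply nhtpy_fam (pR n j) (pR n j) (continuous_pR n j) (continuous_pR n j)
  · rintro t ⟨b, w, s, z, q⟩
    have hcs := Real.sin_sq_add_cos_sq (Real.pi * t)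
    refine Prod.ext ?_ (Prod.ext rfl (Prod.ext rfl (Prod.ext rfl ?_)))
    · funext i
      obtain rfl := Subsingleton.elim i 0
      apply Complex.ext
      · simp only [pR, Complex.add_re, Complex.ofReal_re, Complex.mul_re, Complex.I_re,
          Complex.I_im, Complex.ofReal_im]
        ring
      · simp only [pR, Complex.add_im, Complex.ofReal_re, Complex.mul_im, Complex.I_re,
          Complex.I_im, Complex.ofReal_im, Matrix.cons_val_one, Matrix.cons_val_zero]
        linear_combination (b 0).im * hcs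
    · funext i
      fin_cases i
      · rfl
      · simp only [pR, Complex.add_im, Complex.ofReal_re, Complex.mul_im, Complex.I_re,
          Complex.I_im, Complex.ofReal_im, Fin.mk_one, Matrix.cons_val_one, Matrix.cons_val_zero]
        linear_combination (q 1) * hcs
  · rintro ⟨b, w, s, z, q⟩
    change (((fun i => (starRingEnd ℂ) (b i), (w, (s, (z, q)))) : Lt n j) :
      OnePoint (Lt n j)) = _
    rw [OnePoint.coe_eq_coe]
    refine Prod.ext ?_ (Prod.ext rfl (Prod.ext rfl (Prod.ext rfl ?_)))
    · funext i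
      obtain rfl := Subsingleton.elim i 0
      apply Complex.ext <;> simp [pR]
    · funext i
      fin_cases i <;> simp [pR]
  · rintro ⟨b, w, s, z, q⟩
    change (((b, (w, (s, (z, ![q 0, - q 1])))) : Lt n j) : OnePoint (Lt n j)) = _
    rw [OnePoint.coe_eq_coe]
    refine Prod.ext ?_ (Prod.ext rfl (Prod.ext rfl (Prod.ext rfl ?_)))
    · funext i
      obtain rfl := Subsingleton.elim i 0
      apply Complex.ext <;> simp [pR]
    · funext i
      fin_cases i <;> simp [pR]

/-- multiplication by a unit complex number on the Möbius band -/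
def mulMb (c : ℂ) (hc : ‖c‖ = 1) (m : Mb) : Mb :=
  ⟨(c ^ 2 * m.1.1, c * m.1.2), by
    constructor
    · simp [hc, m.2.1]
    · simp only [norm_mul, hc, one_mul, mul_pow, m.2.2]
      ring⟩

theorem norm_cx (t : ℝ) : ‖cx t‖ = 1 := by
  have : cx t = Complex.exp ((Real.pi * t : ℝ) * Complex.I) := by
    unfold cx
    push_cast
    rfl
  rw [this, Complex.norm_exp_ofReal_mul_I]

/-- rotation of the Möbius band in the source of `f` -/
def rM (n j : ℕ) (p : I × (V n × (Triv j × X))) : V n × (Triv j × X) :=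
  (p.2.1, (p.2.2.1, (p.2.2.2.1, mulMb (cx p.1) (norm_cx _) p.2.2.2.2)))

/-- rotation of the Möbius band in the source of `f`, inverse -/
def rM' (n j : ℕ) (p : I × (V n × (Triv j × X))) : V n × (Triv j × X) :=
  (p.2.1, (p.2.2.1, (p.2.2.2.1, mulMb (cx (-p.1)) (norm_cx _) p.2.2.2.2)))

theorem nhtpy_rM (n j : ℕ) : ∃ H : I × OnePoint (V n × (Triv j × X)) →
    OnePoint (V n × (Triv j × X)), Continuous H ∧ (∀ x, H (0, x) = x) ∧
    (∀ x, (idp₀ n j) (H (1, x)) = lamMap' n j ((idp₀ n j) x)) ∧
    (∀ t, H (t, ∞) = ∞) := by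
  have hc := continuous_cx
  refine ⟨_, continuous_famExt (rM n j) (rM' n j) ?_ ?_ ?_, fun x => ?_, fun x => ?_,
    fun t => rfl⟩
  · unfold rM mulMb
    refine Continuous.prodMk (by fun_prop) (Continuous.prodMk (by fun_prop)
      (Continuous.prodMk (by fun_prop) (Continuous.subtype_mk ?_ _)))
    fun_prop
  · unfold rM' mulMb
    refine Continuous.prodMk (by fun_prop) (Continuous.prodMk (by fun_prop)
      (Continuous.prodMk (by fun_prop) (Continuous.subtype_mk ?_ _)))
    fun_prop
  · rintro t ⟨w, s, z, m⟩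
    refine Prod.ext rfl (Prod.ext rfl (Prod.ext rfl (Subtype.ext (Prod.ext ?_ ?_))))
    · simp only [rM, rM', mulMb]
      rw [← mul_assoc, ← mul_pow, cx_neg_mul, one_pow, one_mul]
    · simp only [rM, rM', mulMb]
      rw [← mul_assoc, cx_neg_mul, one_mul]
  · induction x using OnePoint.rec with
    | infty => rfl
    | coe p =>
      obtain ⟨w, s, z, m⟩ := p
      change ((rM n j (0, (w, (s, (z, m)))) : _) : OnePoint (V n × (Triv j × X))) = _
      rw [OnePoint.coe_eq_coe]
      refine Prod.ext rfl (Prod.ext rfl (Prod.ext rfl (Subtype.ext (Prod.ext ?_ ?_))))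
      · simp [rM, mulMb, cx_zero]
      · simp [rM, mulMb, cx_zero]
  · induction x using OnePoint.rec with
    | infty => rfl
    | coe p =>
      obtain ⟨w, s, z, m⟩ := p
      change pair (OnePoint.some w) (pair (OnePoint.some s) (pair (OnePoint.some z)
        (openExt' p₀dom p₀fun (OnePoint.some (mulMb (cx (1 : I)) (norm_cx _) m))))) =
        OnePoint.map (lamHomeo n j) (pair (OnePoint.some w) (pair (OnePoint.some s) (pair
        (OnePoint.some z) (openExt' p₀dom p₀fun (OnePoint.some m)))))
      have hom : omr (mulMb (cx (1 : I)) (norm_cx _) m) = omr m := by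
        simp [omr, mulMb, cx_one]
      by_cases hm : m ∈ p₀dom
      · have hm' : mulMb (cx (1 : I)) (norm_cx _) m ∈ p₀dom := by
          change 0 < omr (mulMb (cx (1 : I)) (norm_cx _) m)
          rw [hom]
          exact hm
        rw [openExt'_coe_of_mem hm, openExt'_coe_of_mem hm']
        simp only [pair_coe, OnePoint.map_some]
        rw [OnePoint.coe_eq_coe]
        refine Prod.ext rfl (Prod.ext rfl (Prod.ext rfl ?_))
        funext i
        fin_cases i
        · simp only [p₀fun, hom]
          simp [mulMb, cx_one]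
          rfl
        · simp only [p₀fun, hom]
          simp [mulMb, cx_one, neg_div]
          rfl
      · have hm' : mulMb (cx (1 : I)) (norm_cx _) m ∉ p₀dom := by
          change ¬ (0 < omr (mulMb (cx (1 : I)) (norm_cx _) m))
          rw [hom]
          exact hm
        rw [openExt'_coe_of_notMem hm, openExt'_coe_of_notMem hm']
        simp

section free

variable {A : Type} [TopologicalSpace A] [T2Space A] [LocallyCompactSpace A] [Invol A]

theorem ghtpy_free (n j : ℕ) (s : A → Bool) (hs : Continuous s) (hinv : ∀ a, s (inv a) = !(s a))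
    (u : PMap (V n × A) (V n × (Triv j × X))) :
    GHtpy (Upos ((idp₀ n j).comp u)) (Uneg ((idp₀ n j).comp u)) := by
  have hv : NHtpy ((idp₀ n j).comp u) ((lamMap' n j).comp ((idp₀ n j).comp u)) := by
    obtain ⟨H, hc, h0, h1, hi⟩ := nhtpy_rM n j
    refine ⟨fun p => idp₀ n j (H (p.1, u p.2)), (idp₀ n j).continuous.comp
      (hc.comp (continuous_fst.prodMk (u.continuous.comp continuous_snd))), fun x => ?_,
      fun x => ?_, fun t => ?_⟩
    · dsimp only; rw [h0]; rfl
    · dsimp only; rw [h1]; rfl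
    · dsimp only; rw [u.map_infty, hi, PMap.map_infty]
  generalize (idp₀ n j).comp u = v at hv
  have h1 : NHtpy (Upos v) (Upos ((lamMap' n j).comp v)) := hv.smash_left _
  have h2 : NHtpy ((smash conjMap (PMap.id _)).comp (Upos v)) ((lamMap n j).comp (Upos v)) :=
    (nhtpy_conj_lam n j).comp_right _
  have e1 : (lamMap n j).comp (Upos v) = Upos ((lamMap' n j).comp v) := PMap.ext' fun x => by
    obtain ⟨⟨y, z⟩, rfl⟩ := pair_surjective x
    change smashFun (PMap.id _) (lamMap' n j) (smashFun (PMap.id _) v (pair y z)) =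
      smashFun (PMap.id _) ((lamMap' n j).comp v) (pair y z)
    rw [smashFun_pair (PMap.map_infty _) v.map_infty, smashFun_pair (PMap.map_infty _)
      (PMap.map_infty _), smashFun_pair (PMap.map_infty _) (PMap.map_infty _)]
    rfl
  have e3 : (smash conjMap (PMap.id _)).comp (Upos v) = Uneg v := PMap.ext' fun x => by
    obtain ⟨⟨y, z⟩, rfl⟩ := pair_surjective x
    change smashFun conjMap (PMap.id _) (smashFun (PMap.id _) v (pair y z)) =
      smashFun conjMap v (pair y z)
    rw [smashFun_pair (PMap.map_infty _) v.map_infty, smashFun_pair (PMap.map_infty _)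
      (PMap.map_infty _), smashFun_pair (PMap.map_infty _) v.map_infty]
    rfl
  rw [e1, e3] at h2
  apply ghtpy_of_nhtpy (h1.trans h2.symm) (fun p => s p.2.2) (by fun_prop)
  intro a
  exact hinv a.2.2

end free

theorem orbit_cases (H : Subgroup ℤˣ) : (∀ o : Orbit H, inv o = o) ∨
    ∃ s : Orbit H → Bool, ∀ o, s (inv o) = !(s o) := by
  classical
  by_cases h : (-1 : ℤˣ) ∈ H
  · left
    intro o
    change ((-1 : ℤˣ) • (show ℤˣ ⧸ H from o) : ℤˣ ⧸ H) = o
    obtain ⟨g, rfl⟩ := QuotientGroup.mk_surjective (s := H) (show ℤˣ ⧸ H from o)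
    change ((((-1 : ℤˣ) • g : ℤˣ)) : ℤˣ ⧸ H) = (g : ℤˣ ⧸ H)
    rw [eq_comm, QuotientGroup.eq, smul_eq_mul, mul_comm, mul_assoc, mul_inv_cancel, mul_one]
    exact h
  · right
    refine ⟨fun o => decide ((show ℤˣ ⧸ H from o) = ((1 : ℤˣ) : ℤˣ ⧸ H)), fun o => ?_⟩
    obtain ⟨g, rfl⟩ := QuotientGroup.mk_surjective (s := H) (show ℤˣ ⧸ H from o)
    change decide (((((-1 : ℤˣ) • g : ℤˣ)) : ℤˣ ⧸ H) = ((1 : ℤˣ) : ℤˣ ⧸ H)) =
      !decide (((g : ℤˣ) : ℤˣ ⧸ H) = ((1 : ℤˣ) : ℤˣ ⧸ H))
    rw [← decide_not, decide_eq_decide, eq_comm, QuotientGroup.eq, eq_comm, QuotientGroup.eq]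
    rcases Int.units_eq_one_or g with rfl | rfl
    · simp [h, H.one_mem]
    · simp [h, H.one_mem]

/-- All homotopy groups: the map `f` induces zero. -/
theorem vanish (H : Subgroup ℤˣ) (i j n : ℕ)
    (u : PMap (V n × (Triv i × Orbit H)) (V n × (Triv j × X))) :
    StablyNull (stableComp f u) := by
  apply Null.stablyNull
  apply null_of_ghtpy
  rcases orbit_cases H with h | ⟨s, hs⟩
  · exact ghtpy_triv n j (fun a => Prod.ext rfl (h a.2)) _
  · have hc : Continuous (fun a : Triv i × Orbit H => s a.2) :=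
      (continuous_of_discreteTopology (f := s)).comp continuous_snd
    exact ghtpy_free n j (fun a => s a.2) hc (fun a => hs a.2) u

end

end Pool.Agent.MP2c15fb
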