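import Pool.Agent.MP_2c15fb_gt.LabelFun
import Pool.Agent.MP_2c15fb_gt.Vanish2

/-!
# Labels of the points of the target and coordinates of the source
-/

set_option linter.unusedSectionVars false

namespace Pool.Agent.MP2c15fb

open Lab Topology Filter OnePoint unitInterval

noncomputable section

/-- the source -/
abbrev Zs (n : ℕ) : Type := V n × (V 1 × X)

/-- the target -/
abbrev Zt (n : ℕ) : Type := V n × (V 1 × Y)

/-- the trivial coordinates of a point of the target -/
def tco {n : ℕ} (z : Zt n) : Fin (n + 3) → ℝ :=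
  Matrix.vecCons (z.2.1.1 0) (Matrix.vecCons (z.2.2.2 0) (Matrix.vecCons (z.2.2.2 1) z.1.1))

/-- the sign coordinates of a point of the target -/
def yco {n : ℕ} (z : Zt n) : Fin (n + n + 3) → ℝ :=
  Matrix.vecCons (z.2.1.2 0).im (Matrix.vecCons (z.2.1.2 0).re (Matrix.vecCons z.2.2.1
    (Fin.append (fun k => (z.1.2 k).re) (fun k => (z.1.2 k).im))))

theorem tco_0 {n : ℕ} (z : Zt n) : tco z 0 = z.2.1.1 0 := rfl
theorem tco_1 {n : ℕ} (z : Zt n) : tco z (Fin.succ 0) = z.2.2.2 0 := rfl
theorem tco_2 {n : ℕ} (z : Zt n) : tco z (Fin.succ (Fin.succ 0)) = z.2.2.2 1 := rfl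
theorem tco_3 {n : ℕ} (z : Zt n) (k : Fin n) : tco z k.succ.succ.succ = z.1.1 k := rfl
theorem yco_0 {n : ℕ} (z : Zt n) : yco z 0 = (z.2.1.2 0).im := rfl
theorem yco_1 {n : ℕ} (z : Zt n) : yco z (Fin.succ 0) = (z.2.1.2 0).re := rfl
theorem yco_2 {n : ℕ} (z : Zt n) : yco z (Fin.succ (Fin.succ 0)) = z.2.2.1 := rfl
theorem yco_3 {n : ℕ} (z : Zt n) (k : Fin (n + n)) : yco z k.succ.succ.succ =
    Fin.append (fun k => (z.1.2 k).re) (fun k => (z.1.2 k).im) k := rfl
theorem yco_3l {n : ℕ} (z : Zt n) (k : Fin n) : yco z (Fin.castAdd n k).succ.succ.succ =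
    (z.1.2 k).re := by
  rw [yco_3, Fin.append_left]
theorem yco_3r {n : ℕ} (z : Zt n) (k : Fin n) : yco z (Fin.natAdd n k).succ.succ.succ =
    (z.1.2 k).im := by
  rw [yco_3, Fin.append_right]

/-- case distinction for the trivial coordinates -/
theorem casesT {n : ℕ} {p : Fin (n + 3) → Prop} (h0 : p 0) (h1 : p (Fin.succ 0))
    (h2 : p (Fin.succ (Fin.succ 0))) (h3 : ∀ k : Fin n, p k.succ.succ.succ) (t : Fin (n + 3)) :
    p t := by
  induction t using Fin.cases with
  | zero => exact h0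
  | succ t =>
    induction t using Fin.cases with
    | zero => exact h1
    | succ t =>
      induction t using Fin.cases with
      | zero => exact h2
      | succ t => exact h3 t

/-- case distinction for the sign coordinates -/
theorem casesY {n : ℕ} {p : Fin (n + n + 3) → Prop} (h0 : p 0) (h1 : p (Fin.succ 0))
    (h2 : p (Fin.succ (Fin.succ 0))) (h3 : ∀ k : Fin n, p (Fin.castAdd n k).succ.succ.succ)
    (h4 : ∀ k : Fin n, p (Fin.natAdd n k).succ.succ.succ) (t : Fin (n + n + 3)) :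
    p t := by
  induction t using Fin.cases with
  | zero => exact h0
  | succ t =>
    induction t using Fin.cases with
    | zero => exact h1
    | succ t =>
      induction t using Fin.cases with
      | zero => exact h2
      | succ t =>
        induction t using Fin.addCases with
        | left t => exact h3 t
        | right t => exact h4 t

theorem continuous_tco {n : ℕ} (t : Fin (n + 3)) : Continuous fun z : Zt n => tco z t := by
  refine casesT (p := fun t => Continuous fun z : Zt n => tco z t) ?_ ?_ ?_ ?_ t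
  · simp only [tco_0]; fun_prop
  · simp only [tco_1]; fun_prop
  · simp only [tco_2]; fun_prop
  · intro k; simp only [tco_3]; fun_prop

theorem continuous_yco {n : ℕ} (t : Fin (n + n + 3)) : Continuous fun z : Zt n => yco z t := by
  refine casesY (p := fun t => Continuous fun z : Zt n => yco z t) ?_ ?_ ?_ ?_ ?_ t
  · simp only [yco_0]; fun_prop
  · simp only [yco_1]; fun_prop
  · simp only [yco_2]; fun_prop
  · intro k; simp only [yco_3l]; fun_prop
  · intro k; simp only [yco_3r]; fun_prop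

theorem tco_inv {n : ℕ} (z : Zt n) : tco (inv z) = tco z := by
  funext t
  refine casesT (p := fun t => tco (inv z) t = tco z t) ?_ ?_ ?_ ?_ t
  · rfl
  · rfl
  · rfl
  · intro k; rfl

theorem yco_inv {n : ℕ} (z : Zt n) : yco (inv z) = -yco z := by
  funext t
  refine casesY (p := fun t => yco (inv z) t = (-yco z) t) ?_ ?_ ?_ ?_ ?_ t
  · rfl
  · rfl
  · rfl
  · intro k; rw [Pi.neg_apply, yco_3l, yco_3l]; rfl
  · intro k; rw [Pi.neg_apply, yco_3r, yco_3r]; rfl

/-- the label of a point of the one-point compactification of the target -/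
def LO {n : ℕ} (p : OnePoint (Zt n)) : Lab (n + 3) (n + n + 2 + 1) :=
  p.elim outer fun z => LR (tco z) (yco z)

theorem LO_infty {n : ℕ} : LO (∞ : OnePoint (Zt n)) = outer := rfl

theorem LO_coe {n : ℕ} (z : Zt n) : LO (z : OnePoint (Zt n)) = LR (tco z) (yco z) := rfl

theorem LO_opInv {n : ℕ} (p : OnePoint (Zt n)) : LO (opInv p) = Lab.flip (LO p) := by
  induction p using OnePoint.rec with
  | infty => rfl
  | coe z =>
    rw [opInv_coe, LO_coe, LO_coe, tco_inv, yco_inv, LR_neg]

theorem norm_le_of_coords {n : ℕ} (z : Zt n) (hT : ∀ t, |tco z t| ≤ 2) (hY : ∀ i, |yco z i| ≤ 2) :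
    ‖z‖ ≤ 4 := by
  have hc : ∀ w : ℂ, |w.re| ≤ 2 → |w.im| ≤ 2 → ‖w‖ ≤ 4 := by
    intro w h1 h2
    have := Complex.norm_le_abs_re_add_abs_im w
    linarith
  obtain ⟨⟨x, y⟩, ⟨a, b⟩, s, q⟩ := z
  simp only [Prod.norm_def, max_le_iff]
  refine ⟨⟨?_, ?_⟩, ⟨?_, ?_⟩, ?_, ?_⟩
  · rw [pi_norm_le_iff_of_nonneg (by norm_num)]
    intro k
    have := hT k.succ.succ.succ
    rw [tco_3] at this
    exact this.trans (by norm_num)
  · rw [pi_norm_le_iff_of_nonneg (by norm_num)]
    intro k
    have h1 := hY (Fin.castAdd n k).succ.succ.succ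
    have h2 := hY (Fin.natAdd n k).succ.succ.succ
    rw [yco_3l] at h1
    rw [yco_3r] at h2
    exact hc _ h1 h2
  · rw [pi_norm_le_iff_of_nonneg (by norm_num)]
    intro k
    have := hT 0
    rw [tco_0] at this
    rw [Subsingleton.elim k 0]
    exact this.trans (by norm_num)
  · rw [pi_norm_le_iff_of_nonneg (by norm_num)]
    intro k
    have h1 := hY (Fin.succ 0)
    have h2 := hY 0
    rw [yco_1] at h1
    rw [yco_0] at h2
    rw [Subsingleton.elim k 0]
    exact hc _ h1 h2
  · have := hY (Fin.succ (Fin.succ 0))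
    rw [yco_2] at this
    exact this.trans (by norm_num)
  · rw [pi_norm_le_iff_of_nonneg (by norm_num)]
    intro k
    have h1 := hT (Fin.succ 0)
    have h2 := hT (Fin.succ (Fin.succ 0))
    rw [tco_1] at h1
    rw [tco_2] at h2
    fin_cases k
    · exact h1.trans (by norm_num)
    · exact h2.trans (by norm_num)

theorem LO_near_infty {n : ℕ} : ∀ᶠ p in 𝓝 (∞ : OnePoint (Zt n)), LO p = outer := by
  have hop : IsOpen (((↑) '' Metric.closedBall (0 : Zt n) 4)ᶜ : Set (OnePoint (Zt n))) :=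
    OnePoint.isOpen_compl_image_coe.2 ⟨Metric.isClosed_closedBall, isCompact_closedBall _ _⟩
  have hmem : (((↑) '' Metric.closedBall (0 : Zt n) 4)ᶜ : Set (OnePoint (Zt n))) ∈
      𝓝 (∞ : OnePoint (Zt n)) := by
    apply hop.mem_nhds
    rintro ⟨z, -, hz⟩
    exact OnePoint.coe_ne_infty z hz
  filter_upwards [hmem] with p hp
  induction p using OnePoint.rec with
  | infty => rfl
  | coe z =>
    rw [LO_coe]
    apply LR_outer
    by_contra hcon
    push Not at hcon
    apply hp
    refine ⟨z, ?_, rfl⟩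
    rw [mem_closedBall_zero_iff]
    exact norm_le_of_coords z (fun t => (hcon.1 t).le) (fun i => (hcon.2 i).le)

theorem exists_adm_LO {n : ℕ} (p : OnePoint (Zt n)) :
    ∃ S : Finset (Lab (n + 3) (n + n + 2 + 1)), Adm S ∧ ∀ᶠ p' in 𝓝 p, LO p' ∈ S := by
  induction p using OnePoint.rec with
  | infty =>
    refine ⟨{outer}, ⟨fun i => by simp, by simp⟩, ?_⟩
    filter_upwards [LO_near_infty] with p hp
    rw [hp]
    simp
  | coe z =>
    obtain ⟨S, hS, hev⟩ := exists_adm (P := Zt n) (T := tco) (Y := yco) (M := n + 3)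
      (N := n + n + 2 + 1) continuous_tco continuous_yco z
    refine ⟨S, hS, ?_⟩
    rw [OnePoint.nhds_coe_eq, eventually_map]
    exact hev

/-- the point of the Möbius band with coordinates `α`, `β` -/
def mbpt (α β : ℝ) : Mb := ⟨(cx α ^ 2, cx α * β), by
  constructor
  · simp [norm_cx]
  · simp only [norm_mul, norm_cx, one_mul, mul_pow, Complex.norm_real, Real.norm_eq_abs]
    rw [← Complex.ofReal_pow |β|, sq_abs]
    push_cast
    ring⟩

theorem continuous_mbpt {P : Type} [TopologicalSpace P] {f g : P → ℝ} (hf : Continuous f)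
    (hg : Continuous g) : Continuous fun x => mbpt (f x) (g x) := by
  have := continuous_cx
  unfold mbpt
  refine Continuous.subtype_mk ?_ _
  fun_prop

/-- the point of the source with given coordinates -/
def src (n : ℕ) (x : Ix (n + 3) (n + n + 2 + 1) → ℝ) : Zs n :=
  ((fun k => x (Tc k.succ.succ.succ),
    fun k => (x (Yc (Fin.castAdd n k).succ.succ.succ) : ℂ) +
      (x (Yc (Fin.natAdd n k).succ.succ.succ) : ℂ) * Complex.I),
    ((fun _ => x (Tc 0), fun _ => (x (Yc (Fin.succ 0)) : ℂ) + (x (Yc 0) : ℂ) * Complex.I),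
      (x (Yc (Fin.succ (Fin.succ 0))),
        mbpt (x (Tc (Fin.succ 0))) (x (Tc (Fin.succ (Fin.succ 0)))))))

theorem continuous_src (n : ℕ) : Continuous (src n) := by
  unfold src
  refine Continuous.prodMk (by fun_prop) (Continuous.prodMk (by fun_prop)
    (Continuous.prodMk (by fun_prop) ?_))
  exact continuous_mbpt (continuous_apply _) (continuous_apply _)

/-- a norm-like function on the source -/
def Nz {n : ℕ} (z : Zs n) : ℝ :=
  ‖z.1.1‖ + ‖z.1.2‖ + ‖z.2.1.1‖ + ‖z.2.1.2‖ + ‖z.2.2.1‖ + ‖z.2.2.2.1.2‖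

theorem continuous_Nz {n : ℕ} : Continuous (Nz : Zs n → ℝ) := by
  unfold Nz
  fun_prop

theorem abs_le_Nz_T {n : ℕ} (x : Ix (n + 3) (n + n + 2 + 1) → ℝ) (t : Fin (n + 3))
    (ht : t ≠ Fin.succ 0) : |x (Tc t)| ≤ Nz (src n x) := by
  have n1 := norm_nonneg (src n x).1.1
  have n2 := norm_nonneg (src n x).1.2
  have n3 := norm_nonneg (src n x).2.1.1
  have n4 := norm_nonneg (src n x).2.1.2
  have n5 := norm_nonneg (src n x).2.2.1
  have n6 := norm_nonneg (src n x).2.2.2.1.2
  unfold Nz
  revert ht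
  refine casesT (p := fun t => t ≠ Fin.succ 0 → |x (Tc t)| ≤ _) ?_ ?_ ?_ ?_ t
  · intro _
    have : |x (Tc 0)| ≤ ‖(src n x).2.1.1‖ := norm_le_pi_norm (src n x).2.1.1 0
    linarith
  · intro h
    exact absurd rfl h
  · intro _
    have : |x (Tc (Fin.succ (Fin.succ 0)))| = ‖(src n x).2.2.2.1.2‖ := by
      simp [src, mbpt, norm_cx]
    linarith
  · intro k _
    have : |x (Tc k.succ.succ.succ)| ≤ ‖(src n x).1.1‖ := norm_le_pi_norm (src n x).1.1 k
    linarith

theorem abs_le_Nz_Y {n : ℕ} (x : Ix (n + 3) (n + n + 2 + 1) → ℝ) (t : Fin (n + n + 2 + 1)) :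
    |x (Yc t)| ≤ Nz (src n x) := by
  have n1 := norm_nonneg (src n x).1.1
  have n2 := norm_nonneg (src n x).1.2
  have n3 := norm_nonneg (src n x).2.1.1
  have n4 := norm_nonneg (src n x).2.1.2
  have n5 := norm_nonneg (src n x).2.2.1
  have n6 := norm_nonneg (src n x).2.2.2.1.2
  unfold Nz
  refine casesY (p := fun t => |x (Yc t)| ≤ _) ?_ ?_ ?_ ?_ ?_ t
  · have h1 : |((src n x).2.1.2 0).im| ≤ ‖(src n x).2.1.2 0‖ := Complex.abs_im_le_norm _
    have h2 := norm_le_pi_norm (src n x).2.1.2 0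
    have h3 : ((src n x).2.1.2 0).im = x (Yc 0) := by simp [src]
    rw [h3] at h1
    linarith
  · have h1 : |((src n x).2.1.2 0).re| ≤ ‖(src n x).2.1.2 0‖ := Complex.abs_re_le_norm _
    have h2 := norm_le_pi_norm (src n x).2.1.2 0
    have h3 : ((src n x).2.1.2 0).re = x (Yc (Fin.succ 0)) := by simp [src]
    rw [h3] at h1
    linarith
  · have : |x (Yc (Fin.succ (Fin.succ 0)))| = ‖(src n x).2.2.1‖ := rfl
    linarith
  · intro k
    have h1 : |((src n x).1.2 k).re| ≤ ‖(src n x).1.2 k‖ := Complex.abs_re_le_norm _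
    have h2 := norm_le_pi_norm (src n x).1.2 k
    have h3 : ((src n x).1.2 k).re = x (Yc (Fin.castAdd n k).succ.succ.succ) := by simp [src]
    rw [h3] at h1
    linarith
  · intro k
    have h1 : |((src n x).1.2 k).im| ≤ ‖(src n x).1.2 k‖ := Complex.abs_im_le_norm _
    have h2 := norm_le_pi_norm (src n x).1.2 k
    have h3 : ((src n x).1.2 k).im = x (Yc (Fin.natAdd n k).succ.succ.succ) := by simp [src]
    rw [h3] at h1
    linarith

end

end Pool.Agent.MP2c15fb
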