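import Pool.Agent.MP_2c15fb_gt.CW
import Pool.Agent.MP_2c15fb_gt.Ext
import Pool.Agent.MP_2c15fb_gt.Target

/-!
# Finite equivariant CW complexes: the examples
-/

set_option linter.unusedSectionVars false

namespace Pool.Agent.MP2c15fb

open Topology OnePoint unitInterval

noncomputable section

section general

variable {A : Type} [TopologicalSpace A] [Invol A]

theorem attach_none (d : ℕ) (F : Set (OnePoint A)) : AttachCells d F F := by
  refine ⟨0, fun j => Fin.elim0 j, fun p => Fin.elim0 p.1.1, ?_, ?_, ?_, ?_, ?_, ?_⟩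
  · rw [continuous_iff_continuousAt]
    rintro ⟨⟨j, -⟩, -⟩
    exact Fin.elim0 j
  · intro j; exact Fin.elim0 j
  · rintro ⟨j, -⟩; exact Fin.elim0 j
  · rintro ⟨j, -⟩; exact Fin.elim0 j
  · rintro ⟨j, -⟩; exact Fin.elim0 j
  · symm
    rw [Set.union_eq_left]
    rintro _ ⟨⟨⟨j, -⟩, -⟩, rfl⟩
    exact Fin.elim0 j

/-- a single equivariant cell -/
structure IsCell (d : ℕ) (F : Set (OnePoint A)) (H : Subgroup ℤˣ)
    (χ : Orbit H × (Fin d → I) → OnePoint A) : Prop where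
  cont : ∀ o, Continuous fun t => χ (o, t)
  equi : ∀ o t, χ (inv o, t) = opInv (χ (o, t))
  bdry : ∀ o, ∀ t ∈ Cube.boundary (Fin d), χ (o, t) ∈ F
  avoid : ∀ o, ∀ t ∉ Cube.boundary (Fin d), χ (o, t) ∉ F
  inj : ∀ o, ∀ t ∉ Cube.boundary (Fin d), ∀ o', ∀ t' ∉ Cube.boundary (Fin d),
      χ (o, t) = χ (o', t') → o = o' ∧ t = t'

theorem attach_one {d : ℕ} {F : Set (OnePoint A)} {H : Subgroup ℤˣ}
    {χ : Orbit H × (Fin d → I) → OnePoint A} (h : IsCell d F H χ) :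
    AttachCells d F (F ∪ Set.range χ) := by
  refine ⟨1, fun _ => H, fun p => χ (p.1.2, p.2), ?_, ?_, ?_, ?_, ?_, ?_⟩
  · rw [continuous_prod_of_discrete_left]
    rintro ⟨j, o⟩
    exact h.cont o
  · intro j o t
    exact h.equi o t
  · rintro ⟨j, o⟩ t ht
    exact h.bdry o t ht
  · rintro ⟨j, o⟩ t ht
    exact h.avoid o t ht
  · rintro ⟨j, o⟩ t ht ⟨j', o'⟩ t' ht' e
    obtain ⟨h1, h2⟩ := h.inj o t ht o' t' ht' e
    subst h1
    rw [Subsingleton.elim j j']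
    exact ⟨rfl, h2⟩
  · congr 1
    ext x
    constructor
    · rintro ⟨⟨o, t⟩, rfl⟩
      exact ⟨(⟨0, o⟩, t), rfl⟩
    · rintro ⟨⟨⟨j, o⟩, t⟩, rfl⟩
      exact ⟨(o, t), rfl⟩

/-- the characteristic map for two cells -/
def twoCells {d : ℕ} {H₁ H₂ : Subgroup ℤˣ} (χ₁ : Orbit H₁ × (Fin d → I) → OnePoint A)
    (χ₂ : Orbit H₂ × (Fin d → I) → OnePoint A) :
    (Σ j, Orbit ((![H₁, H₂] : Fin 2 → Subgroup ℤˣ) j)) × (Fin d → I) → OnePoint A
  | (⟨0, o⟩, t) => χ₁ (o, t)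
  | (⟨1, o⟩, t) => χ₂ (o, t)

theorem attach_two {d : ℕ} {F : Set (OnePoint A)} {H₁ H₂ : Subgroup ℤˣ}
    {χ₁ : Orbit H₁ × (Fin d → I) → OnePoint A} {χ₂ : Orbit H₂ × (Fin d → I) → OnePoint A}
    (h₁ : IsCell d F H₁ χ₁) (h₂ : IsCell d F H₂ χ₂)
    (hdis : ∀ o, ∀ t ∉ Cube.boundary (Fin d), ∀ o', ∀ t' ∉ Cube.boundary (Fin d),
      χ₁ (o, t) ≠ χ₂ (o', t')) :
    AttachCells d F (F ∪ (Set.range χ₁ ∪ Set.range χ₂)) := by
  refine ⟨2, ![H₁, H₂], twoCells χ₁ χ₂, ?_, ?_, ?_, ?_, ?_, ?_⟩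
  · rw [continuous_prod_of_discrete_left]
    rintro ⟨j, o⟩
    fin_cases j
    · exact h₁.cont o
    · exact h₂.cont o
  · intro j o t
    fin_cases j
    · exact h₁.equi o t
    · exact h₂.equi o t
  · rintro ⟨j, o⟩ t ht
    fin_cases j
    · exact h₁.bdry o t ht
    · exact h₂.bdry o t ht
  · rintro ⟨j, o⟩ t ht
    fin_cases j
    · exact h₁.avoid o t ht
    · exact h₂.avoid o t ht
  · rintro ⟨j, o⟩ t ht ⟨j', o'⟩ t' ht' e
    fin_cases j <;> fin_cases j'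
    · obtain ⟨h3, h4⟩ := h₁.inj o t ht o' t' ht' e
      exact ⟨by rw [h3], h4⟩
    · exact absurd e (hdis o t ht o' t' ht')
    · exact absurd e.symm (hdis o' t' ht' o t ht)
    · obtain ⟨h3, h4⟩ := h₂.inj o t ht o' t' ht' e
      exact ⟨by rw [h3], h4⟩
  · congr 1
    ext x
    constructor
    · rintro (⟨⟨o, t⟩, rfl⟩ | ⟨⟨o, t⟩, rfl⟩)
      · exact ⟨(⟨0, o⟩, t), rfl⟩
      · exact ⟨(⟨1, o⟩, t), rfl⟩
    · rintro ⟨⟨⟨j, o⟩, t⟩, rfl⟩
      fin_cases j
      · exact Or.inl ⟨(o, t), rfl⟩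
      · exact Or.inr ⟨(o, t), rfl⟩

theorem orbit_top (o o' : Orbit ⊤) : o = o' := by
  obtain ⟨g, rfl⟩ := QuotientGroup.mk_surjective (s := (⊤ : Subgroup ℤˣ)) (show ℤˣ ⧸ ⊤ from o)
  obtain ⟨g', rfl⟩ := QuotientGroup.mk_surjective (s := (⊤ : Subgroup ℤˣ)) (show ℤˣ ⧸ ⊤ from o')
  change ((g : ℤˣ) : ℤˣ ⧸ (⊤ : Subgroup ℤˣ)) = ((g' : ℤˣ) : ℤˣ ⧸ (⊤ : Subgroup ℤˣ))
  rw [QuotientGroup.eq]
  trivial

/-- trivial orbit type -/
theorem isCell_top {d : ℕ} {F : Set (OnePoint A)} {χ₀ : (Fin d → I) → OnePoint A}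
    (hc : Continuous χ₀) (hfix : ∀ t, opInv (χ₀ t) = χ₀ t)
    (hb : ∀ t ∈ Cube.boundary (Fin d), χ₀ t ∈ F) (ha : ∀ t ∉ Cube.boundary (Fin d), χ₀ t ∉ F)
    (hi : ∀ t ∉ Cube.boundary (Fin d), ∀ t' ∉ Cube.boundary (Fin d), χ₀ t = χ₀ t' → t = t') :
    IsCell d F ⊤ (fun p => χ₀ p.2) where
  cont _ := hc
  equi _ t := (hfix t).symm
  bdry _ := hb
  avoid _ := ha
  inj o t ht o' t' ht' e := ⟨orbit_top o o', hi t ht t' ht' e⟩

theorem orbit_bot : ∃ s : Orbit ⊥ → Bool, (∀ o, s (inv o) = !(s o)) ∧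
    (∀ o o', s o = s o' → o = o') ∧ (∀ b, ∃ o, s o = b) := by
  classical
  refine ⟨fun o => decide ((show ℤˣ ⧸ (⊥ : Subgroup ℤˣ) from o) = ((1 : ℤˣ) : ℤˣ ⧸ _)), ?_, ?_, ?_⟩
  · intro o
    obtain ⟨g, rfl⟩ := QuotientGroup.mk_surjective (s := (⊥ : Subgroup ℤˣ))
      (show ℤˣ ⧸ (⊥ : Subgroup ℤˣ) from o)
    change decide (((((-1 : ℤˣ) • g : ℤˣ)) : ℤˣ ⧸ (⊥ : Subgroup ℤˣ)) = ((1 : ℤˣ) : ℤˣ ⧸ _)) =
      !decide (((g : ℤˣ) : ℤˣ ⧸ (⊥ : Subgroup ℤˣ)) = ((1 : ℤˣ) : ℤˣ ⧸ _))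
    rw [← decide_not, decide_eq_decide, QuotientGroup.eq, QuotientGroup.eq]
    rcases Int.units_eq_one_or g with rfl | rfl
    · simp
    · simp
  · intro o o' h
    obtain ⟨g, rfl⟩ := QuotientGroup.mk_surjective (s := (⊥ : Subgroup ℤˣ))
      (show ℤˣ ⧸ (⊥ : Subgroup ℤˣ) from o)
    obtain ⟨g', rfl⟩ := QuotientGroup.mk_surjective (s := (⊥ : Subgroup ℤˣ))
      (show ℤˣ ⧸ (⊥ : Subgroup ℤˣ) from o')
    change decide (((g : ℤˣ) : ℤˣ ⧸ (⊥ : Subgroup ℤˣ)) = ((1 : ℤˣ) : ℤˣ ⧸ _)) =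
      decide (((g' : ℤˣ) : ℤˣ ⧸ (⊥ : Subgroup ℤˣ)) = ((1 : ℤˣ) : ℤˣ ⧸ _)) at h
    rw [decide_eq_decide, QuotientGroup.eq, QuotientGroup.eq] at h
    rcases Int.units_eq_one_or g with rfl | rfl <;> rcases Int.units_eq_one_or g' with rfl | rfl
    · rfl
    · simp at h
    · simp at h
    · rfl
  · intro b
    cases b with
    | true => exact ⟨((1 : ℤˣ) : ℤˣ ⧸ (⊥ : Subgroup ℤˣ)), by simp⟩
    | false =>
      refine ⟨((-1 : ℤˣ) : ℤˣ ⧸ (⊥ : Subgroup ℤˣ)), ?_⟩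
      rw [decide_eq_false_iff_not]
      intro h
      change ((-1 : ℤˣ) : ℤˣ ⧸ (⊥ : Subgroup ℤˣ)) = _ at h
      rw [QuotientGroup.eq] at h
      simp at h

/-- free orbit type -/
theorem isCell_bot [T2Space A] [LocallyCompactSpace A] {d : ℕ} {F : Set (OnePoint A)}
    {χ₀ : (Fin d → I) → OnePoint A}
    (hc : Continuous χ₀) (hcc : Continuous (opInv : OnePoint A → OnePoint A))
    (hF : ∀ x ∈ F, opInv x ∈ F)
    (hb : ∀ t ∈ Cube.boundary (Fin d), χ₀ t ∈ F) (ha : ∀ t ∉ Cube.boundary (Fin d), χ₀ t ∉ F)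
    (hi : ∀ t ∉ Cube.boundary (Fin d), ∀ t' ∉ Cube.boundary (Fin d), χ₀ t = χ₀ t' → t = t')
    (hn : ∀ t ∉ Cube.boundary (Fin d), ∀ t' ∉ Cube.boundary (Fin d), χ₀ t ≠ opInv (χ₀ t')) :
    ∃ χ : Orbit ⊥ × (Fin d → I) → OnePoint A, IsCell d F ⊥ χ ∧
      (∀ o t, χ (o, t) = χ₀ t ∨ χ (o, t) = opInv (χ₀ t)) ∧
      Set.range χ = Set.range χ₀ ∪ opInv '' Set.range χ₀ := by
  obtain ⟨s, hs, hsi, hss⟩ := orbit_bot
  have hF' : ∀ x, opInv x ∈ F → x ∈ F := by
    intro x hx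
    have := hF _ hx
    rwa [opInv_opInv] at this
  refine ⟨fun p => if s p.1 then χ₀ p.2 else opInv (χ₀ p.2), ⟨?_, ?_, ?_, ?_, ?_⟩, ?_, ?_⟩
  · intro o
    by_cases h : s o = true
    · simpa only [h, if_true] using hc
    · simp only [h]
      exact hcc.comp hc
  · intro o t
    simp only [hs]
    cases s o <;> simp
  · intro o t ht
    simp only
    split_ifs
    · exact hb t ht
    · exact hF _ (hb t ht)
  · intro o t ht
    simp only
    split_ifs
    · exact ha t ht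
    · exact fun h => ha t ht (hF' _ h)
  · intro o t ht o' t' ht' e
    simp only at e
    cases h : s o with
    | true =>
      cases h' : s o' with
      | true =>
        rw [h, h'] at e
        exact ⟨hsi _ _ (by rw [h, h']), hi t ht t' ht' e⟩
      | false =>
        rw [h, h'] at e
        exact absurd e (hn t ht t' ht')
    | false =>
      cases h' : s o' with
      | true =>
        rw [h, h'] at e
        exact absurd e.symm (hn t' ht' t ht)
      | false =>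
        rw [h, h'] at e
        refine ⟨hsi _ _ (by rw [h, h']), hi t ht t' ht' ?_⟩
        have := congrArg opInv e
        simpa using this
  · intro o t
    simp only
    split_ifs
    · exact Or.inl rfl
    · exact Or.inr rfl
  · ext x
    constructor
    · rintro ⟨⟨o, t⟩, rfl⟩
      simp only
      split_ifs
      · exact Or.inl ⟨t, rfl⟩
      · exact Or.inr ⟨_, ⟨t, rfl⟩, rfl⟩
    · rintro (⟨t, rfl⟩ | ⟨_, ⟨t, rfl⟩, rfl⟩)
      · obtain ⟨o, ho⟩ := hss true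
        exact ⟨(o, t), by simp [ho]⟩
      · obtain ⟨o, ho⟩ := hss false
        exact ⟨(o, t), by simp [ho]⟩

end general

/-- the extension of a function on the open interval to a map `I → ℝ⁺` -/
def gam (t : I) : OnePoint ℝ :=
  openExt' {t : I | 0 < (t : ℝ) ∧ (t : ℝ) < 1}
    (fun t => (2 * (t : ℝ) - 1) / ((t : ℝ) * (1 - t))) (t : OnePoint I)

/-- the extension of a function on the half open interval to a map `I → ℝ⁺` -/
def eta (t : I) : OnePoint ℝ :=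
  openExt' {t : I | (t : ℝ) < 1} (fun t => (t : ℝ) / (1 - t)) (t : OnePoint I)

theorem continuous_gam : Continuous gam := by
  refine Continuous.comp (g := openExt' {t : I | 0 < (t : ℝ) ∧ (t : ℝ) < 1}
    (fun t => (2 * (t : ℝ) - 1) / ((t : ℝ) * (1 - t)))) ?_ OnePoint.continuous_coe
  apply continuous_openExt'
  · have h1 : IsOpen {t : I | 0 < (t : ℝ)} := isOpen_lt (by fun_prop) (by fun_prop)
    have h2 : IsOpen {t : I | (t : ℝ) < 1} := isOpen_lt (by fun_prop) (by fun_prop)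
    exact h1.inter h2
  · apply ContinuousOn.div
    · fun_prop
    · fun_prop
    · rintro t ⟨h1, h2⟩
      have : (0 : ℝ) < t * (1 - t) := mul_pos h1 (by linarith)
      exact this.ne'
  · intro C hC
    obtain ⟨c, hc⟩ := hC.isBounded.exists_norm_le
    refine ⟨{t : I | |2 * (t : ℝ) - 1| ≤ c * ((t : ℝ) * (1 - t))}, ?_, ?_, ?_⟩
    · intro t ht
      have ht' : |2 * (t : ℝ) - 1| ≤ c * ((t : ℝ) * (1 - t)) := ht
      have h0 := t.2.1
      have h1 := t.2.2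
      constructor
      · rcases h0.lt_or_eq with h | h
        · exact h
        · rw [← h] at ht'
          norm_num at ht'
      · rcases h1.lt_or_eq with h | h
        · exact h
        · rw [h] at ht'
          norm_num at ht'
    · exact (isClosed_le (by fun_prop) (by fun_prop)).isCompact
    · rintro t ⟨h1, h2⟩ ht
      have h3 : (0 : ℝ) < t * (1 - t) := mul_pos h1 (by linarith)
      have h4 := hc _ ht
      rw [Real.norm_eq_abs, abs_div, abs_of_pos h3, div_le_iff₀ h3] at h4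
      exact h4

theorem continuous_eta : Continuous eta := by
  refine Continuous.comp (g := openExt' {t : I | (t : ℝ) < 1}
    (fun t => (t : ℝ) / (1 - t))) ?_ OnePoint.continuous_coe
  apply continuous_openExt'
  · exact isOpen_lt (by fun_prop) (by fun_prop)
  · apply ContinuousOn.div
    · fun_prop
    · fun_prop
    · intro t h1
      have : (t : ℝ) < 1 := h1
      linarith
  · intro C hC
    obtain ⟨c, hc⟩ := hC.isBounded.exists_norm_le
    refine ⟨{t : I | |(t : ℝ)| ≤ c * (1 - t)}, ?_, ?_, ?_⟩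
    · intro t ht
      have ht' : |(t : ℝ)| ≤ c * (1 - t) := ht
      have h1 := t.2.2
      rcases h1.lt_or_eq with h | h
      · exact h
      · rw [h] at ht'
        norm_num at ht'
    · exact (isClosed_le (by fun_prop) (by fun_prop)).isCompact
    · intro t h2 ht
      have h2' : (t : ℝ) < 1 := h2
      have h3 : (0 : ℝ) < 1 - t := by linarith
      have h4 := hc _ ht
      rw [Real.norm_eq_abs, abs_div, abs_of_pos h3, div_le_iff₀ h3] at h4
      exact h4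

theorem gam_int {t : I} (h : 0 < (t : ℝ) ∧ (t : ℝ) < 1) :
    gam t = (((2 * (t : ℝ) - 1) / ((t : ℝ) * (1 - t)) : ℝ) : OnePoint ℝ) :=
  openExt'_coe_of_mem (U := {t : I | 0 < (t : ℝ) ∧ (t : ℝ) < 1})
    (g := fun t => (2 * (t : ℝ) - 1) / ((t : ℝ) * (1 - t))) h

theorem gam_bd {t : I} (h : t = 0 ∨ t = 1) : gam t = ∞ := by
  apply openExt'_coe_of_notMem
  rcases h with rfl | rfl
  · simp
  · simp

theorem eta_int {t : I} (h : (t : ℝ) < 1) :
    eta t = (((t : ℝ) / (1 - t) : ℝ) : OnePoint ℝ) :=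
  openExt'_coe_of_mem (U := {t : I | (t : ℝ) < 1}) (g := fun t => (t : ℝ) / (1 - t)) h

theorem eta_one : eta 1 = ∞ := by
  apply openExt'_coe_of_notMem
  simp

theorem eta_zero : eta 0 = ((0 : ℝ) : OnePoint ℝ) := by
  rw [eta_int (by simp)]
  simp

theorem gam_inj {t t' : I} (h : 0 < (t : ℝ) ∧ (t : ℝ) < 1) (h' : 0 < (t' : ℝ) ∧ (t' : ℝ) < 1)
    (e : gam t = gam t') : t = t' := by
  rw [gam_int h, gam_int h', OnePoint.coe_eq_coe] at e
  obtain ⟨t, ht⟩ := t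
  obtain ⟨s, hs⟩ := t'
  simp only at h h' e
  apply Subtype.ext
  simp only
  have h1 : 0 < t * (1 - t) := mul_pos h.1 (by linarith [h.2])
  have h2 : 0 < s * (1 - s) := mul_pos h'.1 (by linarith [h'.2])
  rw [div_eq_div_iff h1.ne' h2.ne'] at e
  -- (2t-1) s (1-s) = (2s-1) t (1-t)
  have key : (t - s) * (t * s + (1 - t) * (1 - s)) = 0 := by
    nlinarith
  rcases mul_eq_zero.1 key with h3 | h3
  · linarith
  · exfalso
    have h4 : 0 < t * s := mul_pos h.1 h'.1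
    have h5 : 0 < (1 - t) * (1 - s) := mul_pos (by linarith [h.2]) (by linarith [h'.2])
    linarith

theorem gam_surj (x : ℝ) : ∃ t : I, (0 < (t : ℝ) ∧ (t : ℝ) < 1) ∧ gam t = (x : OnePoint ℝ) := by
  have hs := Real.sq_sqrt (by positivity : (0 : ℝ) ≤ x ^ 2 + 4)
  set s := Real.sqrt (x ^ 2 + 4) with hsdef
  have hs0 : 0 ≤ s := Real.sqrt_nonneg _
  have hsx : x < s := by
    by_contra hcon
    push Not at hcon
    nlinarith
  have hD : 2 < 2 - x + s := by linarith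
  have hD0 : 0 < 2 - x + s := by linarith
  have h1 : 2 / (2 - x + s) < 1 := by rw [div_lt_one hD0]; exact hD
  have h0 : 0 < 2 / (2 - x + s) := by positivity
  refine ⟨⟨2 / (2 - x + s), h0.le, h1.le⟩, ⟨h0, h1⟩, ?_⟩
  rw [gam_int ⟨h0, h1⟩, OnePoint.coe_eq_coe]
  simp only
  have h2 : 1 - 2 / (2 - x + s) = (s - x) / (2 - x + s) := by
    field_simp
    ring
  have h3 : 0 < s - x := by linarith
  rw [h2, div_eq_iff (by positivity)]
  have h4 : 2 * (2 / (2 - x + s)) - 1 = (2 + x - s) / (2 - x + s) := by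
    field_simp
    ring
  rw [h4]
  have h5 : x * (2 / (2 - x + s) * ((s - x) / (2 - x + s))) =
      2 * x * (s - x) / ((2 - x + s) * (2 - x + s)) := by
    field_simp
  rw [h5, div_eq_div_iff hD0.ne' (by positivity)]
  have h6 : (2 + x - s) * (2 - x + s) = 2 * x * (s - x) := by nlinarith
  linear_combination (2 - x + s) * h6

theorem eta_surj {x : ℝ} (hx : 0 ≤ x) : ∃ t : I, (t : ℝ) < 1 ∧ eta t = (x : OnePoint ℝ) := by
  have h1 : 0 < 1 + x := by linarith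
  refine ⟨⟨x / (1 + x), by positivity, by rw [div_le_one h1]; linarith⟩, ?_, ?_⟩
  · simp only
    rw [div_lt_one h1]
    linarith
  · rw [eta_int (by simp only; rw [div_lt_one h1]; linarith), OnePoint.coe_eq_coe]
    simp only
    field_simp
    ring

theorem eta_inj {t t' : I} (h : (t : ℝ) < 1) (h' : (t' : ℝ) < 1)
    (e : eta t = eta t') : t = t' := by
  rw [eta_int h, eta_int h', OnePoint.coe_eq_coe] at e
  obtain ⟨t, ht⟩ := t
  obtain ⟨s, hs⟩ := t'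
  simp only at h h' e
  apply Subtype.ext
  simp only
  rw [div_eq_div_iff (by linarith) (by linarith)] at e
  linarith

end

end Pool.Agent.MP2c15fb
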