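import Pool.Agent.MP_2c15fb_gt.Chain

/-!
# Barycentric subdivision of the cubical grid

A cell of the cubical grid is a function `c : ι → ℤ`; an odd coordinate stands for an open
interval and an even coordinate for a vertex.
-/

set_option linter.unusedSectionVars false

namespace Pool.Agent.MP2c15fb

section cells

variable {Λ : Type} [Fintype Λ] [DecidableEq Λ] {ι : Type} [Fintype ι] [DecidableEq ι]

/-- the odd coordinates -/
def odds (c : ι → ℤ) : Finset ι := Finset.univ.filter fun i => Odd (c i)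

/-- upper facet -/
def up (c : ι → ℤ) (i : ι) : ι → ℤ := Function.update c i (c i + 1)

/-- lower facet -/
def dn (c : ι → ℤ) (i : ι) : ι → ℤ := Function.update c i (c i - 1)

/-- the chain of the barycentric subdivision of a cell, with labels `ℓ` -/
def Sd (ℓ : (ι → ℤ) → Λ) : ℕ → (ι → ℤ) → Finset Λ → ZMod 2
  | 0, c => mulx (ℓ c) emp
  | k + 1, c => mulx (ℓ c) (∑ i ∈ odds c, (Sd ℓ k (up c i) + Sd ℓ k (dn c i)))

/-- the sum of the facets -/
def fac (ℓ : (ι → ℤ) → Λ) (k : ℕ) (c : ι → ℤ) : Finset Λ → ZMod 2 :=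
  ∑ i ∈ odds c, (Sd ℓ k (up c i) + Sd ℓ k (dn c i))

theorem Sd_zero (ℓ : (ι → ℤ) → Λ) (c : ι → ℤ) : Sd ℓ 0 c = mulx (ℓ c) emp := rfl

theorem Sd_succ (ℓ : (ι → ℤ) → Λ) (k : ℕ) (c : ι → ℤ) :
    Sd ℓ (k + 1) c = mulx (ℓ c) (fac ℓ k c) := rfl

theorem mem_odds {c : ι → ℤ} {i : ι} : i ∈ odds c ↔ Odd (c i) := by simp [odds]

theorem odds_up {c : ι → ℤ} {i : ι} (h : i ∈ odds c) : odds (up c i) = (odds c).erase i := by
  ext j
  rw [Finset.mem_erase, mem_odds, mem_odds, up]
  by_cases hj : j = i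
  · subst hj
    rw [mem_odds] at h
    simp only [Function.update_self, ne_eq, not_true_eq_false, false_and, iff_false,
      Int.not_odd_iff_even]
    exact h.add_one
  · simp [hj]

theorem odds_dn {c : ι → ℤ} {i : ι} (h : i ∈ odds c) : odds (dn c i) = (odds c).erase i := by
  ext j
  rw [Finset.mem_erase, mem_odds, mem_odds, dn]
  by_cases hj : j = i
  · subst hj
    rw [mem_odds] at h
    simp only [Function.update_self, ne_eq, not_true_eq_false, false_and, iff_false,
      Int.not_odd_iff_even]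
    have := h.sub_odd odd_one
    exact this
  · simp [hj]

theorem up_up {c : ι → ℤ} {i j : ι} (h : i ≠ j) : up (up c i) j = up (up c j) i := by
  unfold up
  rw [Function.update_of_ne h.symm, Function.update_of_ne h, Function.update_comm h]

theorem dn_dn {c : ι → ℤ} {i j : ι} (h : i ≠ j) : dn (dn c i) j = dn (dn c j) i := by
  unfold dn
  rw [Function.update_of_ne h.symm, Function.update_of_ne h, Function.update_comm h]

theorem up_dn {c : ι → ℤ} {i j : ι} (h : i ≠ j) : up (dn c i) j = dn (up c j) i := by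
  unfold up dn
  rw [Function.update_of_ne h.symm, Function.update_of_ne h, Function.update_comm h]

theorem bd_Sd_zero (ℓ : (ι → ℤ) → Λ) (c : ι → ℤ) : bd (Sd ℓ 0 c) = emp := by
  rw [Sd_zero, bd_mulx, bd_emp, map_zero, add_zero]

theorem bd_fac_aux (ℓ : (ι → ℤ) → Λ) (k : ℕ) :
    ∀ c : ι → ℤ, (odds c).card = k + 1 → bd (fac ℓ k c) = 0 := by
  induction k with
  | zero =>
    intro c _
    rw [fac, map_sum]
    apply Finset.sum_eq_zero
    intro i _
    rw [map_add, bd_Sd_zero, bd_Sd_zero, chain_add_self]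
  | succ k ih =>
    intro c hc
    have key : ∀ i ∈ odds c, bd (Sd ℓ (k + 1) (up c i) + Sd ℓ (k + 1) (dn c i)) =
        fac ℓ k (up c i) + fac ℓ k (dn c i) := by
      intro i hi
      have h1 : (odds (up c i)).card = k + 1 := by
        rw [odds_up hi, Finset.card_erase_of_mem hi, hc]
        rfl
      have h2 : (odds (dn c i)).card = k + 1 := by
        rw [odds_dn hi, Finset.card_erase_of_mem hi, hc]
        rfl
      rw [map_add, Sd_succ, Sd_succ, bd_mulx, bd_mulx, ih _ h1, ih _ h2, map_zero, map_zero,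
        add_zero, add_zero]
    rw [fac, map_sum, Finset.sum_congr rfl key]
    funext S
    rw [Finset.sum_apply]
    have : ∀ i ∈ odds c, (fac ℓ k (up c i) + fac ℓ k (dn c i)) S =
        ∑ j ∈ (odds c).erase i, (Sd ℓ k (up (up c i) j) S + Sd ℓ k (dn (up c i) j) S +
          (Sd ℓ k (up (dn c i) j) S + Sd ℓ k (dn (dn c i) j) S)) := by
      intro i hi
      rw [fac, fac, odds_up hi, odds_dn hi, ← Finset.sum_add_distrib, Finset.sum_apply]
      rfl
    rw [Finset.sum_congr rfl this]
    apply sum_symm_zero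
    intro i _ j _ hij
    rw [up_up hij, dn_dn hij, up_dn hij, up_dn hij.symm]
    ring

theorem bd_fac (ℓ : (ι → ℤ) → Λ) (k : ℕ) (c : ι → ℤ) (hc : (odds c).card = k + 1) :
    bd (fac ℓ k c) = 0 := bd_fac_aux ℓ k c hc

theorem bd_Sd (ℓ : (ι → ℤ) → Λ) (k : ℕ) (c : ι → ℤ) (hc : (odds c).card = k + 1) :
    bd (Sd ℓ (k + 1) c) = fac ℓ k c := by
  rw [Sd_succ, bd_mulx, bd_fac ℓ k c hc, map_zero, add_zero]

/-- `c'` is a face of `c` -/
def Face (c' c : ι → ℤ) : Prop :=
  ∀ i, c' i = c i ∨ (Odd (c i) ∧ (c' i = c i + 1 ∨ c' i = c i - 1))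

theorem Face.refl (c : ι → ℤ) : Face c c := fun _ => Or.inl rfl

theorem Face.of_up {c c' : ι → ℤ} {i : ι} (hi : i ∈ odds c) (h : Face c' (up c i)) :
    Face c' c := by
  intro j
  rw [mem_odds] at hi
  have := h j
  by_cases hj : j = i
  · subst hj
    rw [up, Function.update_self] at this
    rcases this with h1 | ⟨h1, _⟩
    · exact Or.inr ⟨hi, Or.inl h1⟩
    · exact absurd h1 (Int.not_odd_iff_even.2 hi.add_one)
  · rwa [up, Function.update_of_ne hj] at this

theorem Face.of_dn {c c' : ι → ℤ} {i : ι} (hi : i ∈ odds c) (h : Face c' (dn c i)) :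
    Face c' c := by
  intro j
  rw [mem_odds] at hi
  have := h j
  by_cases hj : j = i
  · subst hj
    rw [dn, Function.update_self] at this
    rcases this with h1 | ⟨h1, _⟩
    · exact Or.inr ⟨hi, Or.inr h1⟩
    · exact absurd h1 (Int.not_odd_iff_even.2 (hi.sub_odd odd_one))
  · rwa [dn, Function.update_of_ne hj] at this

theorem Face.up {c : ι → ℤ} {i : ι} (hi : i ∈ odds c) : Face (up c i) c :=
  Face.of_up hi (Face.refl _)

theorem Face.dn {c : ι → ℤ} {i : ι} (hi : i ∈ odds c) : Face (dn c i) c :=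
  Face.of_dn hi (Face.refl _)

theorem Face.abs_le {c c' : ι → ℤ} (h : Face c' c) (i : ι) : |c' i - c i| ≤ 1 := by
  rcases h i with h | ⟨_, h | h⟩
  · rw [h]; simp
  · rw [h]; simp
  · rw [h]; simp

theorem Face.even {c c' : ι → ℤ} (h : Face c' c) {i : ι} (hi : Even (c i)) : c' i = c i := by
  rcases h i with h | ⟨h, _⟩
  · exact h
  · exact absurd h (Int.not_odd_iff_even.2 hi)

/-- The subdivided cell only depends on the labels of the faces. -/
theorem Sd_congr {ℓ ℓ' : (ι → ℤ) → Λ} (k : ℕ) : ∀ c : ι → ℤ,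
    (∀ c', Face c' c → ℓ c' = ℓ' c') → Sd ℓ k c = Sd ℓ' k c := by
  induction k with
  | zero =>
    intro c h
    rw [Sd_zero, Sd_zero, h c (Face.refl c)]
  | succ k ih =>
    intro c h
    rw [Sd_succ, Sd_succ, h c (Face.refl c)]
    congr 1
    unfold fac
    apply Finset.sum_congr rfl
    intro i hi
    rw [ih _ fun c' hc' => h c' (hc'.of_up hi), ih _ fun c' hc' => h c' (hc'.of_dn hi)]

/-- The support of a subdivided cell. -/
theorem Sd_support {ℓ : (ι → ℤ) → Λ} (k : ℕ) : ∀ (c : ι → ℤ) (S : Finset Λ),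
    Sd ℓ k c S ≠ 0 → S.card = k + 1 ∧ ∀ l ∈ S, ∃ c', Face c' c ∧ ℓ c' = l := by
  induction k with
  | zero =>
    intro c S h
    rw [Sd_zero, mulx_apply] at h
    split_ifs at h with h1
    · rw [emp] at h
      split_ifs at h with h2
      · refine ⟨?_, ?_⟩
        · rw [← Finset.insert_erase h1, h2]; simp
        · intro l hl
          rw [← Finset.insert_erase h1, h2] at hl
          simp only [insert_empty_eq, Finset.mem_singleton] at hl
          exact ⟨c, Face.refl c, hl.symm⟩
      · exact absurd rfl h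
    · exact absurd rfl h
  | succ k ih =>
    intro c S h
    rw [Sd_succ, mulx_apply] at h
    split_ifs at h with h1
    · rw [fac, Finset.sum_apply] at h
      obtain ⟨i, hi, hne⟩ := Finset.exists_ne_zero_of_sum_ne_zero h
      have : Sd ℓ k (up c i) (S.erase (ℓ c)) ≠ 0 ∨ Sd ℓ k (dn c i) (S.erase (ℓ c)) ≠ 0 := by
        by_contra hcon
        push Not at hcon
        apply hne
        rw [Pi.add_apply, hcon.1, hcon.2, add_zero]
      have key : (S.erase (ℓ c)).card = k + 1 ∧ ∀ l ∈ S.erase (ℓ c), ∃ c', Face c' c ∧ ℓ c' = l := by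
        rcases this with h2 | h2
        · obtain ⟨e1, e2⟩ := ih _ _ h2
          refine ⟨e1, fun l hl => ?_⟩
          obtain ⟨c', hc', hl'⟩ := e2 l hl
          exact ⟨c', hc'.of_up hi, hl'⟩
        · obtain ⟨e1, e2⟩ := ih _ _ h2
          refine ⟨e1, fun l hl => ?_⟩
          obtain ⟨c', hc', hl'⟩ := e2 l hl
          exact ⟨c', hc'.of_dn hi, hl'⟩
      refine ⟨?_, ?_⟩
      · rw [Finset.card_erase_of_mem h1] at key
        have : 0 < S.card := Finset.card_pos.2 ⟨_, h1⟩
        omega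
      · intro l hl
        by_cases hl' : l = ℓ c
        · exact ⟨c, Face.refl c, hl'.symm⟩
        · exact key.2 l (Finset.mem_erase.2 ⟨hl', hl⟩)
    · exact absurd rfl h

/-- A cell all of whose faces have the same label contributes zero. -/
theorem Sd_const {ℓ : (ι → ℤ) → Λ} {l : Λ} (k : ℕ) (c : ι → ℤ)
    (h : ∀ c', Face c' c → ℓ c' = l) : Sd ℓ (k + 1) c = 0 := by
  funext S
  by_contra hne
  obtain ⟨h1, h2⟩ := Sd_support _ _ _ hne
  have : S ⊆ {l} := by
    intro m hm
    obtain ⟨c', hc', rfl⟩ := h2 m hm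
    rw [h c' hc']
    simp
  have := Finset.card_le_card this
  simp at this
  omega

/-- A coordinatewise symmetry of the grid. -/
def aff (ε : ι → ℤˣ) (t : ι → ℤ) (c : ι → ℤ) : ι → ℤ := fun i => ε i * c i + t i

theorem aff_up {ε : ι → ℤˣ} {t : ι → ℤ} {c : ι → ℤ} {i : ι} :
    (aff ε t (up c i) = up (aff ε t c) i ∧ aff ε t (dn c i) = dn (aff ε t c) i) ∨
    (aff ε t (up c i) = dn (aff ε t c) i ∧ aff ε t (dn c i) = up (aff ε t c) i) := by
  rcases Int.units_eq_one_or (ε i) with h | h
  · left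
    constructor <;>
    · funext j
      by_cases hj : j = i
      · subst hj
        simp [aff, up, dn, h]
        ring
      · simp [aff, up, dn, hj]
  · right
    constructor <;>
    · funext j
      by_cases hj : j = i
      · subst hj
        simp [aff, up, dn, h]
        ring
      · simp [aff, up, dn, hj]

theorem odds_aff {ε : ι → ℤˣ} {t : ι → ℤ} (ht : ∀ i, Even (t i)) (c : ι → ℤ) :
    odds (aff ε t c) = odds c := by
  ext i
  rw [mem_odds, mem_odds, aff]
  rcases Int.units_eq_one_or (ε i) with h | h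
  · rw [h]
    simp only [Units.val_one, one_mul]
    rw [Int.odd_add]
    simp [ht i]
  · rw [h]
    simp only [Units.val_neg, Units.val_one, neg_mul, one_mul]
    rw [Int.odd_add, odd_neg]
    simp [ht i]

/-- Symmetry of subdivided cells. -/
theorem Sd_aff {ℓ : (ι → ℤ) → Λ} {ε : ι → ℤˣ} {t : ι → ℤ} (ht : ∀ i, Even (t i)) {h : Λ → Λ}
    (hh : Function.Involutive h) (k : ℕ) : ∀ c : ι → ℤ,
    (∀ c', Face c' c → ℓ (aff ε t c') = h (ℓ c')) → Sd ℓ k (aff ε t c) = push h (Sd ℓ k c) := by
  induction k with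
  | zero =>
    intro c hc
    rw [Sd_zero, Sd_zero, push_mulx hh, push_emp, hc c (Face.refl c)]
  | succ k ih =>
    intro c hc
    rw [Sd_succ, Sd_succ, push_mulx hh, hc c (Face.refl c)]
    congr 1
    unfold fac
    rw [map_sum, odds_aff ht]
    apply Finset.sum_congr rfl
    intro i hi
    rw [map_add, ← ih _ fun c' hc' => hc c' (hc'.of_up hi),
      ← ih _ fun c' hc' => hc c' (hc'.of_dn hi)]
    rcases aff_up (ε := ε) (t := t) (c := c) (i := i) with ⟨h1, h2⟩ | ⟨h1, h2⟩
    · rw [h1, h2]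
    · rw [h1, h2, add_comm]

end cells

end Pool.Agent.MP2c15fb
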