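import Mathlib

/-!
# Mod 2 chains on the full simplex with vertex set `Λ`
-/

set_option linter.unusedSectionVars false

namespace Pool.Agent.MP2c15fb

section chains

variable {Λ : Type} [Fintype Λ] [DecidableEq Λ]

/-- multiplication by the vertex `l` -/
def mulx (l : Λ) : (Finset Λ → ZMod 2) →+ (Finset Λ → ZMod 2) where
  toFun c S := if l ∈ S then c (S.erase l) else 0
  map_zero' := by funext S; simp
  map_add' c d := by
    funext S
    simp only [Pi.add_apply]
    split_ifs <;> simp

/-- the (augmented) boundary -/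
def bd : (Finset Λ → ZMod 2) →+ (Finset Λ → ZMod 2) where
  toFun c S := ∑ l ∈ Sᶜ, c (insert l S)
  map_zero' := by funext S; simp
  map_add' c d := by
    funext S
    simp [Finset.sum_add_distrib]

theorem mulx_apply (l : Λ) (c : Finset Λ → ZMod 2) (S : Finset Λ) :
    mulx l c S = if l ∈ S then c (S.erase l) else 0 := rfl

theorem bd_apply (c : Finset Λ → ZMod 2) (S : Finset Λ) :
    bd c S = ∑ l ∈ Sᶜ, c (insert l S) := rfl

theorem add_self_zero (x : ZMod 2) : x + x = 0 := CharTwo.add_self_eq_zero x

theorem chain_add_self (x : Finset Λ → ZMod 2) : x + x = 0 := by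
  funext S
  exact add_self_zero _

theorem bd_mulx (l : Λ) (c : Finset Λ → ZMod 2) : bd (mulx l c) = c + mulx l (bd c) := by
  funext S
  rw [bd_apply, Pi.add_apply, mulx_apply, bd_apply]
  by_cases h : l ∈ S
  · rw [if_pos h]
    have h1 : (S.erase l)ᶜ = insert l Sᶜ := by
      ext m
      simp only [Finset.mem_compl, Finset.mem_erase, Finset.mem_insert]
      tauto
    rw [h1, Finset.sum_insert (by simpa using h), Finset.insert_erase h, ← add_assoc,
      add_self_zero, zero_add]
    apply Finset.sum_congr rfl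
    intro m hm
    rw [Finset.mem_compl] at hm
    have hml : m ≠ l := fun h' => hm (h' ▸ h)
    rw [mulx_apply, if_pos (Finset.mem_insert_of_mem h), Finset.erase_insert_of_ne hml]
  · rw [if_neg h, add_zero]
    rw [Finset.sum_eq_single_of_mem l (by simpa using h)]
    · rw [mulx_apply, if_pos (Finset.mem_insert_self _ _), Finset.erase_insert h]
    · intro m _ hml
      rw [mulx_apply, if_neg]
      rw [Finset.mem_insert]
      push Not
      exact ⟨fun h' => hml h'.symm, h⟩

theorem sum_symm_zero {α : Type} [DecidableEq α] (s : Finset α) (F : α → α → ZMod 2)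
    (hF : ∀ i ∈ s, ∀ j ∈ s, i ≠ j → F i j = F j i) :
    ∑ i ∈ s, ∑ j ∈ s.erase i, F i j = 0 := by
  rw [Finset.sum_sigma']
  refine Finset.sum_involution (fun a _ => ⟨a.2, a.1⟩) ?_ ?_ ?_ ?_
  · rintro ⟨i, j⟩ h
    simp only [Finset.mem_sigma, Finset.mem_erase] at h
    rw [hF i h.1 j h.2.2 (fun h' => h.2.1 h'.symm)]
    exact add_self_zero _
  · rintro ⟨i, j⟩ h _ he
    simp only [Finset.mem_sigma, Finset.mem_erase] at h
    simp only [Sigma.mk.injEq] at he
    exact h.2.1 he.1
  · rintro ⟨i, j⟩ h
    simp only [Finset.mem_sigma, Finset.mem_erase] at h ⊢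
    exact ⟨h.2.2, fun h' => h.2.1 h'.symm, h.1⟩
  · rintro ⟨i, j⟩ h
    rfl

theorem bd_bd (c : Finset Λ → ZMod 2) : bd (bd c) = 0 := by
  funext S
  rw [bd_apply]
  have : ∀ l ∈ Sᶜ, bd c (insert l S) = ∑ m ∈ Sᶜ.erase l, c (insert m (insert l S)) := by
    intro l _
    rw [bd_apply]
    apply Finset.sum_congr _ (fun _ _ => rfl)
    ext m
    simp only [Finset.mem_compl, Finset.mem_erase, Finset.mem_insert]
    tauto
  rw [Finset.sum_congr rfl this]
  exact sum_symm_zero _ (fun l m => c (insert m (insert l S)))
    (fun i _ j _ _ => by rw [Finset.insert_comm])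

theorem mulx_mulx (l : Λ) (c : Finset Λ → ZMod 2) : mulx l (mulx l c) = 0 := by
  funext S
  rw [mulx_apply, mulx_apply]
  simp

/-- the empty simplex -/
def emp : Finset Λ → ZMod 2 := fun S => if S = ∅ then 1 else 0

theorem bd_emp : bd (emp : Finset Λ → ZMod 2) = 0 := by
  funext S
  rw [bd_apply]
  apply Finset.sum_eq_zero
  intro l _
  simp [emp]

/-- the effect of an involution of the labels on chains -/
def push (h : Λ → Λ) : (Finset Λ → ZMod 2) →+ (Finset Λ → ZMod 2) where
  toFun c S := c (S.image h)
  map_zero' := by funext S; simp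
  map_add' c d := by funext S; simp

theorem push_apply (h : Λ → Λ) (c : Finset Λ → ZMod 2) (S : Finset Λ) :
    push h c S = c (S.image h) := rfl

theorem push_id (c : Finset Λ → ZMod 2) : push id c = c := by
  funext S
  rw [push_apply, Finset.image_id]

theorem push_push {h : Λ → Λ} (hh : Function.Involutive h) (c : Finset Λ → ZMod 2) :
    push h (push h c) = c := by
  funext S
  rw [push_apply, push_apply, Finset.image_image]
  have : h ∘ h = id := by
    funext x
    exact hh x
  rw [this, Finset.image_id]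

theorem push_emp (h : Λ → Λ) : push h (emp : Finset Λ → ZMod 2) = emp := by
  funext S
  rw [push_apply, emp, emp]
  simp

theorem push_mulx {h : Λ → Λ} (hh : Function.Involutive h) (l : Λ) (c : Finset Λ → ZMod 2) :
    push h (mulx l c) = mulx (h l) (push h c) := by
  funext S
  rw [push_apply, mulx_apply, mulx_apply]
  have h1 : l ∈ S.image h ↔ h l ∈ S := by
    rw [Finset.mem_image]
    constructor
    · rintro ⟨a, ha, rfl⟩
      rwa [hh a]
    · intro hl
      exact ⟨h l, hl, hh l⟩
  by_cases hl : h l ∈ S
  · rw [if_pos hl, if_pos (h1.2 hl), push_apply]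
    congr 1
    rw [Finset.image_erase hh.injective, hh l]
  · rw [if_neg hl, if_neg (fun h' => hl (h1.1 h'))]

theorem push_bd {h : Λ → Λ} (hh : Function.Involutive h) (c : Finset Λ → ZMod 2) :
    push h (bd c) = bd (push h c) := by
  funext S
  rw [push_apply, bd_apply, bd_apply]
  refine Finset.sum_bij' (fun l _ => h l) (fun l _ => h l) ?_ ?_ ?_ ?_ ?_
  · intro l hl
    rw [Finset.mem_compl] at hl ⊢
    intro h'
    exact hl (Finset.mem_image.2 ⟨h l, h', hh l⟩)
  · intro l hl
    rw [Finset.mem_compl] at hl ⊢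
    intro h'
    rw [Finset.mem_image] at h'
    obtain ⟨a, ha, hal⟩ := h'
    exact hl (hh.injective hal ▸ ha)
  · intro l _
    exact hh l
  · intro l _
    exact hh l
  · intro l _
    rw [push_apply, Finset.image_insert, hh l]

end chains

end Pool.Agent.MP2c15fb
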