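import Pool.Agent.MP_2c15fb_gt.Box

/-!
# The count for labels given by a list of priorities
-/

set_option linter.unusedSectionVars false

namespace Pool.Agent.MP2c15fb

noncomputable section

section prio

variable {Λ : Type} [Fintype Λ] [DecidableEq Λ] {ι : Type} [Fintype ι] [DecidableEq ι]

/-- The label `lab i` of the first `i` in the list with `thr i (c i)`, and `last` if there is no
such `i`. -/
def prio (last : Λ) (lab : ι → Λ) (thr : ι → ℤ → Bool) : List ι → (ι → ℤ) → Λ
  | [], _ => last
  | i :: L, c => if thr i (c i) then lab i else prio last lab thr L c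

variable {last : Λ} {lab : ι → Λ} {thr : ι → ℤ → Bool}

theorem prio_eq_last {L : List ι} {c : ι → ℤ} (h0 : ∀ i ∈ L, lab i ≠ last)
    (h : prio last lab thr L c = last) : ∀ i ∈ L, thr i (c i) = false := by
  induction L with
  | nil => intro i hi; simp at hi
  | cons i L ih =>
    rw [prio] at h
    split_ifs at h with h1
    · exact absurd h (h0 i (by simp))
    · intro j hj
      rcases List.mem_cons.1 hj with rfl | hj
      · simpa using h1
      · exact ih (fun i hi => h0 i (List.mem_cons_of_mem _ hi)) h j hj

theorem prio_eq_lab {L : List ι} {c : ι → ℤ} (h0 : ∀ i ∈ L, lab i ≠ last)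
    {j : ι} (hj : ∀ i ∈ L, lab i = lab j → i = j) (hjl : lab j ≠ last)
    (h : prio last lab thr L c = lab j) : thr j (c j) = true := by
  induction L with
  | nil => rw [prio] at h; exact absurd h.symm hjl
  | cons i L ih =>
    rw [prio] at h
    split_ifs at h with h1
    · have := hj i (by simp) h
      rwa [← this]
    · exact ih (fun i hi => h0 i (List.mem_cons_of_mem _ hi))
        (fun i hi => hj i (List.mem_cons_of_mem _ hi)) h

theorem prio_mem (L : List ι) (c : ι → ℤ) :
    prio last lab thr L c ∈ insert last (L.map lab).toFinset := by
  induction L with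
  | nil => simp [prio]
  | cons i L ih =>
    rw [prio]
    split_ifs
    · simp
    · rw [Finset.mem_insert] at ih ⊢
      rcases ih with h | h
      · exact Or.inl h
      · right
        rw [List.map_cons, List.toFinset_cons]
        exact Finset.mem_insert_of_mem h

theorem face_of_cells_const {B : ι → ℤ × ℤ} {i : ι} {p : ℤ} {c c' : ι → ℤ}
    (hc : c ∈ cells (Function.update B i (p, p))) (hf : Face c' c) : c' i = 2 * p := by
  have := (Fintype.mem_piFinset.1 hc) i
  rw [Function.update_self] at this
  simp only at this
  rw [vals_self, Finset.mem_singleton] at this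
  rw [hf.even (by rw [this]; exact even_two_mul p), this]

theorem count_prio (L : List ι) : ∀ (B : ι → ℤ × ℤ), L.Nodup → (∀ i, (B i).1 ≤ (B i).2) →
    (∀ i ∈ L, lab i ≠ last) → (∀ i ∈ L, ∀ j ∈ L, lab i = lab j → i = j) →
    nondeg B = L.toFinset → (∀ i ∈ L, thr i (2 * (B i).1) ≠ thr i (2 * (B i).2)) →
    Tot (prio last lab thr L) L.length B (insert last (L.map lab).toFinset) = 1 := by
  induction L with
  | nil =>
    intro B _ _ _ _ hnd _
    have hdeg : ∀ i, (B i).1 = (B i).2 := by
      intro i
      by_contra hne
      have : i ∈ nondeg B := by simp [nondeg, hne]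
      rw [hnd] at this
      simp at this
    have hcells : cells B = {fun i => 2 * (B i).1} := by
      ext c
      rw [cells, Fintype.mem_piFinset, Finset.mem_singleton]
      constructor
      · intro h
        funext i
        have := h i
        rw [← hdeg i, vals_self, Finset.mem_singleton] at this
        exact this
      · rintro rfl i
        rw [← hdeg i, vals_self, Finset.mem_singleton]
    rw [Tot, hcells, Finset.sum_singleton, List.length_nil, Sd_zero, prio, mulx_apply]
    simp [emp]
  | cons i L ih =>
    intro B hnodup hB h0 hinj hnd hthr
    set ℓ := prio last lab thr (i :: L) with hℓ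
    set S' := insert last (L.map lab).toFinset with hS'
    rw [List.nodup_cons] at hnodup
    have hi0 : lab i ≠ last := h0 i (by simp)
    have hiS' : lab i ∉ S' := by
      rw [hS', Finset.mem_insert, List.mem_toFinset, List.mem_map]
      rintro (h | ⟨j, hj, hji⟩)
      · exact hi0 h
      · have := hinj j (List.mem_cons_of_mem _ hj) i (by simp) hji
        exact hnodup.1 (this ▸ hj)
    have hSS : insert last ((i :: L).map lab).toFinset = insert (lab i) S' := by
      rw [List.map_cons, List.toFinset_cons, Finset.insert_comm]
    have hcard : (nondeg B).card = L.length + 1 := by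
      rw [hnd, List.toFinset_card_of_nodup (List.nodup_cons.2 hnodup), List.length_cons]
    have e1 : bd (Tot ℓ (L.length + 1) B) S' = Tot ℓ (L.length + 1) B (insert (lab i) S') := by
      rw [bd_apply]
      apply Finset.sum_eq_single_of_mem
      · rwa [Finset.mem_compl]
      · intro l hl hne
        by_contra hcon
        obtain ⟨-, c, -, hc⟩ := Tot_support hcon
        obtain ⟨c', -, hc'⟩ := hc l (Finset.mem_insert_self _ _)
        have hm := prio_mem (last := last) (lab := lab) (thr := thr) (i :: L) c'
        rw [← hℓ, hc', hSS, Finset.mem_insert] at hm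
        rcases hm with h | h
        · exact hne h
        · exact (Finset.mem_compl.1 hl) h
    rw [List.length_cons, hSS, ← e1, bd_Tot ℓ L.length B hB hcard, hnd, List.toFinset_cons,
      Finset.sum_insert (by simpa using hnodup.1), Pi.add_apply, Finset.sum_apply]
    have hL0 : ∀ j ∈ L, ∀ p : ℤ, Tot ℓ L.length (Function.update B j (p, p)) S' = 0 := by
      intro j hj p
      by_contra hcon
      obtain ⟨-, c, hc, hcl⟩ := Tot_support hcon
      cases hth : thr j (2 * p) with
      | true =>
        obtain ⟨c', hf, hc'⟩ := hcl last (Finset.mem_insert_self _ _)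
        have := prio_eq_last h0 hc' j (List.mem_cons_of_mem _ hj)
        rw [face_of_cells_const hc hf, hth] at this
        exact absurd this (by simp)
      | false =>
        obtain ⟨c', hf, hc'⟩ := hcl (lab j) (Finset.mem_insert_of_mem (by
          rw [List.mem_toFinset]
          exact List.mem_map_of_mem hj))
        have := prio_eq_lab h0 (fun i' hi' h => hinj i' hi' j (List.mem_cons_of_mem _ hj) h)
          (h0 j (List.mem_cons_of_mem _ hj)) hc'
        rw [face_of_cells_const hc hf, hth] at this
        exact absurd this (by simp)
    have hrest : ∑ j ∈ L.toFinset, (Tot ℓ L.length (Function.update B j ((B j).2, (B j).2)) +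
        Tot ℓ L.length (Function.update B j ((B j).1, (B j).1))) S' = 0 := by
      apply Finset.sum_eq_zero
      intro j hj
      rw [List.mem_toFinset] at hj
      rw [Pi.add_apply, hL0 j hj, hL0 j hj, add_zero]
    rw [hrest, add_zero, Pi.add_apply]
    have hT : ∀ p : ℤ, thr i (2 * p) = true →
        Tot ℓ L.length (Function.update B i (p, p)) S' = 0 := by
      intro p hp
      by_contra hcon
      obtain ⟨-, c, hc, hcl⟩ := Tot_support hcon
      obtain ⟨c', hf, hc'⟩ := hcl last (Finset.mem_insert_self _ _)
      have := prio_eq_last h0 hc' i (by simp)
      rw [face_of_cells_const hc hf, hp] at this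
      exact absurd this (by simp)
    have hF : ∀ p : ℤ, thr i (2 * p) = false →
        Tot ℓ L.length (Function.update B i (p, p)) S' = 1 := by
      intro p hp
      have hcong : Tot ℓ L.length (Function.update B i (p, p)) =
          Tot (prio last lab thr L) L.length (Function.update B i (p, p)) := by
        apply Tot_congr
        intro c hc c' hf
        rw [hℓ, prio, face_of_cells_const hc hf, hp]
        simp
      rw [hcong]
      apply ih
      · exact hnodup.2
      · intro j
        by_cases hj : j = i
        · subst hj; simp
        · rw [Function.update_of_ne hj]; exact hB j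
      · exact fun j hj => h0 j (List.mem_cons_of_mem _ hj)
      · exact fun j hj j' hj' => hinj j (List.mem_cons_of_mem _ hj) j' (List.mem_cons_of_mem _ hj')
      · ext j
        have : j ∈ nondeg B ↔ j = i ∨ j ∈ L := by
          rw [hnd]; simp
        rw [nondeg, Finset.mem_filter] at this ⊢
        by_cases hj : j = i
        · subst hj
          simpa using hnodup.1
        · rw [Function.update_of_ne hj]
          simp only [hj, false_or, Finset.mem_univ, true_and, List.mem_toFinset] at this ⊢
          exact this
      · intro j hj
        have hji : j ≠ i := fun h => hnodup.1 (h ▸ hj)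
        rw [Function.update_of_ne hji]
        exact hthr j (List.mem_cons_of_mem _ hj)
    have hne := hthr i (by simp)
    cases h1 : thr i (2 * (B i).1) with
    | true =>
      have h2 : thr i (2 * (B i).2) = false := by
        rw [h1] at hne
        simpa using hne.symm
      rw [hT _ h1, hF _ h2, add_zero]
    | false =>
      have h2 : thr i (2 * (B i).2) = true := by
        rw [h1] at hne
        simpa using hne.symm
      rw [hF _ h1, hT _ h2, zero_add]

end prio

end

end Pool.Agent.MP2c15fb
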