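import Mathlib

/-!
# Stable equivariant maps for the group with two elements

All pointed spaces are one-point compactifications `OnePoint A` of locally compact Hausdorff
spaces `A` with a continuous involution (an action of the group `C₂` of order two).
-/

namespace Pool.Agent.MP2c15fb

open Topology OnePoint

/-- A continuous involution on the space `A`, that is, an action of the group of order two. -/
class Invol (A : Type) [TopologicalSpace A] where
  /-- the action of the generator -/
  inv : A → A
  inv_inv : ∀ a, inv (inv a) = a
  continuous_inv : Continuous inv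

export Invol (inv inv_inv continuous_inv)

attribute [simp] Invol.inv_inv

/-- The involution of a product is the product of the involutions (the diagonal action). -/
instance {A B : Type} [TopologicalSpace A] [TopologicalSpace B] [Invol A] [Invol B] :
    Invol (A × B) where
  inv p := (inv p.1, inv p.2)
  inv_inv p := by simp
  continuous_inv := by
    have := @continuous_inv A _ _
    have := @continuous_inv B _ _
    fun_prop

/-- The involution on the one-point compactification; it fixes the point at infinity. -/
def opInv {A : Type} [TopologicalSpace A] [Invol A] : OnePoint A → OnePoint A :=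
  OnePoint.map inv

/-- The canonical map from the product of two one-point compactifications to the one-point
compactification of the product, that is, the quotient map onto the smash product. -/
def pair {A B : Type} (x : OnePoint A) (y : OnePoint B) : OnePoint (A × B) :=
  x.elim ∞ fun a => y.map fun b => (a, b)

section pair

variable {A B C D : Type}

@[simp] theorem pair_coe (a : A) (b : B) :
    pair (a : OnePoint A) (b : OnePoint B) = ((a, b) : A × B) := rfl

@[simp] theorem pair_infty_left (b : OnePoint B) : pair (∞ : OnePoint A) b = ∞ := rfl

@[simp] theorem pair_infty_right (a : OnePoint A) : pair a (∞ : OnePoint B) = ∞ := by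
  induction a using OnePoint.rec <;> rfl

theorem pair_eq_infty_iff {x : OnePoint A} {y : OnePoint B} :
    pair x y = ∞ ↔ x = ∞ ∨ y = ∞ := by
  induction x using OnePoint.rec <;> induction y using OnePoint.rec <;> simp

theorem pair_eq_coe_iff {x : OnePoint A} {y : OnePoint B} {a : A} {b : B} :
    pair x y = ((a, b) : A × B) ↔ x = a ∧ y = b := by
  induction x using OnePoint.rec <;> induction y using OnePoint.rec <;>
    simp [OnePoint.infty_ne_coe]

theorem pair_surjective : Function.Surjective (fun p : OnePoint A × OnePoint B => pair p.1 p.2) := by
  intro x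
  induction x using OnePoint.rec with
  | infty => exact ⟨(∞, ∞), rfl⟩
  | coe p => exact ⟨(↑p.1, ↑p.2), rfl⟩

end pair

section pairTop

variable {A B : Type} [TopologicalSpace A] [TopologicalSpace B] [T2Space A] [T2Space B]
  [LocallyCompactSpace A] [LocallyCompactSpace B]

theorem continuous_pair : Continuous (fun p : OnePoint A × OnePoint B => pair p.1 p.2) := by
  rw [continuous_def]
  intro U hU
  by_cases h : (∞ : OnePoint (A × B)) ∈ U
  · have hc : IsCompact (((↑) : A × B → OnePoint (A × B)) ⁻¹' Uᶜ) := by
      have := (OnePoint.isOpen_iff_of_mem h).1 hU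
      exact this.2
    have himg : ((fun p : OnePoint A × OnePoint B => pair p.1 p.2) ⁻¹' U)ᶜ =
        (fun p : A × B => ((p.1 : OnePoint A), (p.2 : OnePoint B))) ''
          (((↑) : A × B → OnePoint (A × B)) ⁻¹' Uᶜ) := by
      ext ⟨x, y⟩
      constructor
      · intro hx
        induction x using OnePoint.rec with
        | infty => exact absurd h (by simpa using hx)
        | coe a =>
          induction y using OnePoint.rec with
          | infty => exact absurd h (by simpa using hx)
          | coe b => exact ⟨(a, b), by simpa using hx, rfl⟩
      · rintro ⟨⟨a, b⟩, hab, he⟩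
        simp only [Prod.mk.injEq] at he
        obtain ⟨rfl, rfl⟩ := he
        simpa using hab
    rw [← isClosed_compl_iff, himg]
    apply IsCompact.isClosed
    apply hc.image
    exact (OnePoint.continuous_coe.comp continuous_fst).prodMk
      (OnePoint.continuous_coe.comp continuous_snd)
  · have : (fun p : OnePoint A × OnePoint B => pair p.1 p.2) ⁻¹' U =
        (fun p : A × B => ((p.1 : OnePoint A), (p.2 : OnePoint B))) ''
          (((↑) : A × B → OnePoint (A × B)) ⁻¹' U) := by
      ext ⟨x, y⟩
      constructor
      · intro hx
        induction x using OnePoint.rec with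
        | infty => exact absurd (by simpa using hx) h
        | coe a =>
          induction y using OnePoint.rec with
          | infty => exact absurd (by simpa using hx) h
          | coe b => exact ⟨(a, b), by simpa using hx, rfl⟩
      · rintro ⟨⟨a, b⟩, hab, he⟩
        simp only [Prod.mk.injEq] at he
        obtain ⟨rfl, rfl⟩ := he
        simpa using hab
    rw [this]
    have ho : IsOpenEmbedding (fun p : A × B => ((p.1 : OnePoint A), (p.2 : OnePoint B))) :=
      OnePoint.isOpenEmbedding_coe.prodMap OnePoint.isOpenEmbedding_coe
    exact ho.isOpenMap _ (hU.preimage OnePoint.continuous_coe)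

/-- The map `pair` is a quotient map, also after taking the product with a compact Hausdorff
space. -/
theorem isQuotientMap_pair (T : Type) [TopologicalSpace T] [CompactSpace T] [T2Space T] :
    IsQuotientMap (fun p : T × (OnePoint A × OnePoint B) => (p.1, pair p.2.1 p.2.2)) := by
  have hc : Continuous (fun p : T × (OnePoint A × OnePoint B) => (p.1, pair p.2.1 p.2.2)) :=
    continuous_fst.prodMk (continuous_pair.comp continuous_snd)
  have hs : Function.Surjective
      (fun p : T × (OnePoint A × OnePoint B) => (p.1, pair p.2.1 p.2.2)) := by
    rintro ⟨t, x⟩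
    obtain ⟨p, hp⟩ := pair_surjective x
    exact ⟨(t, p), by simpa using hp⟩
  exact hc.isClosedMap.isQuotientMap hc hs

theorem isQuotientMap_pair' : IsQuotientMap (fun p : OnePoint A × OnePoint B => pair p.1 p.2) :=
  continuous_pair.isClosedMap.isQuotientMap continuous_pair pair_surjective

end pairTop

section maps

variable {A B C D : Type} [TopologicalSpace A] [TopologicalSpace B] [TopologicalSpace C]
  [TopologicalSpace D] [Invol A] [Invol B] [Invol C] [Invol D]

@[simp] theorem opInv_infty : opInv (∞ : OnePoint A) = ∞ := rfl

@[simp] theorem opInv_coe (a : A) : opInv (a : OnePoint A) = (inv a : A) := rfl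

@[simp] theorem opInv_opInv (x : OnePoint A) : opInv (opInv x) = x := by
  induction x using OnePoint.rec <;> simp

theorem opInv_pair (x : OnePoint A) (y : OnePoint B) :
    opInv (pair x y) = pair (opInv x) (opInv y) := by
  induction x using OnePoint.rec <;> induction y using OnePoint.rec <;> simp <;> rfl

/-- Pointed and equivariant continuous maps between one-point compactifications. -/
def IsPtdEquivariant (φ : C(OnePoint A, OnePoint B)) : Prop :=
  φ ∞ = ∞ ∧ ∀ x, φ (opInv x) = opInv (φ x)

/-- A pointed equivariant continuous map from `OnePoint A` to `OnePoint B`. -/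
structure PMap (A B : Type) [TopologicalSpace A] [TopologicalSpace B] [Invol A] [Invol B] where
  /-- the underlying continuous map -/
  map : C(OnePoint A, OnePoint B)
  prop : IsPtdEquivariant map

/-- The constant map with value the base point. -/
def constInfty (A B : Type) [TopologicalSpace A] [TopologicalSpace B] :
    C(OnePoint A, OnePoint B) := ContinuousMap.const _ ∞

/-- `Null φ` means that `φ` is homotopic to the constant map through pointed equivariant maps. -/
def Null (φ : PMap A B) : Prop :=
  ContinuousMap.HomotopicWith φ.map (constInfty A B) IsPtdEquivariant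

/-- The identity map. -/
def PMap.id (A : Type) [TopologicalSpace A] [Invol A] : PMap A A where
  map := ContinuousMap.id _
  prop := ⟨rfl, fun _ => rfl⟩

/-- Composition of pointed equivariant maps (`ψ` after `φ`). -/
def PMap.comp (ψ : PMap B C) (φ : PMap A B) : PMap A C where
  map := ψ.map.comp φ.map
  prop := ⟨by simp [φ.prop.1, ψ.prop.1], fun x => by simp [φ.prop.2, ψ.prop.2]⟩

end maps

section smash

variable {A B C D : Type} [TopologicalSpace A] [TopologicalSpace B] [TopologicalSpace C]
  [TopologicalSpace D] [T2Space A] [T2Space B] [T2Space C] [T2Space D]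
  [LocallyCompactSpace A] [LocallyCompactSpace B] [LocallyCompactSpace C] [LocallyCompactSpace D]

/-- The underlying function of the smash product of two pointed maps. -/
def smashFun (φ : OnePoint A → OnePoint C) (ψ : OnePoint B → OnePoint D)
    (x : OnePoint (A × B)) : OnePoint (C × D) :=
  x.elim ∞ fun p => pair (φ p.1) (ψ p.2)

omit [TopologicalSpace A] [TopologicalSpace B] [TopologicalSpace C]
  [TopologicalSpace D] [T2Space A] [T2Space B] [T2Space C] [T2Space D]
  [LocallyCompactSpace A] [LocallyCompactSpace B] [LocallyCompactSpace C] [LocallyCompactSpace D] in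
@[simp] theorem smashFun_infty (φ : OnePoint A → OnePoint C) (ψ : OnePoint B → OnePoint D) :
    smashFun φ ψ ∞ = ∞ := rfl

omit [TopologicalSpace A] [TopologicalSpace B] [TopologicalSpace C]
  [TopologicalSpace D] [T2Space A] [T2Space B] [T2Space C] [T2Space D]
  [LocallyCompactSpace A] [LocallyCompactSpace B] [LocallyCompactSpace C] [LocallyCompactSpace D] in
@[simp] theorem smashFun_coe (φ : OnePoint A → OnePoint C) (ψ : OnePoint B → OnePoint D)
    (p : A × B) : smashFun φ ψ p = pair (φ p.1) (ψ p.2) := rfl

omit [TopologicalSpace A] [TopologicalSpace B] [TopologicalSpace C]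
  [TopologicalSpace D] [T2Space A] [T2Space B] [T2Space C] [T2Space D]
  [LocallyCompactSpace A] [LocallyCompactSpace B] [LocallyCompactSpace C] [LocallyCompactSpace D] in
theorem smashFun_pair {φ : OnePoint A → OnePoint C} {ψ : OnePoint B → OnePoint D}
    (hφ : φ ∞ = ∞) (hψ : ψ ∞ = ∞) (x : OnePoint A) (y : OnePoint B) :
    smashFun φ ψ (pair x y) = pair (φ x) (ψ y) := by
  induction x using OnePoint.rec <;> induction y using OnePoint.rec <;> simp [hφ, hψ]

theorem continuous_smashFun {φ : OnePoint A → OnePoint C} {ψ : OnePoint B → OnePoint D}
    (hφ : Continuous φ) (hψ : Continuous ψ) (hφi : φ ∞ = ∞) (hψi : ψ ∞ = ∞) :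
    Continuous (smashFun φ ψ) := by
  rw [isQuotientMap_pair'.continuous_iff]
  have : smashFun φ ψ ∘ (fun p : OnePoint A × OnePoint B => pair p.1 p.2) =
      fun p => pair (φ p.1) (ψ p.2) := by
    funext p
    exact smashFun_pair hφi hψi p.1 p.2
  rw [this]
  exact continuous_pair.comp ((hφ.comp continuous_fst).prodMk (hψ.comp continuous_snd))

variable [Invol A] [Invol B] [Invol C] [Invol D]

/-- The smash product of two pointed equivariant maps. -/
def smash (φ : PMap A C) (ψ : PMap B D) : PMap (A × B) (C × D) where
  map := ⟨smashFun φ.map ψ.map,
    continuous_smashFun φ.map.continuous ψ.map.continuous φ.prop.1 ψ.prop.1⟩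
  prop := by
    refine ⟨rfl, fun x => ?_⟩
    obtain ⟨⟨y, z⟩, rfl⟩ := pair_surjective x
    simp only [ContinuousMap.coe_mk]
    rw [opInv_pair, smashFun_pair φ.prop.1 ψ.prop.1, smashFun_pair φ.prop.1 ψ.prop.1, φ.prop.2,
      ψ.prop.2, opInv_pair]

end smash

end Pool.Agent.MP2c15fb
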