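import Pool.Agent.MP_2c15fb_gt.Slab

/-!
# The combinatorial core: the count and the contradiction
-/

set_option linter.unusedSectionVars false

namespace Pool.Agent.MP2c15fb

open Lab

noncomputable section

theorem plist_length (M N : ℕ) : (plist M N).length = M + 1 := by
  simp [plist]

theorem plist_nodup (M N : ℕ) : (plist M N).Nodup := by
  rw [plist, List.nodup_cons]
  constructor
  · simp
  · apply List.Nodup.map
    · intro a b h
      simpa using h
    · exact List.nodup_finRange M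

theorem mem_plist {M N : ℕ} {i : Ix M (N + 1)} :
    i ∈ plist M N ↔ i = Yc 0 ∨ ∃ t : Fin M, i = Tc t := by
  rw [plist, List.mem_cons, List.mem_map]
  constructor
  · rintro (h | ⟨t, -, rfl⟩)
    · exact Or.inl h
    · exact Or.inr ⟨t, rfl⟩
  · rintro (h | ⟨t, rfl⟩)
    · exact Or.inl h
    · exact Or.inr ⟨t, List.mem_finRange t, rfl⟩

theorem plist_labels (M N : ℕ) :
    (insert Lab.last ((plist M N).map thrLab).toFinset : Finset (Lab M (N + 1))) =
      insert (e 0 true) (Pset M (N + 1)) := by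
  ext l
  rw [Finset.mem_insert, List.mem_toFinset, List.mem_map, Finset.mem_insert, Pset,
    Finset.mem_insert]
  constructor
  · rintro (h | ⟨i, hi, rfl⟩)
    · exact Or.inr (Or.inl h)
    · rw [mem_plist] at hi
      rcases hi with rfl | ⟨t, rfl⟩
      · left; rfl
      · right; right
        simp [thrLab]
  · rintro (h | h | h)
    · right
      exact ⟨Yc 0, mem_plist.2 (Or.inl rfl), h.symm⟩
    · exact Or.inl h
    · right
      rw [Finset.mem_image] at h
      obtain ⟨t, -, rfl⟩ := h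
      exact ⟨Tc t, mem_plist.2 (Or.inr ⟨t, rfl⟩), rfl⟩

theorem thrLab_ne_last {M N : ℕ} : ∀ i ∈ plist M N, (thrLab i : Lab M (N + 1)) ≠ Lab.last := by
  intro i hi
  rcases mem_plist.1 hi with rfl | ⟨t, rfl⟩ <;> simp [thrLab]

theorem thrLab_inj {M N : ℕ} : ∀ i ∈ plist M N, ∀ j ∈ plist M N,
    (thrLab i : Lab M (N + 1)) = thrLab j → i = j := by
  intro i hi j hj h
  rcases mem_plist.1 hi with rfl | ⟨t, rfl⟩ <;> rcases mem_plist.1 hj with rfl | ⟨t', rfl⟩
  · rfl
  · simp [thrLab] at h
  · simp [thrLab] at h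
  · simp only [thrLab, neg.injEq] at h
    rw [h]

namespace Core

variable {M N : ℕ} (D : Core M N)

/-- the model labels -/
def mod : (Ix M (N + 1) → ℤ) → Lab M (N + 1) :=
  prio Lab.last thrLab (thrFun D.thrT D.thrY) (plist M N)

/-- the box of the count -/
def B₀ : Ix M (N + 1) → ℤ × ℤ := Function.update (D.Eb 0) none (0, 0)

theorem B₀_none : D.B₀ none = (0, 0) := by rw [B₀, Function.update_self]

theorem B₀_T (t : Fin M) : D.B₀ (Tc t) = if t = D.iα then (0, D.K) else (-D.R, D.R) := by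
  rw [B₀, Function.update_of_ne (by simp)]
  rfl

theorem B₀_Y0 : D.B₀ (Yc 0) = (0, D.R) := by
  rw [B₀, Function.update_of_ne (by simp)]
  simp [Eb]

theorem B₀_Y {i : Fin (N + 1)} (hi : i ≠ 0) : D.B₀ (Yc i) = (0, 0) := by
  rw [B₀, Function.update_of_ne (by simp)]
  have : (i : ℕ) ≠ 0 := fun h => hi (Fin.ext h)
  simp [Eb, this]

theorem face_props {c c' : Ix M (N + 1) → ℤ} (hc : c ∈ cells D.B₀) (hf : Face c' c) :
    c' none = 0 ∧ (∀ i, i ≠ 0 → c' (Yc i) = 0) ∧ 0 ≤ c' (Yc 0) ∧ 0 ≤ c' (Tc D.iα) ∧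
      c' (Tc D.iα) ≤ 2 * D.K := by
  have hR := D.hR
  have hK := D.hK
  rw [cells, Fintype.mem_piFinset] at hc
  refine ⟨?_, fun i hi => ?_, ?_, ?_⟩
  · have h := hc none
    rw [B₀_none, vals_self, Finset.mem_singleton] at h
    rw [hf.even (by rw [h]; exact ⟨0, rfl⟩), h]
    rfl
  · have h := hc (Yc i)
    rw [D.B₀_Y hi, vals_self, Finset.mem_singleton] at h
    rw [hf.even (by rw [h]; exact ⟨0, rfl⟩), h]
    rfl
  · have h := hc (Yc 0)
    rw [B₀_Y0, mem_vals_of_ne (by simp only; omega)] at h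
    have h2 := hf.abs_le (Yc 0)
    rw [abs_le] at h2
    simp only at h
    omega
  · have h := hc (Tc D.iα)
    rw [B₀_T, if_pos rfl, mem_vals_of_ne (by simp only; omega)] at h
    have h2 := hf.abs_le (Tc D.iα)
    rw [abs_le] at h2
    simp only at h
    constructor <;> omega

/-- every coordinate crosses its threshold in the cell -/
def Cross (c : Ix M (N + 1) → ℤ) : Prop :=
  (∀ t, ∃ x y, |x - c (Tc t)| ≤ 1 ∧ |y - c (Tc t)| ≤ 1 ∧ D.thrT t x ≠ D.thrT t y) ∧
    ∃ x y, |x - c (Yc 0)| ≤ 1 ∧ |y - c (Yc 0)| ≤ 1 ∧ D.thrY x ≠ D.thrY y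

theorem cross_of_labels {c : Ix M (N + 1) → ℤ}
    (h : ∀ l ∈ insert (e 0 true) (Pset M (N + 1)), ∃ c', Face c' c ∧ D.mod c' = l) :
    D.Cross c := by
  obtain ⟨c₂, hf₂, hl₂⟩ := h Lab.last (by simp [Pset])
  have h2 := prio_eq_last thrLab_ne_last hl₂
  have key : ∀ j ∈ plist M N, ∃ x y, |x - c j| ≤ 1 ∧ |y - c j| ≤ 1 ∧
      thrFun D.thrT D.thrY j x ≠ thrFun D.thrT D.thrY j y := by
    intro j hj
    obtain ⟨c₁, hf₁, hl₁⟩ := h (thrLab j) (by
      rw [← plist_labels]
      apply Finset.mem_insert_of_mem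
      rw [List.mem_toFinset]
      exact List.mem_map_of_mem hj)
    have h1 := prio_eq_lab thrLab_ne_last (fun i hi h => thrLab_inj i hi j hj h)
      (thrLab_ne_last j hj) hl₁
    refine ⟨c₁ j, c₂ j, hf₁.abs_le j, hf₂.abs_le j, ?_⟩
    rw [h1, h2 j hj]
    simp
  exact ⟨fun t => key (Tc t) (mem_plist.2 (Or.inr ⟨t, rfl⟩)), key (Yc 0) (mem_plist.2 (Or.inl rfl))⟩

theorem label_pos {c c' : Ix M (N + 1) → ℤ} (hc : c ∈ cells D.B₀) (hf : Face c' c)
    (ha : 0 < c' (Tc D.ia)) (ho : D.ℓ c' ≠ outer) : D.ℓ c' = D.mod c' := by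
  obtain ⟨h1, h2, h3, h4, h5⟩ := D.face_props hc hf
  rcases D.count_pos c' h1 h2 h3 ha h4 h5 with h | h
  · exact absurd h ho
  · exact h

theorem cell_eq {c : Ix M (N + 1) → ℤ} (hc : c ∈ cells D.B₀) :
    Sd D.ℓ (M + 1) c (insert (e 0 true) (Pset M (N + 1))) =
      Sd D.mod (M + 1) c (insert (e 0 true) (Pset M (N + 1))) := by
  by_cases hcr : D.Cross c
  · obtain ⟨h1, h2, h3, -, -⟩ := D.face_props hc (Face.refl c)
    rw [Sd_congr (M + 1) c fun c' hf => ?_]
    obtain ⟨h4, h5⟩ := D.count_cross c h1 h2 h3 hcr.1 hcr.2 c' hf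
    exact D.label_pos hc hf h5 h4
  · have e1 : Sd D.mod (M + 1) c (insert (e 0 true) (Pset M (N + 1))) = 0 := by
      by_contra hne
      exact hcr (D.cross_of_labels (Sd_support _ _ _ hne).2)
    have e2 : Sd D.ℓ (M + 1) c (insert (e 0 true) (Pset M (N + 1))) = 0 := by
      by_contra hne
      have hl := (Sd_support _ _ _ hne).2
      apply hcr
      apply D.cross_of_labels
      -- the coordinate `a` is positive
      have hodd : Odd (c (Tc D.ia)) := by
        have hR := D.hR
        have := (Fintype.mem_piFinset.1 hc) (Tc D.ia)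
        rw [D.B₀_T, if_neg D.ha, mem_vals_of_ne (by simp only; omega)] at this
        exact this.1
      have hca : 1 ≤ c (Tc D.ia) := by
        obtain ⟨c', hf, hl'⟩ := hl (e 0 true) (Finset.mem_insert_self _ _)
        obtain ⟨h1, h2, h3, h4, h5⟩ := D.face_props hc hf
        have hpos : 0 < c' (Tc D.ia) := by
          rcases lt_trichotomy (c' (Tc D.ia)) 0 with hlt | heq | hgt
          · exact absurd hl' (D.count_neg c' h1 h2 h3 hlt h4 h5 0)
          · rw [D.count_zero c' h1 h2 h3 heq] at hl'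
            exact absurd hl' (by simp)
          · exact hgt
        have h6 := hf.abs_le (Tc D.ia)
        rw [abs_le] at h6
        obtain ⟨k, hk⟩ := hodd
        omega
      intro l hlS
      obtain ⟨c', hf, hl'⟩ := hl l hlS
      refine ⟨c', hf, ?_⟩
      have hno : l ≠ outer := by
        rintro rfl
        simp [Pset] at hlS
      obtain ⟨h1, h2, h3, h4, h5⟩ := D.face_props hc hf
      have hge : 0 ≤ c' (Tc D.ia) := by
        have h6 := hf.abs_le (Tc D.ia)
        rw [abs_le] at h6
        omega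
      rcases hge.lt_or_eq with hlt | heq
      · rw [← D.label_pos hc hf hlt (by rw [hl']; exact hno), hl']
      · have := D.count_zero c' h1 h2 h3 heq.symm
        rw [hl'] at this
        exact absurd this hno
    rw [e1, e2]

theorem count_ne {i : Fin (N + 1)} (hi : i ≠ 0) :
    D.A 0 (insert (e i true) (Pset M (N + 1))) = 0 := by
  by_contra hne
  obtain ⟨-, c, hc, hl⟩ := Tot_support hne
  obtain ⟨c', hf, hl'⟩ := hl (e i true) (Finset.mem_insert_self _ _)
  obtain ⟨h1, h2, h3, h4, h5⟩ := D.face_props hc hf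
  rcases lt_trichotomy (c' (Tc D.ia)) 0 with hlt | heq | hgt
  · exact D.count_neg c' h1 h2 h3 hlt h4 h5 i hl'
  · rw [D.count_zero c' h1 h2 h3 heq] at hl'
    exact absurd hl' (by simp)
  · rw [D.label_pos hc hf hgt (by rw [hl']; simp)] at hl'
    have := prio_mem (last := Lab.last) (lab := thrLab) (thr := thrFun D.thrT D.thrY) (plist M N) c'
    rw [plist_labels] at this
    change D.mod c' ∈ _ at this
    rw [hl'] at this
    simp [Pset, hi] at this

theorem count_zero_eq : D.A 0 (insert (e 0 true) (Pset M (N + 1))) = 1 := by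
  have hR := D.hR
  have hK := D.hK
  have e1 : D.A 0 (insert (e 0 true) (Pset M (N + 1))) =
      Tot D.mod (M + 1) D.B₀ (insert (e 0 true) (Pset M (N + 1))) := by
    rw [A, Tot, Tot, Finset.sum_apply, Finset.sum_apply]
    exact Finset.sum_congr rfl fun c hc => D.cell_eq hc
  rw [e1, ← plist_labels, ← plist_length M N]
  apply count_prio
  · exact plist_nodup M N
  · intro i
    rcases i with _ | t | i
    · rw [D.B₀_none]
    · rw [D.B₀_T]
      split_ifs
      · exact hK.le
      · simp only; omega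
    · by_cases hi : i = 0
      · subst hi
        rw [D.B₀_Y0]
        exact hR.le
      · rw [D.B₀_Y hi]
  · exact thrLab_ne_last
  · exact thrLab_inj
  · ext i
    rw [nondeg, Finset.mem_filter, List.mem_toFinset, mem_plist]
    rcases i with _ | t | i
    · rw [D.B₀_none]
      simp
    · rw [D.B₀_T]
      split_ifs
      · simp only; simp; omega
      · simp only; simp; omega
    · by_cases hi : i = 0
      · subst hi
        rw [D.B₀_Y0]
        simp; omega
      · rw [D.B₀_Y hi]
        simp [hi]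
  · intro i hi
    rcases mem_plist.1 hi with rfl | ⟨t, rfl⟩
    · rw [D.B₀_Y0]
      exact D.thrY_ne
    · rw [D.B₀_T]
      by_cases ht : t = D.iα
      · rw [if_pos ht, ht]
        exact D.thrα_ne
      · rw [if_neg ht]
        exact D.thrT_ne t ht

/-- The combinatorial core. -/
theorem core_false (D : Core M N) : False := by
  obtain ⟨x, hx, hA⟩ := D.exists_x
  have h1 := alpha_zero hx
  rw [← hA] at h1
  rw [Finset.sum_eq_single_of_mem (0 : Fin (N + 1)) (Finset.mem_univ _)
    (fun i _ hi => D.count_ne hi), D.count_zero_eq] at h1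
  exact absurd h1 (by decide)

end Core

end

end Pool.Agent.MP2c15fb
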