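import Pool.Agent.MP_2c15fb_gt.Homotopy

/-!
# The J-lemma
-/

set_option linter.unusedSectionVars false

namespace Pool.Agent.MP2c15fb

open Topology OnePoint unitInterval Filter

noncomputable section

section

variable {A B : Type} [TopologicalSpace A] [TopologicalSpace B]
  [T2Space A] [T2Space B] [LocallyCompactSpace A] [LocallyCompactSpace B]

theorem tendsto_pair_left {α : Type} {l : Filter α} {u : α → OnePoint A}
    (hu : Tendsto u l (𝓝 ∞)) (w : α → OnePoint B) :
    Tendsto (fun a => pair (u a) (w a)) l (𝓝 ∞) := by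
  intro V hV
  have h1 : ∀ᶠ x : OnePoint A in 𝓝 ∞, ∀ y ∈ (Set.univ : Set (OnePoint B)), pair x y ∈ V := by
    apply isCompact_univ.eventually_forall_of_forall_eventually
    intro y _
    have := (continuous_pair (A := A) (B := B)).continuousAt (x := (∞, y))
    apply this
    simpa using hV
  have h2 := hu.eventually h1
  change ∀ᶠ a in l, pair (u a) (w a) ∈ V
  filter_upwards [h2] with a ha
  exact ha _ trivial

end

/-- the domain of the null homotopy `θ` of `ρ` -/
def thetaDom : Set (I × Triv 1) := {p | (p.1 : ℝ) < 1 ∧ 0 < |p.2 0| * (1 - p.1) + p.1}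

/-- the formula for `θ` -/
def thetaFun (p : I × Triv 1) : Triv 1 := fun _ => rho (|p.2 0| + (p.1 : ℝ) / (1 - p.1))

theorem thetaDom_pos {p : I × Triv 1} (hp : p ∈ thetaDom) :
    0 < 1 - (p.1 : ℝ) ∧ 0 < |p.2 0| + (p.1 : ℝ) / (1 - p.1) := by
  have h1 : 0 < 1 - (p.1 : ℝ) := by linarith [hp.1]
  refine ⟨h1, ?_⟩
  have : |p.2 0| + (p.1 : ℝ) / (1 - p.1) = (|p.2 0| * (1 - p.1) + p.1) / (1 - p.1) := by
    field_simp
  rw [this]
  exact div_pos hp.2 h1

theorem continuous_theta : Continuous (openExt thetaDom thetaFun) := by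
  apply continuous_openExt
  · have h1 : IsOpen {p : I × Triv 1 | (p.1 : ℝ) < 1} := isOpen_lt (by fun_prop) (by fun_prop)
    have h2 : IsOpen {p : I × Triv 1 | 0 < |p.2 0| * (1 - p.1) + p.1} :=
      isOpen_lt (by fun_prop) (by fun_prop)
    exact h1.inter h2
  · refine continuousOn_pi.2 fun i => ?_
    unfold thetaFun
    refine continuousOn_rho.comp ?_ fun p hp => (thetaDom_pos hp).2.ne'
    apply ContinuousOn.add
    · fun_prop
    · apply ContinuousOn.div
      · fun_prop
      · fun_prop
      · intro p hp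
        exact (thetaDom_pos hp).1.ne'
  · intro C hC
    obtain ⟨c, hc⟩ := hC.isBounded.exists_norm_le
    set c' := max c 1 with hc'
    have hc1 : 1 ≤ c' := le_max_right _ _
    have hcc : ∀ x ∈ C, ‖x‖ ≤ c' := fun x hx => (hc x hx).trans (le_max_left _ _)
    refine ⟨{p | 1 - (p.1 : ℝ) ≤ (c' + 1) * (|p.2 0| * (1 - p.1) + p.1) ∧
      |p.2 0| * (1 - p.1) + p.1 ≤ (c' + 1) * (1 - p.1)} ∩
      Set.univ ×ˢ Metric.closedBall 0 (c' + 1), ?_, ?_, ?_⟩
    · rintro p ⟨⟨hp1, hp2⟩, -⟩
      have h0 := p.1.2.1
      have h1 := p.1.2.2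
      have hlt : (p.1 : ℝ) < 1 := by
        rcases h1.lt_or_eq with h | h
        · exact h
        · rw [h] at hp2
          norm_num at hp2
      refine ⟨hlt, ?_⟩
      by_contra hcon
      push Not at hcon
      nlinarith
    · apply (isCompact_univ.prod (isCompact_closedBall _ _)).inter_left
      have h1 : IsClosed {p : I × Triv 1 | 1 - (p.1 : ℝ) ≤
          (c' + 1) * (|p.2 0| * (1 - p.1) + p.1)} := isClosed_le (by fun_prop) (by fun_prop)
      have h2 : IsClosed {p : I × Triv 1 | |p.2 0| * (1 - p.1) + p.1 ≤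
          (c' + 1) * (1 - (p.1 : ℝ))} := isClosed_le (by fun_prop) (by fun_prop)
      exact h1.inter h2
    · intro p hp hpC
      have hn := hcc _ hpC
      obtain ⟨hp1, hp2⟩ := thetaDom_pos hp
      have hn1 : |rho (|p.2 0| + (p.1 : ℝ) / (1 - p.1))| ≤ c' :=
        (norm_le_pi_norm (thetaFun p) 0).trans hn
      unfold rho at hn1
      rw [abs_of_pos hp2] at hn1
      obtain ⟨h1, h2⟩ := rho_bounds hp2 hc1 hn1
      have hm : (|p.2 0| + (p.1 : ℝ) / (1 - p.1)) * (1 - p.1) = |p.2 0| * (1 - p.1) + p.1 := by
        field_simp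
      refine ⟨⟨?_, ?_⟩, trivial, ?_⟩
      · rw [← hm]
        nlinarith
      · rw [← hm]
        nlinarith
      · simp only [Metric.mem_closedBall, dist_zero_right]
        rw [pi_norm_le_iff_of_nonneg (by linarith)]
        intro i
        rw [Subsingleton.elim i 0]
        have : 0 ≤ (p.1 : ℝ) / (1 - p.1) := div_nonneg p.1.2.1 hp1.le
        change |p.2 0| ≤ _
        linarith

/-- The map `ρ : (ℝ)⁺ → (ℝ)⁺`. -/
def rhoMap (x : OnePoint (Triv 1)) : OnePoint (Triv 1) :=
  openExt' {a | a 0 ≠ 0} (fun a _ => rho (a 0)) x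

theorem theta_zero (x : OnePoint (Triv 1)) : openExt thetaDom thetaFun (0, x) = rhoMap x := by
  induction x using OnePoint.rec with
  | infty => rfl
  | coe a =>
    by_cases h : a 0 = 0
    · rw [openExt_coe_of_notMem, rhoMap, openExt'_coe_of_notMem]
      · simpa using h
      · rintro ⟨-, h2⟩
        simp [h] at h2
    · rw [openExt_coe_of_mem, rhoMap, openExt'_coe_of_mem]
      · change (((fun _ => rho (|a 0| + ((0 : I) : ℝ) / (1 - ((0 : I) : ℝ)))) : Triv 1) :
          OnePoint (Triv 1)) = (((fun _ => rho (a 0)) : Triv 1) : OnePoint (Triv 1))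
        simp [rho]
      · exact h
      · refine ⟨by simp, by simpa using h⟩

theorem theta_one (x : OnePoint (Triv 1)) : openExt thetaDom thetaFun (1, x) = ∞ := by
  induction x using OnePoint.rec with
  | infty => rfl
  | coe a =>
    rw [openExt_coe_of_notMem]
    rintro ⟨h1, -⟩
    simp at h1

/-- the parameter function -/
def cval (t : I) (a : Triv 1) : I :=
  ⟨(|a 0| - a 0 + t) / (2 * |a 0| + 2 * t), by
    have h0 := t.2.1
    have h1 := le_abs_self (a 0)
    have h2 := neg_abs_le (a 0)
    constructor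
    · apply div_nonneg
      · linarith
      · linarith
    · apply div_le_one_of_le₀
      · linarith
      · linarith⟩

theorem cval_zero_pos {a : Triv 1} (h : 0 < a 0) : cval 0 a = 0 := by
  apply Subtype.ext
  simp [cval, abs_of_pos h]

theorem cval_zero_neg {a : Triv 1} (h : a 0 < 0) : cval 0 a = 1 := by
  apply Subtype.ext
  simp only [cval, abs_of_neg h]
  have : (2 * -a 0 + 2 * ((0 : I) : ℝ)) ≠ 0 := by simp; linarith
  rw [Set.Icc.coe_one, div_eq_one_iff_eq this]
  simp
  ring

theorem cval_continuousAt {t : I} {a : Triv 1} (h : (t, a) ∈ thetaDom) :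
    ContinuousAt (fun p : I × Triv 1 => cval p.1 p.2) (t, a) := by
  rw [ContinuousAt, tendsto_subtype_rng]
  have hne : (2 * |a 0| + 2 * (t : ℝ)) ≠ 0 := by
    intro h0
    have h1 := abs_nonneg (a 0)
    have h2 := t.2.1
    have h3 : |a 0| = 0 := by linarith
    have h4 : (t : ℝ) = 0 := by linarith
    have := h.2
    simp only [h3, h4] at this
    norm_num at this
  have hd : ContinuousAt (fun p : I × Triv 1 =>
      (|p.2 0| - p.2 0 + (p.1 : ℝ)) / (2 * |p.2 0| + 2 * (p.1 : ℝ))) (t, a) := by
    apply ContinuousAt.div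
    · fun_prop
    · fun_prop
    · exact hne
  exact hd

section

variable {K L : Type} [TopologicalSpace K] [TopologicalSpace L]
  [T2Space K] [T2Space L] [LocallyCompactSpace K] [LocallyCompactSpace L] [Invol K] [Invol L]

/-- The function `J`: it is `pair (ρ a) (U₊ k)` for `a > 0` and `pair (ρ a) (U₋ k)` for
`a < 0`. -/
def Jfun (Up Um : OnePoint K → OnePoint L) (x : OnePoint (Triv 1 × K)) : OnePoint (Triv 1 × L) :=
  x.elim ∞ fun p => pair (rhoMap p.1) (if 0 < p.1 0 then Up p.2 else Um p.2)

/-- The homotopy. -/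
def Nfun (h : I × OnePoint K → OnePoint L) (q : I × OnePoint (Triv 1 × K)) :
    OnePoint (Triv 1 × L) :=
  q.2.elim ∞ fun p => pair (openExt thetaDom thetaFun (q.1, p.1)) (h (cval q.1 p.1, p.2))

/-- extension of the parameter function -/
def cext (t : I) (x : OnePoint (Triv 1)) : I := x.elim 0 fun a => cval t a

theorem Nfun_pair {h : I × OnePoint K → OnePoint L} (hi : ∀ t, h (t, ∞) = ∞) (t : I)
    (x : OnePoint (Triv 1)) (y : OnePoint K) :
    Nfun h (t, pair x y) = pair (openExt thetaDom thetaFun (t, x)) (h (cext t x, y)) := by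
  induction x using OnePoint.rec with
  | infty => simp [Nfun]
  | coe a =>
    induction y using OnePoint.rec with
    | infty => simp [Nfun, hi]
    | coe b => rfl

theorem continuous_Nfun {h : I × OnePoint K → OnePoint L} (hc : Continuous h)
    (hi : ∀ t, h (t, ∞) = ∞) : Continuous (Nfun h) := by
  rw [(isQuotientMap_pair I).continuous_iff]
  have : Nfun h ∘ (fun p : I × (OnePoint (Triv 1) × OnePoint K) => (p.1, pair p.2.1 p.2.2)) =
      fun p => pair (openExt thetaDom thetaFun (p.1, p.2.1)) (h (cext p.1 p.2.1, p.2.2)) := by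
    funext p
    exact Nfun_pair hi _ _ _
  rw [this, continuous_iff_continuousAt]
  rintro ⟨t, x, y⟩
  have c1 : ContinuousAt (fun p : I × (OnePoint (Triv 1) × OnePoint K) =>
      openExt thetaDom thetaFun (p.1, p.2.1)) (t, (x, y)) := by
    refine ContinuousAt.comp (g := openExt thetaDom thetaFun) continuous_theta.continuousAt ?_
    fun_prop
  by_cases hinf : openExt thetaDom thetaFun (t, x) = ∞
  · rw [ContinuousAt]
    simp only [hinf, pair_infty_left]
    apply tendsto_pair_left
    rw [ContinuousAt] at c1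
    simpa only [hinf] using c1
  · induction x using OnePoint.rec with
    | infty => exact absurd rfl hinf
    | coe a =>
      by_cases ha : (t, a) ∈ thetaDom
      · have c2 : ContinuousAt (fun p : I × OnePoint (Triv 1) => cext p.1 p.2) (t, (a : OnePoint _))
            := by
          have e := (isOpenEmbedding_idCoe (T := I) (A := Triv 1)).continuousAt_iff
            (g := fun p : I × OnePoint (Triv 1) => cext p.1 p.2) (x := (t, a))
          exact e.1 (cval_continuousAt ha)
        have c3 : ContinuousAt (fun p : I × (OnePoint (Triv 1) × OnePoint K) =>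
            h (cext p.1 p.2.1, p.2.2)) (t, ((a : OnePoint _), y)) := by
          refine ContinuousAt.comp (g := h) hc.continuousAt ?_
          refine ContinuousAt.prodMk ?_ (by fun_prop)
          refine ContinuousAt.comp (g := fun p : I × OnePoint (Triv 1) => cext p.1 p.2)
            (f := fun p : I × (OnePoint (Triv 1) × OnePoint K) => (p.1, p.2.1)) c2 ?_
          fun_prop
        exact ContinuousAt.comp (g := fun p : OnePoint (Triv 1) × OnePoint L => pair p.1 p.2)
          (f := fun p : I × (OnePoint (Triv 1) × OnePoint K) =>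
            (openExt thetaDom thetaFun (p.1, p.2.1), h (cext p.1 p.2.1, p.2.2)))
          continuous_pair.continuousAt (c1.prodMk c3)
      · exact absurd (openExt_coe_of_notMem ha) hinf

/-- If `U₊` and `U₋` are homotopic then `J` is null. -/
theorem null_J {Up Um : OnePoint K → OnePoint L} (h : GHtpy Up Um) :
    ∃ J : PMap (Triv 1 × K) (Triv 1 × L), (∀ x, J x = Jfun Up Um x) ∧ Null J := by
  obtain ⟨H, hc, h0, h1, hi, he⟩ := h
  have hinv : ∀ (t : I) (x : OnePoint (Triv 1 × K)),
      Nfun H (t, opInv x) = opInv (Nfun H (t, x)) := by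
    intro t x
    induction x using OnePoint.rec with
    | infty => rfl
    | coe p =>
      change pair (openExt thetaDom thetaFun (t, p.1)) (H (cval t p.1, opInv p.2)) =
        opInv (pair (openExt thetaDom thetaFun (t, p.1)) (H (cval t p.1, p.2)))
      rw [opInv_pair, he]
      congr 1
      generalize openExt thetaDom thetaFun (t, (p.1 : OnePoint (Triv 1))) = z
      induction z using OnePoint.rec <;> rfl
  refine ⟨⟨⟨fun x => Nfun H (0, x), (continuous_Nfun hc hi).comp (by fun_prop)⟩, rfl,
    fun x => hinv 0 x⟩, fun x => ?_, ?_⟩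
  · change Nfun H (0, x) = _
    induction x using OnePoint.rec with
    | infty => rfl
    | coe p =>
      change pair (openExt thetaDom thetaFun (0, p.1)) (H (cval 0 p.1, p.2)) =
        pair (rhoMap p.1) (if 0 < p.1 0 then Up p.2 else Um p.2)
      rw [theta_zero]
      rcases lt_trichotomy (p.1 0) 0 with hlt | heq | hgt
      · rw [cval_zero_neg hlt, h1, if_neg (by linarith)]
      · have : rhoMap p.1 = ∞ := by
          rw [rhoMap, openExt'_coe_of_notMem]
          simpa using heq
        rw [this]
        simp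
      · rw [cval_zero_pos hgt, h0, if_pos hgt]
  · rw [null_iff]
    refine ⟨Nfun H, continuous_Nfun hc hi, fun x => rfl, fun x => ?_, fun t => rfl,
      fun t x => hinv t x⟩
    induction x using OnePoint.rec with
    | infty => rfl
    | coe p =>
      change pair (openExt thetaDom thetaFun (1, p.1)) (H (cval 1 p.1, p.2)) = ∞
      rw [theta_one, pair_infty_left]

end

end

end Pool.Agent.MP2c15fb
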