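import Pool.Agent.MP_2c15fb_gt.Final

/-!
# The label function on real vectors
-/

set_option linter.unusedSectionVars false

namespace Pool.Agent.MP2c15fb

open Lab Topology Filter

noncomputable section

variable {M N : ℕ}

open Classical in
/-- The label of a point with trivial coordinates `T` and sign coordinates `Y`. -/
def LR (T : Fin M → ℝ) (Y : Fin N → ℝ) : Lab M N :=
  if (∃ t, 2 ≤ |T t|) ∨ (∃ i, 2 ≤ |Y i|) then outer
  else match (List.finRange N).find? (fun i => decide (1 ≤ |Y i|)) with
    | some i => e i (decide (0 < Y i))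
    | none => match (List.finRange M).find? (fun t => decide (T t < 0)) with
      | some t => neg t
      | none => Lab.last

theorem LR_outer {T : Fin M → ℝ} {Y : Fin N → ℝ} (h : (∃ t, 2 ≤ |T t|) ∨ (∃ i, 2 ≤ |Y i|)) :
    LR T Y = outer := by
  rw [LR, if_pos h]

theorem LR_neg (T : Fin M → ℝ) (Y : Fin N → ℝ) : LR T (-Y) = Lab.flip (LR T Y) := by
  unfold LR
  simp only [Pi.neg_apply, abs_neg]
  split_ifs with h
  · rfl
  · cases hf : (List.finRange N).find? (fun i => decide (1 ≤ |Y i|)) with
    | some i =>
      simp only [Lab.flip]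
      have h1 := List.find?_some hf
      rw [decide_eq_true_iff] at h1
      congr 1
      have hne : Y i ≠ 0 := by
        intro h0
        rw [h0] at h1
        norm_num at h1
      rcases lt_or_gt_of_ne hne with h2 | h2
      · simp [h2, h2.le]
      · simp [h2, h2.le]
    | none =>
      cases (List.finRange M).find? (fun t => decide (T t < 0)) <;> rfl

/-- The closed conditions attached to the labels. -/
def Cond (T : Fin M → ℝ) (Y : Fin N → ℝ) : Lab M N → Prop
  | outer => (∃ t, 2 ≤ |T t|) ∨ (∃ i, 2 ≤ |Y i|)
  | Lab.last => (∀ t, 0 ≤ T t) ∧ ∀ i, |Y i| ≤ 1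
  | neg t => T t ≤ 0 ∧ ∀ i, |Y i| ≤ 1
  | e i true => 1 ≤ Y i
  | e i false => Y i ≤ -1

theorem cond_LR (T : Fin M → ℝ) (Y : Fin N → ℝ) : Cond T Y (LR T Y) := by
  unfold LR
  split_ifs with h
  · exact h
  · cases hf : (List.finRange N).find? (fun i => decide (1 ≤ |Y i|)) with
    | some i =>
      have h1 := List.find?_some hf
      rw [decide_eq_true_iff] at h1
      simp only
      rcases le_or_gt (Y i) 0 with h2 | h2
      · rw [decide_eq_false (not_lt.2 h2)]
        rw [abs_of_nonpos h2] at h1
        simp only [Cond]
        linarith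
      · rw [decide_eq_true h2]
        rw [abs_of_pos h2] at h1
        exact h1
    | none =>
      have hY : ∀ i, |Y i| ≤ 1 := by
        intro i
        have := List.find?_eq_none.1 hf i (List.mem_finRange i)
        simp only [decide_eq_true_eq, not_le] at this
        exact this.le
      simp only
      cases hg : (List.finRange M).find? (fun t => decide (T t < 0)) with
      | some t =>
        have h1 := List.find?_some hg
        rw [decide_eq_true_iff] at h1
        exact ⟨h1.le, hY⟩
      | none =>
        refine ⟨fun t => ?_, hY⟩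
        have := List.find?_eq_none.1 hg t (List.mem_finRange t)
        simpa using this

theorem isClosed_cond {P : Type} [TopologicalSpace P] {T : P → Fin M → ℝ} {Y : P → Fin N → ℝ}
    (hT : ∀ t, Continuous fun p => T p t) (hY : ∀ i, Continuous fun p => Y p i) (l : Lab M N) :
    IsClosed {p | Cond (T p) (Y p) l} := by
  rcases l with _ | _ | t | ⟨i, b⟩
  · simp only [Cond, Set.ofPred_or, Set.ofPred_exists]
    apply IsClosed.union
    · apply isClosed_iUnion_of_finite
      intro t
      exact isClosed_le continuous_const (hT t).abs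
    · apply isClosed_iUnion_of_finite
      intro i
      exact isClosed_le continuous_const (hY i).abs
  · simp only [Cond, Set.ofPred_and, Set.ofPred_forall]
    apply IsClosed.inter
    · exact isClosed_iInter fun t => isClosed_le continuous_const (hT t)
    · exact isClosed_iInter fun i => isClosed_le (hY i).abs continuous_const
  · simp only [Cond, Set.ofPred_and, Set.ofPred_forall]
    apply IsClosed.inter
    · exact isClosed_le (hT t) continuous_const
    · exact isClosed_iInter fun i => isClosed_le (hY i).abs continuous_const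
  · cases b
    · exact isClosed_le (hY i) continuous_const
    · exact isClosed_le continuous_const (hY i)

open Classical in
/-- Near every point the labels lie in an admissible set. -/
theorem exists_adm {P : Type} [TopologicalSpace P] {T : P → Fin M → ℝ} {Y : P → Fin N → ℝ}
    (hT : ∀ t, Continuous fun p => T p t) (hY : ∀ i, Continuous fun p => Y p i) (p : P) :
    ∃ S : Finset (Lab M N), Adm S ∧ ∀ᶠ p' in 𝓝 p, LR (T p') (Y p') ∈ S := by
  refine ⟨Finset.univ.filter fun l => Cond (T p) (Y p) l, ⟨fun i => ?_, ?_⟩, ?_⟩
  · rintro ⟨h1, h2⟩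
    rw [Finset.mem_filter] at h1 h2
    have h3 : 1 ≤ Y p i := h1.2
    have h4 : Y p i ≤ -1 := h2.2
    linarith
  · rintro ⟨h1, h2, h3⟩
    rw [Finset.mem_filter] at h1 h2
    obtain ⟨h2a, h2b⟩ := h2.2
    rcases h1.2 with ⟨t, ht⟩ | ⟨i, hi⟩
    · have h4 := h3 t
      rw [Finset.mem_filter] at h4
      have h5 : T p t = 0 := le_antisymm h4.2.1 (h2a t)
      rw [h5] at ht
      norm_num at ht
    · have := h2b i
      linarith
  · have key : ∀ l, ¬ Cond (T p) (Y p) l → ∀ᶠ p' in 𝓝 p, ¬ Cond (T p') (Y p') l := by
      intro l hl
      exact (isClosed_cond hT hY l).isOpen_compl.mem_nhds hl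
    have key2 : ∀ᶠ p' in 𝓝 p, ∀ l, ¬ Cond (T p) (Y p) l → ¬ Cond (T p') (Y p') l := by
      rw [eventually_all]
      intro l
      by_cases h : Cond (T p) (Y p) l
      · exact Eventually.of_forall fun _ h' => absurd h h'
      · filter_upwards [key l h] with p' hp' _ using hp'
    filter_upwards [key2] with p' hp'
    rw [Finset.mem_filter]
    refine ⟨Finset.mem_univ _, ?_⟩
    by_contra hcon
    exact hp' _ hcon (cond_LR _ _)

theorem prio_map_find (la : Lab M (N + 1)) (lab : Ix M (N + 1) → Lab M (N + 1))
    (thr : Ix M (N + 1) → ℤ → Bool) (L : List (Fin M)) (c : Ix M (N + 1) → ℤ) :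
    prio la lab thr (L.map Tc) c = match L.find? (fun t => thr (Tc t) (c (Tc t))) with
      | some t => lab (Tc t)
      | none => la := by
  induction L with
  | nil => rfl
  | cons t L ih =>
    rw [List.map_cons, prio, List.find?_cons]
    cases h : thr (Tc t) (c (Tc t)) with
    | true => simp
    | false => simpa using ih

/-- Comparison of the labels with the labels given by the thresholds. -/
theorem LR_eq_prio {T : Fin M → ℝ} {Y : Fin (N + 1) → ℝ} (hY : ∀ i, i ≠ 0 → Y i = 0)
    (hY0 : 0 ≤ Y 0) {thrT : Fin M → ℤ → Bool} {thrY : ℤ → Bool} {c : Ix M (N + 1) → ℤ}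
    (h0 : thrY (c (Yc 0)) = decide (1 ≤ Y 0))
    (hT : ∀ t, thrT t (c (Tc t)) = decide (T t < 0)) :
    LR T Y = outer ∨ LR T Y = prio Lab.last thrLab (thrFun thrT thrY) (plist M N) c := by
  unfold LR
  split_ifs with h
  · exact Or.inl rfl
  · right
    rw [plist, prio, prio_map_find]
    have e0 : thrFun (N := N) thrT thrY (Yc 0) (c (Yc 0)) = decide (1 ≤ Y 0) := h0
    rw [e0]
    by_cases h1 : 1 ≤ Y 0
    · have hf : (List.finRange (N + 1)).find? (fun i => decide (1 ≤ |Y i|)) = some 0 := by
        rw [List.finRange_succ, List.find?_cons, abs_of_nonneg hY0, decide_eq_true h1]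
      rw [hf, decide_eq_true h1]
      have : 0 < Y 0 := by linarith
      simp [this, thrLab]
    · have hf : (List.finRange (N + 1)).find? (fun i => decide (1 ≤ |Y i|)) = none := by
        rw [List.find?_eq_none]
        intro i _
        rw [decide_eq_true_iff, not_le]
        by_cases hi : i = 0
        · subst hi
          rw [abs_of_nonneg hY0]
          linarith
        · rw [hY i hi]
          norm_num
      rw [hf, decide_eq_false h1]
      simp only [Bool.false_eq_true, if_false]
      have e1 : (fun t => thrFun (N := N) thrT thrY (Tc t) (c (Tc t))) =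
          fun t => decide (T t < 0) := by
        funext t
        exact hT t
      rw [e1]
      cases (List.finRange M).find? (fun t => decide (T t < 0)) <;> rfl

end

end Pool.Agent.MP2c15fb
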