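import Pool.Agent.MP_2c15fb_gt.Count

/-!
# Labels and the algebraic part of the argument
-/

set_option linter.unusedSectionVars false

namespace Pool.Agent.MP2c15fb

/-- The labels. -/
inductive Lab (M N : ℕ) : Type
  | outer : Lab M N
  | last : Lab M N
  | neg (t : Fin M) : Lab M N
  | e (i : Fin N) (b : Bool) : Lab M N
  deriving DecidableEq, Fintype

noncomputable section

namespace Lab

variable {M N : ℕ}

/-- the involution on the labels -/
def flip : Lab M N → Lab M N
  | outer => outer
  | last => last
  | neg t => neg t
  | e i b => e i (!b)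

theorem flip_flip : Function.Involutive (flip : Lab M N → Lab M N) := by
  intro l
  cases l <;> simp [flip]

/-- Admissible sets of labels. -/
def Adm (S : Finset (Lab M N)) : Prop :=
  (∀ i, ¬(e i true ∈ S ∧ e i false ∈ S)) ∧ ¬(outer ∈ S ∧ last ∈ S ∧ ∀ t, neg t ∈ S)

theorem Adm.mono {S T : Finset (Lab M N)} (hT : Adm T) (h : S ⊆ T) : Adm S :=
  ⟨fun i hi => hT.1 i ⟨h hi.1, h hi.2⟩, fun hi => hT.2 ⟨h hi.1, h hi.2.1, fun t => h (hi.2.2 t)⟩⟩

/-- is it one of the labels `e i b`? -/
def isE : Lab M N → Bool
  | e _ _ => true
  | _ => false

theorem card_notE (S : Finset (Lab M N)) (h : ∀ l ∈ S, isE l = false) : S.card ≤ M + 2 := by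
  have : S ⊆ insert outer (insert last (Finset.univ.image neg)) := by
    intro l hl
    have := h l hl
    cases l with
    | outer => simp
    | last => simp
    | neg t => simp
    | e i b => simp [isE] at this
  refine (Finset.card_le_card this).trans ?_
  refine (Finset.card_insert_le _ _).trans ?_
  have h1 := Finset.card_insert_le (last : Lab M N) (Finset.univ.image neg)
  have h2 : (Finset.univ.image (neg : Fin M → Lab M N)).card ≤ M := by
    refine Finset.card_image_le.trans ?_
    simp
  omega

theorem card_notE' (S : Finset (Lab M N)) (h : ∀ l ∈ S, isE l = false) (hS : Adm S) :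
    S.card ≤ M + 1 := by
  by_contra hcon
  have h1 : S ⊆ insert outer (insert last (Finset.univ.image neg)) := by
    intro l hl
    have := h l hl
    cases l with
    | outer => simp
    | last => simp
    | neg t => simp
    | e i b => simp [isE] at this
  have h2 : (insert outer (insert last (Finset.univ.image neg)) : Finset (Lab M N)).card
      ≤ S.card := by
    refine (Finset.card_insert_le _ _).trans ?_
    have h1 := Finset.card_insert_le (last : Lab M N) (Finset.univ.image neg)
    have h2 : (Finset.univ.image (neg : Fin M → Lab M N)).card ≤ M := by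
      refine Finset.card_image_le.trans ?_
      simp
    omega
  have h3 := Finset.eq_of_subset_of_card_le h1 h2
  apply hS.2
  rw [h3]
  refine ⟨by simp, by simp, fun t => by simp⟩

theorem card_adm (S : Finset (Lab M N)) (hS : Adm S) : S.card ≤ M + 1 + N := by
  have h1 : S.card = (S.filter fun l => isE l = false).card +
      (S.filter fun l => ¬ (isE l = false)).card := by
    rw [Finset.card_filter_add_card_filter_not]
  have h2 : (S.filter fun l => isE l = false).card ≤ M + 1 := by
    apply card_notE'
    · intro l hl
      exact (Finset.mem_filter.1 hl).2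
    · exact hS.mono (Finset.filter_subset _ _)
  have h3 : (S.filter fun l => ¬ (isE l = false)).card ≤ N := by
    have hmaps : ∀ l ∈ (S.filter fun l => ¬ (isE l = false)),
        l ∈ (Finset.univ : Finset (Fin N)).image (fun i => e i (decide (e i true ∈ S))) := by
      intro l hl
      rw [Finset.mem_filter] at hl
      cases l with
      | outer => simp [isE] at hl
      | last => simp [isE] at hl
      | neg t => simp [isE] at hl
      | e i b =>
        rw [Finset.mem_image]
        refine ⟨i, Finset.mem_univ _, ?_⟩
        congr 1
        cases b with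
        | true => simp [hl.1]
        | false =>
          rw [decide_eq_false_iff_not]
          intro h
          exact hS.1 i ⟨h, hl.1⟩
    refine (Finset.card_le_card hmaps).trans (Finset.card_image_le.trans ?_)
    simp
  omega

theorem flip_ne {S : Finset (Lab M N)} (hS : Adm S) (hc : M + 3 ≤ S.card) : S.image flip ≠ S := by
  have : ∃ l ∈ S, isE l = true := by
    by_contra hcon
    push Not at hcon
    have := card_notE S (fun l hl => by simpa using hcon l hl)
    omega
  obtain ⟨l, hl, hlE⟩ := this
  intro h
  cases l with
  | outer => simp [isE] at hlE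
  | last => simp [isE] at hlE
  | neg t => simp [isE] at hlE
  | e i b =>
    have h2 : e i (!b) ∈ S := by
      rw [← h, Finset.mem_image]
      exact ⟨e i b, hl, rfl⟩
    cases b with
    | true => exact hS.1 i ⟨hl, h2⟩
    | false => exact hS.1 i ⟨h2, hl⟩

end Lab

open Lab

variable {M N : ℕ}

/-- Chains. -/
abbrev Ch (M N : ℕ) := Finset (Lab M N) → ZMod 2

/-- chains supported on admissible sets of cardinality `k` -/
def Supp (k : ℕ) (x : Ch M N) : Prop := ∀ S, x S ≠ 0 → Adm S ∧ S.card = k

theorem Supp.add {k : ℕ} {x y : Ch M N} (hx : Supp k x) (hy : Supp k y) : Supp k (x + y) := by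
  intro S hS
  by_cases h : x S = 0
  · apply hy
    intro h'
    apply hS
    rw [Pi.add_apply, h, h', add_zero]
  · exact hx S h

theorem Supp.bd {k : ℕ} {x : Ch M N} (hx : Supp (k + 1) x) : Supp k (bd x) := by
  intro S hS
  rw [bd_apply] at hS
  obtain ⟨l, hl, hne⟩ := Finset.exists_ne_zero_of_sum_ne_zero hS
  obtain ⟨h1, h2⟩ := hx _ hne
  refine ⟨h1.mono (Finset.subset_insert _ _), ?_⟩
  rw [Finset.mem_compl] at hl
  rw [Finset.card_insert_of_notMem hl] at h2
  omega

theorem Supp.zero {k : ℕ} : Supp k (0 : Ch M N) := by
  intro S hS
  exact absurd rfl hS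

/-- Invariant chains on which the flip acts freely. -/
theorem exists_half {k : ℕ} (hk : M + 3 ≤ k) {y : Ch M N} (hy : Supp k y)
    (hinv : push Lab.flip y = y) : ∃ x : Ch M N, Supp k x ∧ y = x + push Lab.flip x := by
  let enc := Fintype.equivFin (Finset (Lab M N))
  refine ⟨fun S => if enc S < enc (S.image Lab.flip) then y S else 0, ?_, ?_⟩
  · intro S hS
    simp only at hS
    split_ifs at hS with h
    · exact hy S hS
    · exact absurd rfl hS
  · funext S
    have hyS : y (S.image Lab.flip) = y S := by
      have := congrFun hinv S
      rwa [push_apply] at this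
    have hSS : (S.image Lab.flip).image Lab.flip = S := by
      rw [Finset.image_image]
      have : (Lab.flip : Lab M N → Lab M N) ∘ Lab.flip = id := by
        funext x
        exact flip_flip x
      rw [this, Finset.image_id]
    rw [Pi.add_apply, push_apply, hSS, hyS]
    by_cases h0 : y S = 0
    · simp [h0]
    · obtain ⟨h1, h2⟩ := hy S h0
      have h3 := flip_ne h1 (by omega)
      have h4 : enc S ≠ enc (S.image Lab.flip) := fun h => h3 (enc.injective h).symm
      rcases lt_or_gt_of_ne h4 with h5 | h5
      · rw [if_pos h5, if_neg (by exact h5.asymm), add_zero]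
      · rw [if_neg (by exact h5.asymm), if_pos h5, zero_add]

/-- The algebraic part of the argument. -/
theorem descend (E : ℕ → Ch M (N + 1)) (A : Ch M (N + 1))
    (hE : ∀ k ≤ N, Supp (M + k + 3) (E k)) (h0 : bd (E 0) = A)
    (hstep : ∀ k < N, bd (E (k + 1)) = E k + push Lab.flip (E k)) :
    ∃ x : Ch M (N + 1), Supp (M + 3) x ∧ A = bd x + push Lab.flip (bd x) := by
  have key : ∀ m k, k + m = N → ∃ x x' : Ch M (N + 1), Supp (M + k + 3) x ∧
      E k + bd x' = x + push Lab.flip x := by
    intro m
    induction m with
    | zero =>
      intro k hk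
      refine ⟨0, 0, Supp.zero, ?_⟩
      have : E k = 0 := by
        funext S
        by_contra hne
        obtain ⟨h1, h2⟩ := hE k (by omega) S hne
        have := card_adm S h1
        omega
      rw [this]
      simp
    | succ m ih =>
      intro k hk
      obtain ⟨x, x', hx, hxe⟩ := ih (k + 1) (by omega)
      have h1 : bd (E (k + 1)) = bd x + push Lab.flip (bd x) := by
        have := congrArg bd hxe
        rw [map_add, map_add, bd_bd, add_zero, ← push_bd flip_flip] at this
        exact this
      rw [hstep k (by omega)] at h1
      have hy : Supp (M + k + 3) (E k + bd x) := by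
        apply Supp.add (hE k (by omega))
        apply Supp.bd
        have : M + k + 3 + 1 = M + (k + 1) + 3 := by ring
        rwa [this]
      have hinv : push Lab.flip (E k + bd x) = E k + bd x := by
        rw [map_add]
        have h2 := chain_add_self (E k)
        have h3 := chain_add_self (push Lab.flip (bd x))
        calc push Lab.flip (E k) + push Lab.flip (bd x)
            = (E k + E k) + push Lab.flip (E k) + push Lab.flip (bd x) := by rw [h2, zero_add]
          _ = E k + (E k + push Lab.flip (E k)) + push Lab.flip (bd x) := by abel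
          _ = E k + (bd x + push Lab.flip (bd x)) + push Lab.flip (bd x) := by rw [h1]
          _ = E k + bd x + (push Lab.flip (bd x) + push Lab.flip (bd x)) := by abel
          _ = _ := by rw [h3, add_zero]
      obtain ⟨z, hz, hze⟩ := exists_half (by omega) hy hinv
      exact ⟨z, x, hz, hze⟩
  obtain ⟨x, x', hx, hxe⟩ := key N 0 (by omega)
  refine ⟨x, by simpa using hx, ?_⟩
  have := congrArg bd hxe
  rw [map_add, map_add, bd_bd, add_zero, ← push_bd flip_flip, h0] at this
  exact this

/-- the set of labels `last` and `neg t` -/
def Pset (M N : ℕ) : Finset (Lab M N) := insert Lab.last (Finset.univ.image Lab.neg)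

theorem flip_Pset (i : Fin N) : (insert (e i true) (Pset M N)).image Lab.flip =
    insert (e i false) (Pset M N) := by
  rw [Finset.image_insert]
  have h1 : (Pset M N).image Lab.flip = Pset M N := by
    rw [Pset, Finset.image_insert, Finset.image_image]
    rfl
  rw [h1]
  rfl

theorem alpha_zero {k : ℕ} {x : Ch M N} (hx : Supp k x) :
    ∑ i, (bd x + push Lab.flip (bd x)) (insert (e i true) (Pset M N)) = 0 := by
  have h1 : bd (bd x) (Pset M N) = 0 := by rw [bd_bd]; rfl
  have hcompl : (Pset M N)ᶜ = insert outer (Finset.univ.image fun p : Fin N × Bool => e p.1 p.2) := by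
    ext l
    rw [Finset.mem_compl, Pset]
    cases l <;> simp
  rw [bd_apply, hcompl, Finset.sum_insert (by simp), Finset.sum_image, Fintype.sum_prod_type] at h1
  · have h2 : bd x (insert outer (Pset M N)) = 0 := by
      rw [bd_apply]
      apply Finset.sum_eq_zero
      intro l _
      by_contra hne
      refine (hx _ hne).1.2 ⟨by simp, by simp [Pset], fun t => by simp [Pset]⟩
    rw [h2, zero_add] at h1
    rw [← h1]
    apply Finset.sum_congr rfl
    intro i _
    rw [Pi.add_apply, push_apply, flip_Pset, Fintype.sum_bool]
  · rintro ⟨i, b⟩ _ ⟨i', b'⟩ _ h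
    simp only [e.injEq] at h
    rw [h.1, h.2]

end

end Pool.Agent.MP2c15fb
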