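import Pool.Agent.MP_2c15fb_gt.Ext

/-! # The map `f` -/

set_option linter.unusedSectionVars false

namespace Pool.Agent.MP2c15fb

open Topology OnePoint

noncomputable section

/-- `1 - Re w`. -/
def omr (m : Mb) : ℝ := 1 - m.1.1.re

theorem Mb.norm_sq (m : Mb) : m.1.1.re ^ 2 + m.1.1.im ^ 2 = 1 := by
  have h := m.2.1
  have h2 : ‖m.1.1‖ ^ 2 = 1 := by rw [h]; norm_num
  rw [← Complex.normSq_eq_norm_sq, Complex.normSq_apply] at h2
  nlinarith [h2]

theorem Mb.re_eq (m : Mb) : m.1.2.re ^ 2 - m.1.2.im ^ 2 =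
    (m.1.2.re ^ 2 + m.1.2.im ^ 2) * m.1.1.re := by
  have h := congrArg Complex.re m.2.2
  have h2 : ((‖m.1.2‖ : ℂ)) ^ 2 = ((m.1.2.re ^ 2 + m.1.2.im ^ 2 : ℝ) : ℂ) := by
    rw [← Complex.ofReal_pow, ← Complex.normSq_eq_norm_sq, Complex.normSq_apply]
    push_cast
    ring
  rw [h2, Complex.re_ofReal_mul] at h
  rw [← h, sq m.1.2, Complex.mul_re]
  ring

theorem Mb.two_im_sq (m : Mb) : (m.1.2.re ^ 2 + m.1.2.im ^ 2) * omr m = 2 * m.1.2.im ^ 2 := by
  have := m.re_eq
  unfold omr
  linarith

theorem Mb.omr_nonneg (m : Mb) : 0 ≤ omr m := by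
  have := m.norm_sq
  unfold omr
  nlinarith [sq_nonneg m.1.1.im, sq_nonneg (m.1.1.re - 1)]

theorem continuous_omr : Continuous omr := by
  unfold omr
  exact continuous_const.sub (Complex.continuous_re.comp
    (continuous_fst.comp continuous_subtype_val))

/-- the domain of `p₀` -/
def p₀dom : Set Mb := {m | 0 < omr m}

/-- the formula for `p₀` -/
def p₀fun (m : Mb) : Triv 2 := ![m.1.1.im / omr m, m.1.2.im / omr m]

theorem continuous_p₀ : Continuous (openExt' p₀dom p₀fun) := by
  have c1 : Continuous (fun m : Mb => m.1.1.im) := (Complex.continuous_im.comp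
    (continuous_fst.comp continuous_subtype_val))
  have c2 : Continuous (fun m : Mb => m.1.2.im) := (Complex.continuous_im.comp
    (continuous_snd.comp continuous_subtype_val))
  apply continuous_openExt'
  · exact isOpen_lt continuous_const continuous_omr
  · refine continuousOn_pi.2 fun i => ?_
    have hne : ∀ m ∈ p₀dom, omr m ≠ 0 := fun m hm => ne_of_gt hm
    fin_cases i
    · exact c1.continuousOn.div continuous_omr.continuousOn hne
    · exact c2.continuousOn.div continuous_omr.continuousOn hne
  · intro C hC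
    obtain ⟨c, hc⟩ := hC.isBounded.exists_norm_le
    have hcc : ∀ x ∈ C, ∀ i : Fin 2, |x i| ≤ max c 1 := fun x hx i =>
      (norm_le_pi_norm x i).trans ((hc x hx).trans (le_max_left _ _))
    set c' := max c 1 with hc'
    have hc1 : 1 ≤ c' := le_max_right _ _
    set δ : ℝ := 2 / (1 + c' ^ 2) with hδ
    have hδpos : 0 < δ := by positivity
    let K' : Set (ℂ × ℂ) := {p | p.1.re ≤ 1 - δ} ∩ Metric.closedBall 0 1 ×ˢ
      Metric.closedBall 0 (c' ^ 2 * 8 / δ + 1)
    have hK' : IsCompact K' := by
      apply IsCompact.inter_left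
      · exact (isCompact_closedBall _ _).prod (isCompact_closedBall _ _)
      · exact isClosed_le (by fun_prop) (by fun_prop)
    refine ⟨Subtype.val ⁻¹' K', ?_, isClosed_Mb.isClosedEmbedding_subtypeVal.isCompact_preimage hK',
      ?_⟩
    · intro m hm
      have : m.1.1.re ≤ 1 - δ := hm.1
      change 0 < omr m
      unfold omr
      linarith
    · intro m hm hmC
      have h0 := hcc _ hmC 0
      have h1 := hcc _ hmC 1
      have hpos : 0 < omr m := hm
      simp only [p₀fun, Matrix.cons_val_zero, Matrix.cons_val_one] at h0 h1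
      rw [abs_div, abs_of_pos hpos, div_le_iff₀ hpos] at h0 h1
      have hn := m.norm_sq
      have ht := m.two_im_sq
      have hr : m.1.1.re = 1 - omr m := by unfold omr; ring
      have hom2 : omr m ≤ 2 := by
        nlinarith [sq_nonneg m.1.1.im, sq_nonneg (m.1.1.re + 1)]
      have h0' : m.1.1.im ^ 2 ≤ (c' * omr m) ^ 2 := by
        rw [← sq_abs]
        exact pow_le_pow_left₀ (abs_nonneg _) h0 2
      have h1' : m.1.2.im ^ 2 ≤ (c' * omr m) ^ 2 := by
        rw [← sq_abs]
        exact pow_le_pow_left₀ (abs_nonneg _) h1 2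
      have hge : δ ≤ omr m := by
        rw [hδ, div_le_iff₀ (by positivity)]
        rw [hr] at hn
        have : omr m * (2 - omr m) ≤ omr m * (c' ^ 2 * omr m) := by nlinarith
        have := le_of_mul_le_mul_left this hpos
        nlinarith
      refine ⟨?_, ?_, ?_⟩
      · change m.1.1.re ≤ 1 - δ
        linarith
      · simp [m.2.1]
      · simp only [Metric.mem_closedBall, dist_zero_right]
        have hv : ‖m.1.2‖ ^ 2 = m.1.2.re ^ 2 + m.1.2.im ^ 2 := by
          rw [← Complex.normSq_eq_norm_sq, Complex.normSq_apply]; ring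
        have hb : ‖m.1.2‖ ^ 2 * δ ≤ c' ^ 2 * 8 := by
          calc ‖m.1.2‖ ^ 2 * δ ≤ ‖m.1.2‖ ^ 2 * omr m := by gcongr
            _ = 2 * m.1.2.im ^ 2 := by rw [hv, ht]
            _ ≤ 2 * (c' * omr m) ^ 2 := by linarith
            _ ≤ 2 * (c' * 2) ^ 2 := by gcongr
            _ = c' ^ 2 * 8 := by ring
        have hb2 : ‖m.1.2‖ ^ 2 ≤ c' ^ 2 * 8 / δ := by rwa [le_div_iff₀ hδpos]
        nlinarith [norm_nonneg m.1.2, sq_nonneg (‖m.1.2‖ - 1)]

/-- The pinch map `Mb⁺ → (ℝ²)⁺`. -/
def p₀ : PMap Mb (Triv 2) where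
  map := ⟨openExt' p₀dom p₀fun, continuous_p₀⟩
  prop := by
    refine ⟨rfl, fun x => ?_⟩
    induction x using OnePoint.rec with
    | infty => rfl
    | coe m =>
      simp only [ContinuousMap.coe_mk, opInv_coe]
      change openExt' p₀dom p₀fun m = _
      by_cases hm : m ∈ p₀dom
      · rw [openExt'_coe_of_mem hm]; rfl
      · rw [openExt'_coe_of_notMem hm]; rfl

/-- `ρ(r) = |r| - 1 / |r|`. -/
def rho (r : ℝ) : ℝ := |r| - |r|⁻¹

theorem rho_bounds {r c : ℝ} (hr : 0 < r) (hc : 1 ≤ c) (h : |r - r⁻¹| ≤ c) :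
    1 ≤ (c + 1) * r ∧ r ≤ c + 1 := by
  rw [abs_le] at h
  have h1 : r * r⁻¹ = 1 := mul_inv_cancel₀ hr.ne'
  have hi : 0 < r⁻¹ := inv_pos.2 hr
  constructor
  · by_contra hcon
    push Not at hcon
    have : r < 1 := by nlinarith
    nlinarith
  · by_contra hcon
    push Not at hcon
    have : 1 < r := by linarith
    nlinarith

/-- the domain of `Q` -/
def Qdom : Set (V 1) := {p | p.1 0 ≠ 0}

/-- the formula for `Q` -/
def Qfun (p : V 1) : V 1 :=
  (fun _ => rho (p.1 0), if 0 < p.1 0 then p.2 else fun i => (starRingEnd ℂ) (p.2 i))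

theorem continuousOn_rho : ContinuousOn rho {r | r ≠ 0} := by
  unfold rho
  apply ContinuousOn.sub
  · fun_prop
  · apply ContinuousOn.inv₀
    · fun_prop
    · intro r hr
      simpa using hr

theorem continuous_Q : Continuous (openExt' Qdom Qfun) := by
  have hUo : IsOpen Qdom := isOpen_ne_fun (by fun_prop) (by fun_prop)
  apply continuous_openExt'
  · exact hUo
  · unfold Qfun
    apply ContinuousOn.prodMk
    · refine continuousOn_pi.2 fun i => ?_
      refine continuousOn_rho.comp (by fun_prop) fun p hp => hp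
    · intro p hp
      rcases lt_or_gt_of_ne hp with h | h
      · have : ∀ᶠ q in 𝓝 p, (if 0 < q.1 0 then q.2 else fun i => (starRingEnd ℂ) (q.2 i)) =
            fun i => (starRingEnd ℂ) (q.2 i) := by
          have h1 : ∀ᶠ q : V 1 in 𝓝 p, q.1 0 < 0 :=
            (show Continuous (fun q : V 1 => q.1 0) by fun_prop).continuousAt.eventually_lt
              continuousAt_const h
          filter_upwards [h1] with q hq
          rw [if_neg (by linarith)]
        refine ContinuousAt.continuousWithinAt ?_
        refine ContinuousAt.congr ?_ (Filter.EventuallyEq.symm this)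
        fun_prop
      · have : ∀ᶠ q in 𝓝 p, (if 0 < q.1 0 then q.2 else fun i => (starRingEnd ℂ) (q.2 i)) =
            q.2 := by
          have h1 : ∀ᶠ q : V 1 in 𝓝 p, 0 < q.1 0 :=
            continuousAt_const.eventually_lt
              (show Continuous (fun q : V 1 => q.1 0) by fun_prop).continuousAt h
          filter_upwards [h1] with q hq
          rw [if_pos hq]
        refine ContinuousAt.continuousWithinAt ?_
        refine ContinuousAt.congr ?_ (Filter.EventuallyEq.symm this)
        fun_prop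
  · intro C hC
    obtain ⟨c, hc⟩ := hC.isBounded.exists_norm_le
    set c' := max c 1 with hc'
    have hc1 : 1 ≤ c' := le_max_right _ _
    have hcc : ∀ x ∈ C, ‖x‖ ≤ c' := fun x hx => (hc x hx).trans (le_max_left _ _)
    refine ⟨{p | 1 ≤ (c' + 1) * |p.1 0|} ∩ Metric.closedBall 0 (c' + 1), ?_, ?_, ?_⟩
    · rintro p ⟨hp, -⟩ h0
      simp only [Set.mem_ofPred_eq, h0, abs_zero, mul_zero] at hp
      linarith
    · apply (isCompact_closedBall _ _).inter_left
      exact isClosed_le (by fun_prop) (by fun_prop)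
    · intro p hp hpC
      have hn := hcc _ hpC
      have hn1 : |rho (p.1 0)| ≤ c' :=
        (norm_le_pi_norm (Qfun p).1 0).trans ((norm_fst_le _).trans hn)
      have hn2 : ‖(Qfun p).2‖ ≤ c' := (norm_snd_le _).trans hn
      have hpos : 0 < |p.1 0| := abs_pos.2 hp
      obtain ⟨h1, h2⟩ := rho_bounds hpos hc1 hn1
      refine ⟨h1, ?_⟩
      simp only [Metric.mem_closedBall, dist_zero_right]
      rw [Prod.norm_def, max_le_iff]
      constructor
      · rw [pi_norm_le_iff_of_nonneg (by linarith)]
        intro i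
        rw [Subsingleton.elim i 0]
        exact h2
      · refine le_trans ?_ (hn2.trans (by linarith))
        have : ∀ i, ‖(Qfun p).2 i‖ = ‖p.2 i‖ := by
          intro i
          unfold Qfun
          split_ifs
          · rfl
          · simp
        rw [pi_norm_le_iff_of_nonneg (norm_nonneg _)]
        intro i
        rw [← this]
        exact norm_le_pi_norm _ _

/-- The map `Q : (V 1)⁺ → (V 1)⁺` representing the class of the free orbit in the Burnside ring. -/
def Q : PMap (V 1) (V 1) where
  map := ⟨openExt' Qdom Qfun, continuous_Q⟩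
  prop := by
    refine ⟨rfl, fun x => ?_⟩
    induction x using OnePoint.rec with
    | infty => rfl
    | coe p =>
      simp only [ContinuousMap.coe_mk, opInv_coe]
      by_cases hp : p ∈ Qdom
      · have hp' : inv p ∈ Qdom := hp
        rw [openExt'_coe_of_mem hp, openExt'_coe_of_mem hp', opInv_coe]
        congr 1
        apply Prod.ext
        · rfl
        · funext i
          simp only [Qfun, inv_prod, inv_Triv, inv_CSgn]
          split_ifs
          · rfl
          · simp
      · have hp' : inv p ∉ Qdom := hp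
        rw [openExt'_coe_of_notMem hp, openExt'_coe_of_notMem hp']
        rfl

/-- The map `f = Q ∧ (id ∧ p₀)`. -/
def f : PMap (V 1 × X) (V 1 × Y) := smash Q (smash (PMap.id RSgn) p₀)

end

end Pool.Agent.MP2c15fb
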