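import Pool.Agent.MP_2c15fb_gt.CountAn

/-!
# The map `f` is not stably null
-/

set_option linter.unusedSectionVars false

namespace Pool.Agent.MP2c15fb

open Lab Topology Filter OnePoint unitInterval

noncomputable section

/-- the time parameter -/
def tm (r : ℝ) : I := Set.projIcc 0 1 zero_le_one r

theorem continuous_tm : Continuous tm := continuous_projIcc (h := zero_le_one)

theorem tm_zero : tm 0 = 0 := Set.projIcc_left (h := zero_le_one)

theorem tm_one : tm 1 = 1 := Set.projIcc_right (h := zero_le_one)

variable {n : ℕ}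

theorem exists_R {H : I × OnePoint (Zs n) → OnePoint (Zt n)} (hc : Continuous H)
    (hi : ∀ t, H (t, ∞) = ∞) : ∃ R₀ : ℕ, 1 ≤ R₀ ∧ ∀ (t : I) (z : Zs n), (R₀ : ℝ) ≤ Nz z →
      LO (H (t, (z : OnePoint (Zs n)))) = outer := by
  have h1 : ∀ᶠ p : OnePoint (Zs n) in 𝓝 ∞, ∀ t ∈ (Set.univ : Set I), LO (H (t, p)) = outer := by
    apply isCompact_univ.eventually_forall_of_forall_eventually
    intro t _
    have hcont : Tendsto (fun z : OnePoint (Zs n) × I => H (z.2, z.1)) (𝓝 (∞, t)) (𝓝 ∞) := by
      have : Continuous (fun z : OnePoint (Zs n) × I => H (z.2, z.1)) :=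
        hc.comp (continuous_snd.prodMk continuous_fst)
      have h2 := this.tendsto (∞, t)
      simpa [hi] using h2
    exact hcont.eventually LO_near_infty
  rw [OnePoint.nhds_infty_eq, eventually_sup, eventually_map] at h1
  obtain ⟨h1, -⟩ := h1
  rw [Filter.Eventually, (Filter.hasBasis_coclosedCompact).mem_iff] at h1
  obtain ⟨C, ⟨-, hC⟩, hsub⟩ := h1
  obtain ⟨B, hB⟩ := hC.exists_bound_of_continuousOn (f := Nz) continuous_Nz.continuousOn
  obtain ⟨R₀, hR₀⟩ := exists_nat_gt B
  refine ⟨R₀ + 1, by omega, fun t z hz => ?_⟩
  have : z ∈ Cᶜ := by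
    intro hzC
    have := hB z hzC
    rw [Real.norm_eq_abs] at this
    have h2 := le_abs_self (Nz z)
    push_cast at hz
    linarith
  exact hsub this t trivial

/-- The map is not null at any stage. -/
theorem not_null (n : ℕ) : ¬ Null (smash (PMap.id (V n)) f) := by
  intro hnull
  rw [null_iff] at hnull
  obtain ⟨H, hc, h0, h1, hi, he⟩ := hnull
  obtain ⟨R₀, hR₀, hout⟩ := exists_R hc hi
  let Ψ : (Ix (n + 3) (n + n + 2 + 1) → ℝ) → OnePoint (Zt n) := fun x =>
    H (tm (x none), (src n x : OnePoint (Zs n)))
  have hΨ : Continuous Ψ := hc.comp ((continuous_tm.comp (continuous_apply _)).prodMk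
    (OnePoint.continuous_coe.comp (continuous_src n)))
  -- Lebesgue number
  have hleb : ∃ δ > 0, ∀ x ∈ Metric.closedBall (0 : Ix (n + 3) (n + n + 2 + 1) → ℝ) R₀,
      ∃ S : {S : Finset (Lab (n + 3) (n + n + 2 + 1)) // Adm S},
        Metric.ball x δ ⊆ interior {x' | LO (Ψ x') ∈ S.1} := by
    apply lebesgue_number_lemma_of_metric (isCompact_closedBall _ _)
    · intro S
      exact isOpen_interior
    · intro x _
      obtain ⟨S, hS, hev⟩ := exists_adm_LO (Ψ x)
      rw [Set.mem_iUnion]
      refine ⟨⟨S, hS⟩, ?_⟩
      rw [mem_interior_iff_mem_nhds]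
      exact hΨ.continuousAt.eventually hev
  obtain ⟨δ, hδ, hleb⟩ := hleb
  obtain ⟨K₀, hK₀⟩ := exists_nat_gt (1 / δ)
  let K : ℤ := K₀ + 4
  have hK4 : 4 ≤ K := by
    have : (0 : ℤ) ≤ K₀ := Int.natCast_nonneg _
    omega
  have hK0 : 0 < K := by omega
  have hKr : (0 : ℝ) < K := by exact_mod_cast hK0
  have hmesh : 1 / (2 * (K : ℝ)) < δ := by
    rw [div_lt_iff₀ (by positivity)]
    rw [div_lt_iff₀ hδ] at hK₀
    have : (K : ℝ) = K₀ + 4 := by simp [K]
    rw [this]
    nlinarith
  have hR₀' : (1 : ℝ) ≤ R₀ := by exact_mod_cast hR₀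
  have hR₀z : (1 : ℤ) ≤ R₀ := by exact_mod_cast hR₀
  have hpt : ∀ (c : Ix (n + 3) (n + n + 2 + 1) → ℤ) (i : Ix (n + 3) (n + n + 2 + 1)),
      |c i| = 2 * (K * R₀) → |pt K c i| = R₀ := by
    intro c i h
    rw [pt, abs_div, abs_of_pos (by positivity : (0 : ℝ) < 2 * K)]
    have : |(c i : ℝ)| = 2 * (K * R₀) := by exact_mod_cast h
    rw [this]
    field_simp
  have habs : ∀ x : ℤ, (x = 2 * (K * R₀) ∨ x = 2 * -(K * R₀)) → |x| = 2 * (K * R₀) := by
    rintro x (h | h)
    · rw [h, abs_of_nonneg (by positivity)]
    · rw [h]
      have : 2 * -(K * (R₀ : ℤ)) = -(2 * (K * R₀)) := by ring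
      rw [this, abs_neg, abs_of_nonneg (by positivity)]
  have hzero : ∀ c : Ix (n + 3) (n + n + 2 + 1) → ℤ, c none = 0 →
      Ψ (pt K c) = Fn n (src n (pt K c)) := by
    intro c hcn
    change H (tm (pt K c none), _) = _
    have : pt K c none = 0 := by simp [pt, hcn]
    rw [this, tm_zero, h0]
    rfl
  let D : Core (n + 3) (n + n + 2) :=
    { ia := 0
      iα := Fin.succ 0
      iβ := Fin.succ (Fin.succ 0)
      ha := ne01
      hβ := ne12.symm
      R := K * R₀
      K := K
      hR := by positivity
      hK := hK0
      ℓ := fun c => LO (Ψ (pt K c))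
      adm := by
        intro c hbox
        have hmem : pt K c ∈ Metric.closedBall (0 : Ix (n + 3) (n + n + 2 + 1) → ℝ) R₀ := by
          rw [mem_closedBall_zero_iff, pi_norm_le_iff_of_nonneg (by positivity)]
          have hb1 : ∀ i, 0 ≤ c i → c i ≤ 2 * K → ‖pt K c i‖ ≤ R₀ := by
            intro i hi0 hi1
            have e1 : (0 : ℝ) ≤ c i := by exact_mod_cast hi0
            have e2 : (c i : ℝ) ≤ 2 * K := by exact_mod_cast hi1
            rw [pt, Real.norm_eq_abs, abs_of_nonneg (by positivity)]
            refine le_trans ?_ hR₀'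
            rwa [div_le_one (by positivity)]
          have hb2 : ∀ i, |c i| ≤ 2 * (K * R₀) → ‖pt K c i‖ ≤ R₀ := by
            intro i hi0
            have e1 : |(c i : ℝ)| ≤ 2 * (K * R₀) := by exact_mod_cast hi0
            rw [pt, Real.norm_eq_abs, abs_div, abs_of_pos (by positivity : (0 : ℝ) < 2 * K),
              div_le_iff₀ (by positivity)]
            linarith
          intro i
          rcases i with _ | t | i
          · exact hb1 _ hbox.1.1 hbox.1.2
          · by_cases ht : t = Fin.succ 0
            · subst ht
              exact hb1 _ hbox.2.1.1 hbox.2.1.2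
            · exact hb2 _ (hbox.2.2.1 t ht)
          · exact hb2 _ (hbox.2.2.2 i)
        obtain ⟨S, hS⟩ := hleb _ hmem
        refine ⟨S.1, S.2, fun c' hf => ?_⟩
        have hd : pt K c' ∈ Metric.ball (pt K c) δ := lt_of_le_of_lt (pt_face hK0 hf) hmesh
        have h5 := hS hd
        exact (interior_subset (s := {x' | LO (Ψ x') ∈ S.1}) h5)
      equiv := by
        intro c
        change LO (H (tm (pt K _ none), (src n (pt K _) : OnePoint (Zs n)))) =
          Lab.flip (LO (H (tm (pt K c none), (src n (pt K c) : OnePoint (Zs n)))))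
        have : pt K (aff (epsNeg (n + 3) (n + n + 2 + 1)) 0 c) none = pt K c none := by
          simp [pt, aff, epsNeg]
        rw [src_neg, this, ← opInv_coe, he, LO_opInv]
      outerT := by
        intro c t ht h
        apply hout
        rw [← hpt c (Tc t) (habs _ h)]
        exact abs_le_Nz_T _ t ht
      outerY := by
        intro c i h
        apply hout
        rw [← hpt c (Yc i) (habs _ h)]
        exact abs_le_Nz_Y _ i
      outerS := by
        intro c h
        change LO (H (tm (pt K c none), _)) = outer
        have : pt K c none = 1 := by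
          rw [pt, h]
          push_cast
          field_simp
        rw [this, tm_one, h1]
        rfl
      glue := by
        intro c h
        change LO (H (tm (pt K _ none), (src n (pt K _) : OnePoint (Zs n)))) =
          LO (H (tm (pt K c none), (src n (pt K c) : OnePoint (Zs n))))
        have : pt K (aff (epsT (Fin.succ (Fin.succ 0))) (trT (Fin.succ 0) (2 * -K)) c) none =
            pt K c none := by
          simp [pt, aff, epsT, trT]
        rw [this, src_glue hK0 c h]
      mirror := by
        intro c h
        have h' : aff (epsTY (0 : Fin (n + 3)) (0 : Fin (n + n + 2 + 1))) 0 c none = 0 := by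
          simp [aff, epsTY, h]
        change LO (Ψ (pt K _)) = LO (Ψ (pt K c))
        rw [hzero _ h', hzero _ h, Fn_mirror]
      thrT := thT K
      thrY := thY K
      thrT_ne := by
        intro t
        refine casesT (p := fun t => t ≠ Fin.succ 0 → thT K t (2 * -(K * R₀)) ≠
          thT K t (2 * (K * R₀))) ?_ ?_ ?_ ?_ t
        · intro _
          rw [thT_0, thT_0]
          have h2 : decide (2 * -(K * (R₀ : ℤ)) < 2 * K) = true := by
            rw [decide_eq_true_iff]
            nlinarith
          have h3 : decide (2 * (K * (R₀ : ℤ)) < 2 * K) = false := by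
            rw [decide_eq_false_iff_not]
            nlinarith
          rw [h2, h3]
          simp
        · intro h
          exact absurd rfl h
        · intro _
          rw [thT_2, thT_2]
          have h2 : decide (2 * -(K * (R₀ : ℤ)) < 0) = true := by
            rw [decide_eq_true_iff]
            nlinarith
          have h3 : decide (2 * (K * (R₀ : ℤ)) < 0) = false := by
            rw [decide_eq_false_iff_not]
            nlinarith
          rw [h2, h3]
          simp
        · intro k _
          rw [thT_3, thT_3]
          have h2 : decide (2 * -(K * (R₀ : ℤ)) < 0) = true := by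
            rw [decide_eq_true_iff]
            nlinarith
          have h3 : decide (2 * (K * (R₀ : ℤ)) < 0) = false := by
            rw [decide_eq_false_iff_not]
            nlinarith
          rw [h2, h3]
          simp
      thrα_ne := by
        rw [thT_1, thT_1]
        have h2 : decide (K < 2 * 0) = false := by
          rw [decide_eq_false_iff_not]
          omega
        have h3 : decide (K < 2 * K) = true := by
          rw [decide_eq_true_iff]
          omega
        rw [h2, h3]
        simp
      thrY_ne := by
        unfold thY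
        have h2 : decide (2 * K ≤ 2 * 0) = false := by
          rw [decide_eq_false_iff_not]
          omega
        have h3 : decide (2 * K ≤ 2 * (K * (R₀ : ℤ))) = true := by
          rw [decide_eq_true_iff]
          nlinarith
        rw [h2, h3]
        simp
      count_neg := by
        intro c hn hY hY0 ha h2 h3 i
        change LO (Ψ (pt K c)) ≠ _
        rw [hzero c hn]
        exact label_neg hK0 c hY hY0 ha h2 h3 i
      count_zero := by
        intro c hn hY hY0 ha
        change LO (Ψ (pt K c)) = _
        rw [hzero c hn]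
        exact label_zero c ha
      count_pos := by
        intro c hn hY hY0 ha h2 h3
        change LO (Ψ (pt K c)) = _ ∨ LO (Ψ (pt K c)) = _
        rw [hzero c hn]
        exact label_pos' hK0 c hY hY0 ha h2 h3
      count_cross := by
        intro c hn hY hY0 hT hYc c' hf
        change LO (Ψ (pt K c')) ≠ _ ∧ _
        have hn' : c' none = 0 := by rw [hf.even (by rw [hn]; exact ⟨0, rfl⟩), hn]
        have hY' : ∀ i, i ≠ 0 → c' (Yc i) = 0 := by
          intro i hi
          rw [hf.even (by rw [hY i hi]; exact ⟨0, rfl⟩), hY i hi]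
        have b0 : |c' (Tc 0) - 2 * K| ≤ 2 := by
          obtain ⟨x, y, hx, hy, hxy⟩ := hT 0
          have := hf.abs_le (Tc 0)
          rw [thT_0, thT_0, Ne, decide_eq_decide] at hxy
          rw [abs_le] at *
          omega
        have b1 : |c' (Tc (Fin.succ 0)) - K| ≤ 2 := by
          obtain ⟨x, y, hx, hy, hxy⟩ := hT (Fin.succ 0)
          have := hf.abs_le (Tc (Fin.succ 0))
          rw [thT_1, thT_1, Ne, decide_eq_decide] at hxy
          rw [abs_le] at *
          omega
        have b2 : |c' (Tc (Fin.succ (Fin.succ 0)))| ≤ 2 := by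
          obtain ⟨x, y, hx, hy, hxy⟩ := hT (Fin.succ (Fin.succ 0))
          have := hf.abs_le (Tc (Fin.succ (Fin.succ 0)))
          rw [thT_2, thT_2, Ne, decide_eq_decide] at hxy
          rw [abs_le] at *
          omega
        have b3 : ∀ k : Fin n, |c' (Tc k.succ.succ.succ)| ≤ 2 := by
          intro k
          obtain ⟨x, y, hx, hy, hxy⟩ := hT k.succ.succ.succ
          have := hf.abs_le (Tc k.succ.succ.succ)
          rw [thT_3, thT_3, Ne, decide_eq_decide] at hxy
          rw [abs_le] at *
          omega
        have b4 : |c' (Yc 0) - 2 * K| ≤ 2 := by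
          obtain ⟨x, y, hx, hy, hxy⟩ := hYc
          have := hf.abs_le (Yc 0)
          unfold thY at hxy
          rw [Ne, decide_eq_decide] at hxy
          rw [abs_le] at *
          omega
        refine ⟨?_, ?_⟩
        · rw [hzero c' hn']
          exact label_cross hK4 c' hY' b0 b1 b2 b3 b4
        · rw [abs_le] at b0
          omega }
  exact Core.core_false D

/-- The map `f` is not stably null. -/
theorem not_stablyNull_f : ¬ StablyNull f := by
  rintro ⟨n, hn⟩
  exact not_null n hn

end

end Pool.Agent.MP2c15fb
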