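import Pool.Agent.MP_2c15fb_gt.Target

/-!
# Symmetries of the source coordinates and the value of `f`
-/

set_option linter.unusedSectionVars false

namespace Pool.Agent.MP2c15fb

open Lab Topology Filter OnePoint unitInterval

noncomputable section

/-- the real point of a cell -/
def pt {ι : Type} (K : ℤ) (c : ι → ℤ) : ι → ℝ := fun i => (c i : ℝ) / (2 * K)

theorem pt_face {ι : Type} [Fintype ι] [DecidableEq ι] {K : ℤ} (hK : 0 < K) {c c' : ι → ℤ}
    (h : Face c' c) : dist (pt K c') (pt K c) ≤ 1 / (2 * K) := by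
  have hK' : (0 : ℝ) < 2 * K := by
    have : (0 : ℝ) < K := by exact_mod_cast hK
    linarith
  rw [dist_pi_le_iff (by positivity)]
  intro i
  rw [Real.dist_eq, pt, pt, ← sub_div, abs_div, abs_of_pos hK']
  gcongr
  have := h.abs_le i
  exact_mod_cast this

variable {n : ℕ}

theorem src_neg (K : ℤ) (c : Ix (n + 3) (n + n + 2 + 1) → ℤ) :
    src n (pt K (aff (epsNeg (n + 3) (n + n + 2 + 1)) 0 c)) = inv (src n (pt K c)) := by
  refine Prod.ext (Prod.ext ?_ ?_) (Prod.ext (Prod.ext ?_ ?_) (Prod.ext ?_ ?_))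
  · funext k
    simp [src, pt, aff, epsNeg]
  · funext k
    simp [src, pt, aff, epsNeg]
    ring
  · funext k
    simp [src, pt, aff, epsNeg]
  · funext k
    simp [src, pt, aff, epsNeg]
    ring
  · simp [src, pt, aff, epsNeg]
    ring
  · simp [src, pt, aff, epsNeg]

theorem mbpt_glue (β : ℝ) : mbpt 0 (-β) = mbpt 1 β := by
  apply Subtype.ext
  simp [mbpt, cx_zero, cx_one]

theorem affT_of_ne {M N : ℕ} {s s' t : Fin M} {m : ℤ} {c : Ix M N → ℤ} (h1 : t ≠ s')
    (h2 : t ≠ s) : aff (epsT s') (trT s m) c (Tc t) = c (Tc t) := by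
  simp [aff, epsT, trT, h1, h2]

theorem affT_Y {M N : ℕ} {s s' : Fin M} {t : Fin N} {m : ℤ} {c : Ix M N → ℤ} :
    aff (epsT s') (trT s m) c (Yc t) = c (Yc t) := by
  simp [aff, epsT, trT]

theorem affT_s {M N : ℕ} {s s' : Fin M} {m : ℤ} {c : Ix M N → ℤ} (h : s ≠ s') :
    aff (epsT s') (trT s m) c (Tc s) = c (Tc s) + m := by
  simp [aff, epsT, trT, h]

theorem affT_s' {M N : ℕ} {s s' : Fin M} {m : ℤ} {c : Ix M N → ℤ} (h : s' ≠ s) :
    aff (epsT s') (trT s m) c (Tc s') = -c (Tc s') := by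
  simp [aff, epsT, trT, h]

theorem ne01 : (0 : Fin (n + 3)) ≠ Fin.succ 0 := (Fin.succ_ne_zero _).symm
theorem ne02 : (0 : Fin (n + 3)) ≠ Fin.succ (Fin.succ 0) := (Fin.succ_ne_zero _).symm
theorem ne12 : (Fin.succ 0 : Fin (n + 3)) ≠ Fin.succ (Fin.succ 0) := fun h =>
  (Fin.succ_ne_zero _).symm (Fin.succ_injective _ h)
theorem ne31 (k : Fin n) : (k.succ.succ.succ : Fin (n + 3)) ≠ Fin.succ 0 := fun h =>
  (Fin.succ_ne_zero _) (Fin.succ_injective _ h)
theorem ne32 (k : Fin n) : (k.succ.succ.succ : Fin (n + 3)) ≠ Fin.succ (Fin.succ 0) := fun h =>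
  (Fin.succ_ne_zero _) (Fin.succ_injective _ (Fin.succ_injective _ h))

theorem src_glue {K : ℤ} (hK : 0 < K) (c : Ix (n + 3) (n + n + 2 + 1) → ℤ)
    (hc : c (Tc (Fin.succ 0)) = 2 * K) :
    src n (pt K (aff (epsT (Fin.succ (Fin.succ 0))) (trT (Fin.succ 0) (2 * -K)) c)) =
      src n (pt K c) := by
  have hK' : (0 : ℝ) < K := by exact_mod_cast hK
  refine Prod.ext (Prod.ext ?_ ?_) (Prod.ext (Prod.ext ?_ ?_) (Prod.ext ?_ ?_))
  · funext k
    simp only [src, pt]
    rw [affT_of_ne (ne32 k) (ne31 k)]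
  · funext k
    simp only [src, pt]
    rw [affT_Y, affT_Y]
  · funext k
    simp only [src, pt]
    rw [affT_of_ne ne02 ne01]
  · funext k
    simp only [src, pt]
    rw [affT_Y, affT_Y]
  · simp only [src, pt]
    rw [affT_Y]
  · simp only [src, pt]
    rw [affT_s ne12, affT_s' ne12.symm, hc]
    have h1 : ((2 * K + 2 * -K : ℤ) : ℝ) / (2 * K) = 0 := by
      have : (2 * K + 2 * -K : ℤ) = 0 := by ring
      rw [this]
      simp
    have h2 : ((2 * K : ℤ) : ℝ) / (2 * K) = 1 := by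
      push_cast
      field_simp
    rw [h1, h2, Int.cast_neg, neg_div, mbpt_glue]

/-- The value of the map at stage `n`. -/
def Fn (n : ℕ) : OnePoint (Zs n) → OnePoint (Zt n) := smash (PMap.id (V n)) f

theorem Fn_coe (z : Zs n) : Fn n z = pair (OnePoint.some z.1) (pair (Q (OnePoint.some z.2.1))
    (pair (OnePoint.some z.2.2.1) (p₀ (OnePoint.some z.2.2.2)))) := rfl

theorem p₀_of_pos {m : Mb} (h : 0 < omr m) : p₀ (m : OnePoint Mb) = (p₀fun m : Triv 2) :=
  openExt'_coe_of_mem (U := p₀dom) (g := p₀fun) h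

theorem p₀_of_not {m : Mb} (h : ¬ 0 < omr m) : p₀ (m : OnePoint Mb) = ∞ :=
  openExt'_coe_of_notMem (U := p₀dom) (g := p₀fun) h

theorem Fn_infty (z : Zs n) (h : z.2.1.1 0 = 0 ∨ ¬ 0 < omr z.2.2.2) : Fn n z = ∞ := by
  rw [Fn_coe]
  rcases h with h | h
  · rw [Q_of_eq h]
    simp
  · rw [p₀_of_not h]
    simp

theorem Fn_fin (z : Zs n) (h : z.2.1.1 0 ≠ 0) (h' : 0 < omr z.2.2.2) :
    Fn n z = ((z.1, (Qfun z.2.1, (z.2.2.1, p₀fun z.2.2.2))) : Zt n) := by
  rw [Fn_coe, Q_of_ne h, p₀_of_pos h']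
  rfl

theorem Q_mirror (a : ℝ) (x y : ℝ) :
    Q (((fun _ => -a, fun _ => (x : ℂ) + ((-y : ℝ) : ℂ) * Complex.I) : V 1) : OnePoint (V 1)) =
      Q (((fun _ => a, fun _ => (x : ℂ) + (y : ℂ) * Complex.I) : V 1) : OnePoint (V 1)) := by
  by_cases h : a = 0
  · rw [Q_of_eq (by simpa using h), Q_of_eq (by simpa using h)]
  · rw [Q_of_ne (by simpa using h), Q_of_ne (by simpa using h), OnePoint.coe_eq_coe]
    refine Prod.ext ?_ ?_
    · funext i
      simp [Qfun, rho]
    · simp only [Qfun]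
      rcases lt_or_gt_of_ne h with h1 | h1
      · rw [if_pos (by linarith), if_neg (by linarith)]
        funext i
        simp
      · rw [if_neg (by linarith), if_pos (by linarith)]
        funext i
        simp

theorem affTY_T {M N : ℕ} {s t : Fin M} {j : Fin N} {c : Ix M N → ℤ} (h : t ≠ s) :
    aff (epsTY s j) 0 c (Tc t) = c (Tc t) := by
  simp [aff, epsTY, h]

theorem affTY_Y {M N : ℕ} {s : Fin M} {j t : Fin N} {c : Ix M N → ℤ} (h : t ≠ j) :
    aff (epsTY s j) 0 c (Yc t) = c (Yc t) := by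
  simp [aff, epsTY, h]

theorem affTY_s {M N : ℕ} {s : Fin M} {j : Fin N} {c : Ix M N → ℤ} :
    aff (epsTY s j) 0 c (Tc s) = -c (Tc s) := by
  simp [aff, epsTY]

theorem affTY_j {M N : ℕ} {s : Fin M} {j : Fin N} {c : Ix M N → ℤ} :
    aff (epsTY s j) 0 c (Yc j) = -c (Yc j) := by
  simp [aff, epsTY]

theorem Fn_mirror (K : ℤ) (c : Ix (n + 3) (n + n + 2 + 1) → ℤ) :
    Fn n (src n (pt K (aff (epsTY 0 0) 0 c))) = Fn n (src n (pt K c)) := by
  rw [Fn_coe, Fn_coe]
  congr 1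
  · congr 1
    refine Prod.ext ?_ ?_
    · funext k
      simp only [src, pt]
      rw [affTY_T (Fin.succ_ne_zero _)]
    · funext k
      simp only [src, pt]
      rw [affTY_Y (Fin.succ_ne_zero _), affTY_Y (Fin.succ_ne_zero _)]
  · congr 1
    · have := Q_mirror (pt K c (Tc 0)) (pt K c (Yc (Fin.succ 0))) (pt K c (Yc 0))
      refine Eq.trans ?_ this
      congr 2
      refine Prod.ext ?_ ?_
      · funext k
        simp only [src, pt]
        rw [affTY_s, Int.cast_neg, neg_div]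
      · funext k
        simp only [src, pt]
        rw [affTY_j, affTY_Y (Fin.succ_ne_zero _), Int.cast_neg, neg_div]
    · congr 1
      · congr 1
        simp only [src, pt]
        rw [affTY_Y (Fin.succ_ne_zero _)]
      · congr 2
        simp only [src, pt]
        rw [affTY_T (Fin.succ_ne_zero _), affTY_T (Fin.succ_ne_zero _)]

end

end Pool.Agent.MP2c15fb
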