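import Pool.Agent.MP_2c15fb_gt.JLemma

/-!
# Reduction of the vanishing statement to a homotopy
-/

set_option linter.unusedSectionVars false

namespace Pool.Agent.MP2c15fb

open Topology OnePoint unitInterval Filter

noncomputable section

theorem PMap.ext' {A B : Type} [TopologicalSpace A] [TopologicalSpace B] [Invol A] [Invol B]
    {φ ψ : PMap A B} (h : ∀ x, φ x = ψ x) : φ = ψ := by
  cases φ
  cases ψ
  congr 1
  exact ContinuousMap.ext h

theorem Q_of_ne {p : V 1} (h : p.1 0 ≠ 0) : Q (p : OnePoint (V 1)) = (Qfun p : V 1) :=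
  openExt'_coe_of_mem (U := Qdom) (g := Qfun) h

theorem Q_of_eq {p : V 1} (h : p.1 0 = 0) : Q (p : OnePoint (V 1)) = ∞ :=
  openExt'_coe_of_notMem (U := Qdom) (g := Qfun) (fun hp => hp h)

/-- Complex conjugation on `CSgn 1`. -/
def conjHomeo : CSgn 1 ≃ₜ CSgn 1 where
  toFun y := fun i => (starRingEnd ℂ) (y i)
  invFun y := fun i => (starRingEnd ℂ) (y i)
  left_inv y := by funext i; simp
  right_inv y := by funext i; simp
  continuous_toFun := by fun_prop
  continuous_invFun := by fun_prop

/-- Complex conjugation on the one-point compactification of `CSgn 1`. -/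
def conjMap : PMap (CSgn 1) (CSgn 1) := PMap.ofHomeo conjHomeo (fun a => by
  funext i
  simp [conjHomeo])

section

variable {n j : ℕ} {A : Type} [TopologicalSpace A] [T2Space A] [LocallyCompactSpace A] [Invol A]

/-- the source shuffle -/
def S1 (n : ℕ) (A : Type) [TopologicalSpace A] [T2Space A] [LocallyCompactSpace A] [Invol A] :
    PMap (V 1 × (V n × A)) (Triv 1 × (CSgn 1 × (V n × A))) :=
  PMap.ofHomeo (Homeomorph.prodAssoc (Triv 1) (CSgn 1) (V n × A)) (fun _ => rfl)

/-- the target shuffle -/
def S2 (n j : ℕ) : PMap (Triv 1 × (CSgn 1 × (V n × (Triv j × Y)))) (V n × (Triv j × (V 1 × Y))) :=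
  (shuffle (V 1) (V n) (Triv j) Y).comp
    (PMap.ofHomeo (Homeomorph.prodAssoc (Triv 1) (CSgn 1) (V n × (Triv j × Y))).symm (fun _ => rfl))

/-- the map `id ∧ id ∧ id ∧ p₀` -/
def idp₀ (n j : ℕ) : PMap (V n × (Triv j × X)) (V n × (Triv j × Y)) :=
  smash (PMap.id (V n)) (smash (PMap.id (Triv j)) (smash (PMap.id RSgn) p₀))

/-- the map `U₊` -/
def Upos (v : PMap (V n × A) (V n × (Triv j × Y))) :
    PMap (CSgn 1 × (V n × A)) (CSgn 1 × (V n × (Triv j × Y))) :=
  smash (PMap.id (CSgn 1)) v

/-- the map `U₋` -/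
def Uneg (v : PMap (V n × A) (V n × (Triv j × Y))) :
    PMap (CSgn 1 × (V n × A)) (CSgn 1 × (V n × (Triv j × Y))) :=
  smash conjMap v

theorem stableComp_eq (u : PMap (V n × A) (V n × (Triv j × X)))
    (J : PMap (Triv 1 × (CSgn 1 × (V n × A))) (Triv 1 × (CSgn 1 × (V n × (Triv j × Y)))))
    (hJ : ∀ x, J x = Jfun (Upos ((idp₀ n j).comp u)) (Uneg ((idp₀ n j).comp u)) x) :
    stableComp f u = (S2 n j).comp (J.comp (S1 n A)) := by
  apply PMap.ext'
  intro x
  induction x using OnePoint.rec with
  | infty => rw [PMap.map_infty, PMap.map_infty]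
  | coe p =>
    obtain ⟨⟨a, b⟩, k⟩ := p
    change (smash (PMap.id (V n)) (smash (PMap.id (Triv j)) f)) (shuffle (V 1) (V n) (Triv j) X
      (pair (((a, b) : V 1) : OnePoint (V 1)) (u k))) = S2 n j (J ((a, (b, k)) : _ × _))
    rw [hJ]
    change _ = S2 n j (pair (rhoMap a) (if 0 < a 0 then pair (b : OnePoint _) ((idp₀ n j) (u k))
      else pair (conjMap b) ((idp₀ n j) (u k))))
    have hb : (if 0 < a 0 then pair (b : OnePoint _) ((idp₀ n j) (u k))
      else pair (conjMap b) ((idp₀ n j) (u k))) =
      pair (((if 0 < a 0 then b else fun i => (starRingEnd ℂ) (b i) : CSgn 1)) : OnePoint _)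
        ((idp₀ n j) (u k)) := by
      split_ifs <;> rfl
    rw [hb]
    generalize u k = w
    induction w using OnePoint.rec with
    | infty => simp [PMap.map_infty]
    | coe q =>
      obtain ⟨w, t, z, m⟩ := q
      change pair (w : OnePoint _) (pair (t : OnePoint _) (pair (Q ((a, b) : V 1))
        (pair (z : OnePoint _) (p₀ m)))) = S2 n j (pair (rhoMap a) (pair _
          (pair (w : OnePoint _) (pair (t : OnePoint _) (pair (z : OnePoint _) (p₀ m))))))
      generalize p₀ m = q
      induction q using OnePoint.rec with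
      | infty => simp [PMap.map_infty]
      | coe q =>
        by_cases ha : a 0 = 0
        · have h1 : Q ((a, b) : V 1) = ∞ := Q_of_eq ha
          have h2 : rhoMap a = ∞ := by
            rw [rhoMap, openExt'_coe_of_notMem]
            exact fun h => h ha
          rw [h1, h2]
          simp [PMap.map_infty]
        · have h1 : Q ((a, b) : V 1) = (Qfun (a, b) : V 1) := Q_of_ne ha
          have h2 : rhoMap a = ((fun _ => rho (a 0) : Triv 1) : OnePoint (Triv 1)) := by
            rw [rhoMap, openExt'_coe_of_mem]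
            exact ha
          rw [h1, h2]
          rfl

/-- Reduction of the vanishing statement. -/
theorem null_of_ghtpy (u : PMap (V n × A) (V n × (Triv j × X)))
    (h : GHtpy (Upos ((idp₀ n j).comp u)) (Uneg ((idp₀ n j).comp u))) :
    Null (stableComp f u) := by
  obtain ⟨J, hJ, hJn⟩ := null_J h
  rw [stableComp_eq u J hJ]
  exact (hJn.comp_right _).comp_left _

end

end

end Pool.Agent.MP2c15fb
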