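import Pool.Agent.MP_2c15fb_gt.Labels

/-!
# The combinatorial core
-/

set_option linter.unusedSectionVars false

namespace Pool.Agent.MP2c15fb

open Lab

noncomputable section

/-- The index set of the coordinates: `none` is the homotopy parameter, `some (inl t)` are the
trivial coordinates and `some (inr i)` the sign coordinates. -/
abbrev Ix (M N : ℕ) : Type := Option (Fin M ⊕ Fin N)

/-- trivial coordinate -/
abbrev Tc {M N : ℕ} (t : Fin M) : Ix M N := some (Sum.inl t)

/-- sign coordinate -/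
abbrev Yc {M N : ℕ} (i : Fin N) : Ix M N := some (Sum.inr i)

/-- signs: `-1` on the sign coordinates -/
def epsNeg (M N : ℕ) : Ix M N → ℤˣ
  | some (Sum.inr _) => -1
  | _ => 1

/-- signs: `-1` on one trivial coordinate -/
def epsT {M N : ℕ} (s : Fin M) : Ix M N → ℤˣ := fun i => if i = Tc s then -1 else 1

/-- signs: `-1` on one trivial coordinate and one sign coordinate -/
def epsTY {M N : ℕ} (s : Fin M) (j : Fin N) : Ix M N → ℤˣ :=
  fun i => if i = Tc s ∨ i = Yc j then -1 else 1

/-- translation of one trivial coordinate -/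
def trT {M N : ℕ} (s : Fin M) (m : ℤ) : Ix M N → ℤ := fun i => if i = Tc s then m else 0

/-- The bounded region in which the cells of the slabs lie. -/
def InBox {M N : ℕ} (iα : Fin M) (R K : ℤ) (c : Ix M N → ℤ) : Prop :=
  (0 ≤ c none ∧ c none ≤ 2 * K) ∧ (0 ≤ c (Tc iα) ∧ c (Tc iα) ≤ 2 * K) ∧
    (∀ t, t ≠ iα → |c (Tc t)| ≤ 2 * R) ∧ ∀ i, |c (Yc i)| ≤ 2 * R

/-- The labels given by the thresholds. -/
def thrLab {M N : ℕ} : Ix M (N + 1) → Lab M (N + 1)
  | none => Lab.outer
  | some (Sum.inl t) => Lab.neg t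
  | some (Sum.inr _) => Lab.e 0 true

/-- The thresholds. -/
def thrFun {M N : ℕ} (thrT : Fin M → ℤ → Bool) (thrY : ℤ → Bool) : Ix M (N + 1) → ℤ → Bool
  | none => fun _ => false
  | some (Sum.inl t) => thrT t
  | some (Sum.inr _) => thrY

/-- The list of coordinates in the order of their priority. -/
def plist (M N : ℕ) : List (Ix M (N + 1)) := Yc 0 :: (List.finRange M).map Tc

/-- The data of the combinatorial core. -/
structure Core (M N : ℕ) where
  /-- the coordinate `a` -/
  ia : Fin M
  /-- the coordinate `α` -/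
  iα : Fin M
  /-- the coordinate `β` -/
  iβ : Fin M
  ha : ia ≠ iα
  hβ : iβ ≠ iα
  /-- the size of the box -/
  R : ℤ
  /-- the length of the unit interval -/
  K : ℤ
  hR : 0 < R
  hK : 0 < K
  /-- the labels -/
  ℓ : (Ix M (N + 1) → ℤ) → Lab M (N + 1)
  adm : ∀ c, InBox iα R K c → ∃ T, Adm T ∧ ∀ c', Face c' c → ℓ c' ∈ T
  equiv : ∀ c, ℓ (aff (epsNeg M (N + 1)) 0 c) = Lab.flip (ℓ c)
  outerT : ∀ c t, t ≠ iα → (c (Tc t) = 2 * R ∨ c (Tc t) = 2 * -R) → ℓ c = outer
  outerY : ∀ c i, (c (Yc i) = 2 * R ∨ c (Yc i) = 2 * -R) → ℓ c = outer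
  outerS : ∀ c, c none = 2 * K → ℓ c = outer
  glue : ∀ c, c (Tc iα) = 2 * K → ℓ (aff (epsT iβ) (trT iα (2 * -K)) c) = ℓ c
  mirror : ∀ c, c none = 0 → ℓ (aff (epsTY ia 0) 0 c) = ℓ c
  /-- thresholds for the trivial coordinates -/
  thrT : Fin M → ℤ → Bool
  /-- threshold for the first sign coordinate -/
  thrY : ℤ → Bool
  thrT_ne : ∀ t, t ≠ iα → thrT t (2 * -R) ≠ thrT t (2 * R)
  thrα_ne : thrT iα (2 * 0) ≠ thrT iα (2 * K)
  thrY_ne : thrY (2 * 0) ≠ thrY (2 * R)
  count_neg : ∀ c, c none = 0 → (∀ i, i ≠ 0 → c (Yc i) = 0) → 0 ≤ c (Yc 0) → c (Tc ia) < 0 →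
    0 ≤ c (Tc iα) → c (Tc iα) ≤ 2 * K → ∀ i, ℓ c ≠ e i true
  count_zero : ∀ c, c none = 0 → (∀ i, i ≠ 0 → c (Yc i) = 0) → 0 ≤ c (Yc 0) → c (Tc ia) = 0 →
    ℓ c = outer
  count_pos : ∀ c, c none = 0 → (∀ i, i ≠ 0 → c (Yc i) = 0) → 0 ≤ c (Yc 0) → 0 < c (Tc ia) →
    0 ≤ c (Tc iα) → c (Tc iα) ≤ 2 * K →
    ℓ c = outer ∨ ℓ c = prio Lab.last thrLab (thrFun thrT thrY) (plist M N) c
  count_cross : ∀ c, c none = 0 → (∀ i, i ≠ 0 → c (Yc i) = 0) → 0 ≤ c (Yc 0) →
    (∀ t, ∃ x y, |x - c (Tc t)| ≤ 1 ∧ |y - c (Tc t)| ≤ 1 ∧ thrT t x ≠ thrT t y) →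
    (∃ x y, |x - c (Yc 0)| ≤ 1 ∧ |y - c (Yc 0)| ≤ 1 ∧ thrY x ≠ thrY y) →
    ∀ c', Face c' c → ℓ c' ≠ outer ∧ 0 < c' (Tc ia)

namespace Core

variable {M N : ℕ} (D : Core M N)

/-- the box of the slab `E k` -/
def Eb (k : ℕ) : Ix M (N + 1) → ℤ × ℤ
  | none => (0, D.K)
  | some (Sum.inl t) => if t = D.iα then (0, D.K) else (-D.R, D.R)
  | some (Sum.inr i) => if (i : ℕ) < k then (-D.R, D.R) else if (i : ℕ) = k then (0, D.R) else (0, 0)

/-- the slab -/
def E (k : ℕ) : Ch M (N + 1) := Tot D.ℓ (M + k + 2) (D.Eb k)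

/-- the initial face of the slab -/
def A (k : ℕ) : Ch M (N + 1) := Tot D.ℓ (M + k + 1) (Function.update (D.Eb k) none (0, 0))

/-- the middle face of the slab -/
def Dm (k : ℕ) (hk : k < N + 1) : Ch M (N + 1) :=
  Tot D.ℓ (M + k + 1) (Function.update (D.Eb k) (Yc ⟨k, hk⟩) (0, 0))

theorem Eb_le (k : ℕ) (i : Ix M (N + 1)) : (D.Eb k i).1 ≤ (D.Eb k i).2 := by
  have hR := D.hR
  have hK := D.hK
  rcases i with _ | t | i
  · exact hK.le
  · simp only [Eb]
    split_ifs
    · exact hK.le
    · simp only; omega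
  · simp only [Eb]
    split_ifs
    · simp only; omega
    · simp only; omega
    · simp only; omega

theorem Eb_ne_none (k : ℕ) : (D.Eb k none).1 ≠ (D.Eb k none).2 := by
  have hK := D.hK
  simp only [Eb]
  omega

theorem Eb_ne_T (k : ℕ) (t : Fin M) : (D.Eb k (Tc t)).1 ≠ (D.Eb k (Tc t)).2 := by
  have hK := D.hK
  have hR := D.hR
  simp only [Eb]
  split_ifs
  · simp only; omega
  · simp only; omega

theorem Eb_Y (k : ℕ) (i : Fin (N + 1)) : (D.Eb k (Yc i)).1 ≠ (D.Eb k (Yc i)).2 ↔ (i : ℕ) ≤ k := by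
  have hR := D.hR
  simp only [Eb]
  split_ifs with h1 h2
  · simp only; omega
  · simp only; omega
  · simp only; omega

theorem card_nondeg (k : ℕ) (hk : k < N + 1) : (nondeg (D.Eb k)).card = M + k + 2 := by
  rw [nondeg, Finset.card_filter, Fintype.sum_option, Fintype.sum_sum_type]
  rw [if_pos (D.Eb_ne_none k)]
  have h1 : ∑ t : Fin M, (if (D.Eb k (Tc t)).1 ≠ (D.Eb k (Tc t)).2 then 1 else 0) = M := by
    rw [Finset.sum_congr rfl fun t _ => if_pos (D.Eb_ne_T k t)]
    simp
  have h2 : ∑ i : Fin (N + 1), (if (D.Eb k (Yc i)).1 ≠ (D.Eb k (Yc i)).2 then 1 else 0) = k + 1 := by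
    rw [Finset.sum_congr rfl fun i _ => if_congr (D.Eb_Y k i) rfl rfl, ← Finset.card_filter]
    have : (Finset.univ.filter fun i : Fin (N + 1) => (i : ℕ) ≤ k) = Finset.Iic ⟨k, hk⟩ := by
      ext i
      simp [Fin.le_def]
    rw [this, Fin.card_Iic]
  rw [h1, h2]
  ring

theorem outer_face {i : Ix M (N + 1)} {p : ℤ} (k : ℕ) (B : Ix M (N + 1) → ℤ × ℤ)
    (h : ∀ c, c i = 2 * p → D.ℓ c = outer) : Tot D.ℓ (k + 1) (Function.update B i (p, p)) = 0 := by
  apply Tot_const (l := outer)
  intro c hc c' hf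
  exact h c' (face_of_cells_const hc hf)

theorem two_neg (x : ℤ) : 2 * -x = -(2 * x) := by ring

theorem vals_bounds {p q x : ℤ} (hpq : p ≤ q) (hx : x ∈ vals p q) : 2 * p ≤ x ∧ x ≤ 2 * q := by
  by_cases h : p = q
  · subst h
    rw [vals_self, Finset.mem_singleton] at hx
    omega
  · rw [mem_vals_of_ne h] at hx
    omega

/-- a box contained in the bounded region -/
def Sub (B : Ix M (N + 1) → ℤ × ℤ) : Prop :=
  (∀ i, (B i).1 ≤ (B i).2) ∧ (0 ≤ (B none).1 ∧ (B none).2 ≤ D.K) ∧
    (0 ≤ (B (Tc D.iα)).1 ∧ (B (Tc D.iα)).2 ≤ D.K) ∧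
    (∀ t, t ≠ D.iα → -D.R ≤ (B (Tc t)).1 ∧ (B (Tc t)).2 ≤ D.R) ∧
    ∀ i, -D.R ≤ (B (Yc i)).1 ∧ (B (Yc i)).2 ≤ D.R

theorem Sub.inBox {D : Core M N} {B : Ix M (N + 1) → ℤ × ℤ} (h : D.Sub B)
    {c : Ix M (N + 1) → ℤ} (hc : c ∈ cells B) : InBox D.iα D.R D.K c := by
  obtain ⟨h1, h2, h3, h4, h5⟩ := h
  rw [cells, Fintype.mem_piFinset] at hc
  have hb := fun i => vals_bounds (h1 i) (hc i)
  refine ⟨?_, ?_, fun t ht => ?_, fun i => ?_⟩
  · have := hb none
    omega
  · have := hb (Tc D.iα)
    omega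
  · have := hb (Tc t)
    have := h4 t ht
    rw [abs_le]
    omega
  · have := hb (Yc i)
    have := h5 i
    rw [abs_le]
    omega

theorem Sub.update {D : Core M N} {B : Ix M (N + 1) → ℤ × ℤ} (h : D.Sub B) (i : Ix M (N + 1))
    {p q : ℤ} (hp : (B i).1 ≤ p) (hpq : p ≤ q) (hq : q ≤ (B i).2) :
    D.Sub (Function.update B i (p, q)) := by
  obtain ⟨h1, h2, h3, h4, h5⟩ := h
  refine ⟨fun j => ?_, ?_, ?_, fun t ht => ?_, fun j => ?_⟩
  · by_cases hj : j = i
    · subst hj; rw [Function.update_self]; exact hpq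
    · rw [Function.update_of_ne hj]; exact h1 j
  · by_cases hj : none = i
    · subst hj; rw [Function.update_self]; simp only; omega
    · rw [Function.update_of_ne hj]; exact h2
  · by_cases hj : Tc D.iα = i
    · subst hj; rw [Function.update_self]; simp only; omega
    · rw [Function.update_of_ne hj]; exact h3
  · by_cases hj : Tc t = i
    · subst hj; rw [Function.update_self]; have := h4 t ht; simp only; omega
    · rw [Function.update_of_ne hj]; exact h4 t ht
  · by_cases hj : Yc j = i
    · subst hj; rw [Function.update_self]; have := h5 j; simp only; omega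
    · rw [Function.update_of_ne hj]; exact h5 j

theorem sub_Eb (k : ℕ) : D.Sub (D.Eb k) := by
  have hR := D.hR
  have hK := D.hK
  refine ⟨D.Eb_le k, ?_, ?_, fun t ht => ?_, fun j => ?_⟩
  · simp [Eb]
  · simp [Eb]
  · simp [Eb, ht]
  · simp only [Eb]
    split_ifs <;> simp only <;> omega

theorem supp_of_sub {B : Ix M (N + 1) → ℤ × ℤ} (h : D.Sub B) (k : ℕ) :
    Supp (k + 1) (Tot D.ℓ k B) := by
  intro S hS
  obtain ⟨h1, c, hc, hcl⟩ := Tot_support hS
  obtain ⟨T, hT, hT'⟩ := D.adm c (h.inBox hc)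
  refine ⟨hT.mono ?_, h1⟩
  intro l hl
  obtain ⟨c', hf, rfl⟩ := hcl l hl
  exact hT' c' hf

/-- gluing -/
theorem glue_faces (k m : ℕ) :
    Tot D.ℓ m (Function.update (D.Eb k) (Tc D.iα) (D.K, D.K)) +
      Tot D.ℓ m (Function.update (D.Eb k) (Tc D.iα) (0, 0)) = 0 := by
  have hβα := D.hβ
  have key : Tot D.ℓ m (Function.update (D.Eb k) (Tc D.iα) (0, 0)) =
      push id (Tot D.ℓ m (Function.update (D.Eb k) (Tc D.iα) (D.K, D.K))) := by
    apply Tot_aff (ε := epsT D.iβ) (t := trT D.iα (2 * -D.K))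
    · intro i
      unfold trT
      split_ifs
      · exact even_two_mul _
      · exact ⟨0, rfl⟩
    · exact fun _ => rfl
    · intro c hc
      rw [cells, Fintype.mem_piFinset] at hc ⊢
      intro i
      have hi := hc i
      by_cases h1 : i = Tc D.iα
      · subst h1
        rw [Function.update_self, vals_self, Finset.mem_singleton] at hi ⊢
        have hne : (Tc D.iα : Ix M (N + 1)) ≠ Tc D.iβ := by
          intro h
          simp only [Option.some.injEq, Sum.inl.injEq] at h
          exact hβα h.symm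
        simp [aff, epsT, trT, hne, hi]
      · rw [Function.update_of_ne h1] at hi ⊢
        by_cases h2 : i = Tc D.iβ
        · subst h2
          have hv : D.Eb k (Tc D.iβ) = (-D.R, D.R) := by simp [Eb, hβα]
          have hR := D.hR
          rw [hv, mem_vals_of_ne (by simp only; omega)] at hi ⊢
          simp only at hi ⊢
          simp only [aff, epsT, trT, h1, if_true, if_false, Units.val_neg, Units.val_one]
          refine ⟨?_, by omega, by omega⟩
          have e : -1 * c (Tc D.iβ) + 0 = -c (Tc D.iβ) := by ring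
          rw [e]
          exact hi.1.neg
        · simpa [aff, epsT, trT, h1, h2] using hi
    · intro c hc
      refine ⟨aff (epsT D.iβ) (trT D.iα (2 * D.K)) c, ?_, ?_⟩
      · rw [cells, Fintype.mem_piFinset] at hc ⊢
        intro i
        have hi := hc i
        by_cases h1 : i = Tc D.iα
        · subst h1
          rw [Function.update_self, vals_self, Finset.mem_singleton] at hi ⊢
          have hne : (Tc D.iα : Ix M (N + 1)) ≠ Tc D.iβ := by
            intro h
            simp only [Option.some.injEq, Sum.inl.injEq] at h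
            exact hβα h.symm
          simp [aff, epsT, trT, hne, hi]
        · rw [Function.update_of_ne h1] at hi ⊢
          by_cases h2 : i = Tc D.iβ
          · subst h2
            have hv : D.Eb k (Tc D.iβ) = (-D.R, D.R) := by simp [Eb, hβα]
            have hR := D.hR
            rw [hv, mem_vals_of_ne (by simp only; omega)] at hi ⊢
            simp only at hi ⊢
            simp only [aff, epsT, trT, h1, if_true, if_false, Units.val_neg, Units.val_one]
            refine ⟨?_, by omega, by omega⟩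
            have e : -1 * c (Tc D.iβ) + 0 = -c (Tc D.iβ) := by ring
            rw [e]
            exact hi.1.neg
          · simpa [aff, epsT, trT, h1, h2] using hi
      · funext i
        by_cases h1 : i = Tc D.iα
        · subst h1
          have hne : (Tc D.iα : Ix M (N + 1)) ≠ Tc D.iβ := by
            intro h
            simp only [Option.some.injEq, Sum.inl.injEq] at h
            exact hβα h.symm
          simp [aff, epsT, trT, hne]
        · by_cases h2 : i = Tc D.iβ
          · simp [aff, epsT, trT, h2, hβα]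
          · simp [aff, epsT, trT, h1, h2]
    · intro c hc c' hf
      exact D.glue c' (face_of_cells_const hc hf)
  rw [key, push_id, chain_add_self]

/-- The involution maps lower halves to upper halves. -/
theorem flip_half (m : ℕ) (B B' : Ix M (N + 1) → ℤ × ℤ)
    (hB : ∀ i, (B i).1 ≤ (B i).2) 
    (h0 : B' none = B none) (hT : ∀ t, B' (Tc t) = B (Tc t))
    (hY : ∀ i, B' (Yc i) = (-(B (Yc i)).2, -(B (Yc i)).1)) :
    Tot D.ℓ m B' = push Lab.flip (Tot D.ℓ m B) := by
  have hcell : ∀ (B B' : Ix M (N + 1) → ℤ × ℤ), (∀ i, (B i).1 ≤ (B i).2) → B' none = B none →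
      (∀ t, B' (Tc t) = B (Tc t)) → (∀ i, B' (Yc i) = (-(B (Yc i)).2, -(B (Yc i)).1)) →
      ∀ c, c ∈ cells B → aff (epsNeg M (N + 1)) 0 c ∈ cells B' := by
    intro B B' hB h0 hT hY c hc
    rw [cells, Fintype.mem_piFinset] at hc ⊢
    intro i
    have hi := hc i
    rcases i with _ | t | i
    · rw [h0]
      simpa [aff, epsNeg] using hi
    · rw [hT]
      simpa [aff, epsNeg] using hi
    · rw [hY]
      simp only [aff, epsNeg, Units.val_neg, Units.val_one, Pi.zero_apply, add_zero, neg_mul,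
        one_mul]
      by_cases h : (B (Yc i)).1 = (B (Yc i)).2
      · rw [← h, vals_self, Finset.mem_singleton] at hi ⊢
        rw [hi]
        ring
      · rw [mem_vals_of_ne h] at hi
        rw [mem_vals_of_ne (by omega)]
        exact ⟨hi.1.neg, by omega, by omega⟩
  have hinv : ∀ c : Ix M (N + 1) → ℤ, aff (epsNeg M (N + 1)) 0 (aff (epsNeg M (N + 1)) 0 c) = c := by
    intro c
    funext i
    rcases i with _ | t | i <;> simp [aff, epsNeg]
  apply Tot_aff (ε := epsNeg M (N + 1)) (t := 0)
  · intro i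
    exact ⟨0, rfl⟩
  · exact Lab.flip_flip
  · exact hcell B B' hB h0 hT hY
  · intro c hc
    refine ⟨aff (epsNeg M (N + 1)) 0 c, ?_, hinv c⟩
    apply hcell B' B _ h0.symm (fun t => (hT t).symm) _ c hc
    · intro i
      rcases i with _ | t | i
      · rw [h0]; exact hB _
      · rw [hT]; exact hB _
      · rw [hY]
        have := hB (Yc i)
        simp only
        omega
    · intro i
      rw [hY]
      simp
  · intro c _ c' _
    exact D.equiv c'

theorem Dm_succ (k : ℕ) (hk : k + 1 < N + 1) :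
    D.Dm (k + 1) hk = D.E k + push Lab.flip (D.E k) := by
  have hR := D.hR
  have hk' : k < N + 1 := by omega
  have hne : (Yc (⟨k, hk'⟩ : Fin (N + 1)) : Ix M (N + 1)) ≠ Yc ⟨k + 1, hk⟩ := by
    intro h
    simp only [Option.some.injEq, Sum.inr.injEq, Fin.mk.injEq] at h
    omega
  rw [Dm, Tot_split D.ℓ _ _ (Yc ⟨k, hk'⟩) (-D.R) 0 D.R (by omega) (by omega),
    add_comm (Tot _ _ _) (Tot _ _ _)]
  · have e1 : Function.update (Function.update (D.Eb (k + 1)) (Yc ⟨k + 1, hk⟩) (0, 0))
        (Yc ⟨k, hk'⟩) (0, D.R) = D.Eb k := by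
      funext i
      by_cases h1 : i = Yc ⟨k, hk'⟩
      · subst h1
        rw [Function.update_self]
        simp [Eb]
      · rw [Function.update_of_ne h1]
        by_cases h2 : i = Yc ⟨k + 1, hk⟩
        · subst h2
          rw [Function.update_self]
          simp [Eb]
        · rw [Function.update_of_ne h2]
          rcases i with _ | t | i
          · rfl
          · rfl
          · simp only [Option.some.injEq, Sum.inr.injEq, Fin.ext_iff] at h1 h2
            simp only [Eb]
            split_ifs <;> first | rfl | omega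
    rw [e1]
    change D.E k + _ = _
    congr 1
    apply D.flip_half (M + k + 2) (D.Eb k) _ (D.Eb_le k)
    · rw [Function.update_of_ne (by simp), Function.update_of_ne (by simp)]
      rfl
    · intro t
      rw [Function.update_of_ne (by simp), Function.update_of_ne (by simp)]
      rfl
    · intro i
      by_cases h1 : (Yc i : Ix M (N + 1)) = Yc ⟨k, hk'⟩
      · rw [h1, Function.update_self]
        simp [Eb]
      · rw [Function.update_of_ne h1]
        by_cases h2 : (Yc i : Ix M (N + 1)) = Yc ⟨k + 1, hk⟩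
        · rw [h2, Function.update_self]
          simp [Eb]
        · rw [Function.update_of_ne h2]
          simp only [Option.some.injEq, Sum.inr.injEq, Fin.ext_iff] at h1 h2
          simp only [Eb]
          split_ifs <;> first | (simp; done) | omega
  · rw [Function.update_of_ne hne]
    simp [Eb]

theorem Dm_zero : D.Dm 0 (by omega) = 0 := by
  funext S
  by_contra hne
  obtain ⟨h1, c, hc, hcl⟩ := Tot_support hne
  have hfix : ∀ c', Face c' c → isE (D.ℓ c') = false := by
    intro c' hf
    have hY : ∀ i, c' (Yc i) = 0 := by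
      intro i
      have hi := (Fintype.mem_piFinset.1 hc) (Yc i)
      have hB : Function.update (D.Eb 0) (Yc ⟨0, by omega⟩) ((0 : ℤ), (0 : ℤ)) (Yc i) = (0, 0) := by
        by_cases h : i = ⟨0, by omega⟩
        · subst h
          rw [Function.update_self]
        · rw [Function.update_of_ne (by simpa using h)]
          have : (i : ℕ) ≠ 0 := fun h' => h (Fin.ext h')
          simp [Eb, this]
      rw [hB, vals_self, Finset.mem_singleton] at hi
      rw [hf.even (by rw [hi]; exact ⟨0, rfl⟩), hi]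
      rfl
    have h2 := D.equiv c'
    have h3 : aff (epsNeg M (N + 1)) 0 c' = c' := by
      funext i
      rcases i with _ | t | i
      · simp [aff, epsNeg]
      · simp [aff, epsNeg]
      · have := hY i
        simp only [aff, epsNeg, Pi.zero_apply, add_zero]
        rw [this]
        simp
    rw [h3] at h2
    cases h4 : D.ℓ c' with
    | outer => rfl
    | last => rfl
    | neg t => rfl
    | e i b =>
      rw [h4] at h2
      simp [Lab.flip] at h2
  have hnotE : ∀ l ∈ S, isE l = false := by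
    intro l hl
    obtain ⟨c', hf, rfl⟩ := hcl l hl
    exact hfix c' hf
  have hS : Adm S := (D.supp_of_sub ((D.sub_Eb 0).update (Yc ⟨0, by omega⟩) (by simp [Eb]) le_rfl
    (by simp [Eb, D.hR.le])) _ S hne).1
  have := card_notE' S hnotE hS
  omega

theorem A_succ (k : ℕ) : D.A (k + 1) = 0 := by
  have hR := D.hR
  rw [A, Tot_split D.ℓ _ _ (Tc D.ia) (-D.R) 0 D.R (by omega) (by omega)]
  · have hane : (Tc D.ia : Ix M (N + 1)) ≠ Tc D.iα := by
      intro h
      simp only [Option.some.injEq, Sum.inl.injEq] at h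
      exact D.ha h
    have key : Tot D.ℓ (M + (k + 1) + 1) (Function.update (Function.update (D.Eb (k + 1)) none (0, 0))
        (Tc D.ia) (0, D.R)) = push id (Tot D.ℓ (M + (k + 1) + 1)
        (Function.update (Function.update (D.Eb (k + 1)) none (0, 0)) (Tc D.ia) (-D.R, 0))) := by
      have hcell : ∀ (p q : ℤ) (c : Ix M (N + 1) → ℤ), p < q → c ∈ cells (Function.update
          (Function.update (D.Eb (k + 1)) none (0, 0)) (Tc D.ia) (p, q)) →
          aff (epsTY D.ia 0) 0 c ∈ cells (Function.update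
          (Function.update (D.Eb (k + 1)) none (0, 0)) (Tc D.ia) (-q, -p)) := by
        intro p q c hpq hc
        rw [cells, Fintype.mem_piFinset] at hc ⊢
        intro i
        have hi := hc i
        by_cases h1 : i = Tc D.ia
        · subst h1
          rw [Function.update_self, mem_vals_of_ne (by simp only; omega)] at hi ⊢
          simp only at hi ⊢
          simp only [aff, epsTY, true_or, if_true, Units.val_neg, Units.val_one, Pi.zero_apply,
            add_zero, neg_mul, one_mul]
          exact ⟨hi.1.neg, by omega, by omega⟩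
        · rw [Function.update_of_ne h1] at hi ⊢
          by_cases h2 : i = Yc 0
          · subst h2
            rw [Function.update_of_ne (by simp)] at hi ⊢
            have hv : D.Eb (k + 1) (Yc 0) = (-D.R, D.R) := by simp [Eb]
            rw [hv, mem_vals_of_ne (by simp only; omega)] at hi ⊢
            simp only at hi ⊢
            simp only [aff, epsTY, or_true, if_true, Units.val_neg, Units.val_one, Pi.zero_apply,
              add_zero, neg_mul, one_mul]
            exact ⟨hi.1.neg, by omega, by omega⟩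
          · simpa [aff, epsTY, h1, h2] using hi
      have hinv : ∀ c : Ix M (N + 1) → ℤ, aff (epsTY D.ia 0) 0 (aff (epsTY D.ia 0) 0 c) = c := by
        intro c
        funext i
        simp only [aff, epsTY]
        split_ifs <;> simp
      apply Tot_aff (ε := epsTY D.ia 0) (t := 0)
      · intro i
        exact ⟨0, rfl⟩
      · exact fun _ => rfl
      · intro c hc
        have := hcell (-D.R) 0 c (by omega) hc
        simpa using this
      · intro c hc
        refine ⟨aff (epsTY D.ia 0) 0 c, ?_, hinv c⟩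
        have := hcell 0 D.R c (by omega) hc
        simpa using this
      · intro c hc c' hf
        apply D.mirror
        have hn := (Fintype.mem_piFinset.1 hc) none
        rw [Function.update_of_ne (by simp), Function.update_self, vals_self,
          Finset.mem_singleton] at hn
        rw [hf.even (by rw [hn]; exact ⟨0, rfl⟩), hn]
        rfl
    rw [key, push_id, chain_add_self]
  · rw [Function.update_of_ne (by simp)]
    simp [Eb, D.ha]

theorem bd_E (k : ℕ) (hk : k < N + 1) : bd (D.E k) = D.A k + D.Dm k hk := by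
  rw [E, bd_Tot D.ℓ (M + k + 1) (D.Eb k) (D.Eb_le k) (D.card_nondeg k hk), nondeg,
    Finset.sum_filter, Fintype.sum_option, Fintype.sum_sum_type, if_pos (D.Eb_ne_none k)]
  have hnone : Tot D.ℓ (M + k + 1) (Function.update (D.Eb k) none ((D.Eb k none).2, (D.Eb k none).2))
      = 0 := D.outer_face (M + k) _ (fun c hc => D.outerS c hc)
  have hT : ∑ t : Fin M, (if (D.Eb k (Tc t)).1 ≠ (D.Eb k (Tc t)).2 then
      Tot D.ℓ (M + k + 1) (Function.update (D.Eb k) (Tc t) ((D.Eb k (Tc t)).2, (D.Eb k (Tc t)).2)) +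
      Tot D.ℓ (M + k + 1) (Function.update (D.Eb k) (Tc t) ((D.Eb k (Tc t)).1, (D.Eb k (Tc t)).1))
      else 0) = 0 := by
    apply Finset.sum_eq_zero
    intro t _
    rw [if_pos (D.Eb_ne_T k t)]
    by_cases ht : t = D.iα
    · subst ht
      have hv : D.Eb k (Tc D.iα) = (0, D.K) := by simp [Eb]
      rw [hv]
      exact D.glue_faces k _
    · have hv : D.Eb k (Tc t) = (-D.R, D.R) := by simp [Eb, ht]
      rw [hv, D.outer_face (M + k) _ (fun c hc => D.outerT c t ht (Or.inl hc)),
        D.outer_face (M + k) _ (fun c hc => D.outerT c t ht (Or.inr hc)), add_zero]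
  have hY : ∑ i : Fin (N + 1), (if (D.Eb k (Yc i)).1 ≠ (D.Eb k (Yc i)).2 then
      Tot D.ℓ (M + k + 1) (Function.update (D.Eb k) (Yc i) ((D.Eb k (Yc i)).2, (D.Eb k (Yc i)).2)) +
      Tot D.ℓ (M + k + 1) (Function.update (D.Eb k) (Yc i) ((D.Eb k (Yc i)).1, (D.Eb k (Yc i)).1))
      else 0) = D.Dm k hk := by
    rw [Finset.sum_eq_single_of_mem (⟨k, hk⟩ : Fin (N + 1)) (Finset.mem_univ _)]
    · rw [if_pos ((D.Eb_Y k _).2 le_rfl)]
      have hv : D.Eb k (Yc ⟨k, hk⟩) = (0, D.R) := by simp [Eb]
      rw [hv, D.outer_face (M + k) _ (fun c hc => D.outerY c _ (Or.inl hc)), zero_add]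
      rfl
    · intro i _ hik
      have hik' : (i : ℕ) ≠ k := fun h => hik (Fin.ext h)
      by_cases hle : (i : ℕ) ≤ k
      · rw [if_pos ((D.Eb_Y k i).2 hle)]
        have hlt : (i : ℕ) < k := by omega
        have hv : D.Eb k (Yc i) = (-D.R, D.R) := by simp [Eb, hlt]
        rw [hv, D.outer_face (M + k) _ (fun c hc => D.outerY c i (Or.inl hc)),
          D.outer_face (M + k) _ (fun c hc => D.outerY c i (Or.inr hc)), add_zero]
      · rw [if_neg (fun h => hle ((D.Eb_Y k i).1 h))]
  refine (congrArg₂ (· + ·) rfl (congrArg₂ (· + ·) hT hY)).trans ?_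
  rw [hnone, zero_add, zero_add]
  rfl

theorem exists_x : ∃ x : Ch M (N + 1), Supp (M + 3) x ∧ D.A 0 = bd x + push Lab.flip (bd x) := by
  apply descend D.E (D.A 0)
  · intro k hk
    have : M + k + 3 = (M + k + 2) + 1 := rfl
    rw [this]
    exact D.supp_of_sub (D.sub_Eb k) _
  · rw [D.bd_E 0 (by omega), D.Dm_zero, add_zero]
  · intro k hk
    rw [D.bd_E (k + 1) (by omega), D.A_succ k, D.Dm_succ, zero_add]

end Core

end

end Pool.Agent.MP2c15fb
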