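import Mathlib
import Pool.Agent.MP_2c15fb_gt.Defs

/-!
# The representations and the spaces
-/

namespace Pool.Agent.MP2c15fb

open Topology OnePoint

noncomputable section

/-- The trivial representation `ℝ^k`. -/
abbrev Triv (k : ℕ) : Type := Fin k → ℝ

/-- The group acts trivially on `Triv k`. -/
instance (k : ℕ) : Invol (Triv k) where
  inv x := x
  inv_inv _ := rfl
  continuous_inv := continuous_id

/-- The representation `ℂ^k` on which the generator acts by `-1`; it is the sum of `2k` copies of
the real sign representation. -/
abbrev CSgn (k : ℕ) : Type := Fin k → ℂ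

/-- The generator acts on `CSgn k` by `-1`. -/
instance (k : ℕ) : Invol (CSgn k) where
  inv y := -y
  inv_inv y := neg_neg y
  continuous_inv := continuous_neg

/-- The representation `V k = ℝ^k ⊕ (ℂ^k with the sign action)`. The representations `V k` are
cofinal among all finite dimensional real representations of the group with two elements. -/
abbrev V (k : ℕ) : Type := Triv k × CSgn k

/-- The real sign representation: `ℝ` with the action `x ↦ -x`. -/
abbrev RSgn : Type := ℝ

/-- The generator acts on `RSgn` by `-1`. -/
instance : Invol RSgn where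
  inv x := -x
  inv_inv x := neg_neg x
  continuous_inv := continuous_neg

/-- The orbit `G/H` for a subgroup `H` of the group `G = ℤˣ` with two elements. -/
def Orbit (H : Subgroup ℤˣ) : Type := ℤˣ ⧸ H

instance (H : Subgroup ℤˣ) : TopologicalSpace (Orbit H) := ⊥
instance (H : Subgroup ℤˣ) : DiscreteTopology (Orbit H) := ⟨rfl⟩

/-- The generator `-1` of `G = ℤˣ` acts on `G/H` by left translation. -/
instance (H : Subgroup ℤˣ) : Invol (Orbit H) where
  inv x := ((-1 : ℤˣ) • (show ℤˣ ⧸ H from x) : ℤˣ ⧸ H)
  inv_inv x := by
    change ((-1 : ℤˣ) • (-1 : ℤˣ) • (show ℤˣ ⧸ H from x) : ℤˣ ⧸ H) = x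
    rw [← mul_smul, neg_mul_neg, one_mul]
    exact one_smul _ (show ℤˣ ⧸ H from x)
  continuous_inv := continuous_of_discreteTopology

/-- The open Möbius band: pairs of a point `w` of the unit circle and a real multiple `v` of a
square root of `w`. -/
abbrev Mb : Type := {p : ℂ × ℂ // ‖p.1‖ = 1 ∧ p.2 ^ 2 = ‖p.2‖ ^ 2 * p.1}

theorem isClosed_Mb : IsClosed {p : ℂ × ℂ | ‖p.1‖ = 1 ∧ p.2 ^ 2 = ‖p.2‖ ^ 2 * p.1} := by
  apply IsClosed.inter
  · exact isClosed_eq (by fun_prop) (by fun_prop)
  · exact isClosed_eq (by fun_prop) (by fun_prop)

instance : LocallyCompactSpace Mb := isClosed_Mb.isClosedEmbedding_subtypeVal.locallyCompactSpace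

/-- The group acts trivially on the Möbius band. -/
instance : Invol Mb where
  inv x := x
  inv_inv _ := rfl
  continuous_inv := continuous_id

/-- `X = σ × Mb`; its one-point compactification is the smash product of the one-point
compactification of the sign representation with the real projective plane. -/
abbrev X : Type := RSgn × Mb

/-- `Y = σ × ℝ²`; its one-point compactification is a sphere. -/
abbrev Y : Type := RSgn × Triv 2

@[simp] theorem inv_Triv {k : ℕ} (x : Triv k) : inv x = x := rfl
@[simp] theorem inv_CSgn {k : ℕ} (y : CSgn k) : inv y = -y := rfl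
@[simp] theorem inv_RSgn (x : RSgn) : inv x = -x := rfl
@[simp] theorem inv_Mb (x : Mb) : inv x = x := rfl
@[simp] theorem inv_prod {A B : Type} [TopologicalSpace A] [TopologicalSpace B] [Invol A]
    [Invol B] (p : A × B) : inv p = (inv p.1, inv p.2) := rfl

end

end Pool.Agent.MP2c15fb
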