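import Pool.Agent.MP_2c15fb_gt.CW
import Pool.Agent.MP_2c15fb_gt.Stable

/-!
# Bundled spaces and stable maps

The group is the group `G` with two elements. We work with pointed `G`-spaces of the form
`OnePoint K`, where `K` is a locally compact Hausdorff `G`-space. The smash product of `OnePoint K`
and `OnePoint L` is `OnePoint (K × L)`, the one-point compactification of a representation is its
representation sphere, and the one-point compactification of `G/H` is `(G/H)₊`.

An element of the group of stable maps from `OnePoint K` to `OnePoint L` (for finite `G`-CW
complexes) is represented by a pointed `G`-map from `OnePoint (V n × K)` to `OnePoint (V n × L)`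
for some `n`, where `V n = rep n = ℝ^n ⊕ ℂ^n` with the trivial action on `ℝ^n` and the action of the
generator by `-1` on `ℂ^n`; it is zero if and only if the map becomes null homotopic after smashing
with the sphere of some `V m`.
-/

set_option linter.unusedSectionVars false

namespace Pool.Agent.MP2c15fb

open Topology OnePoint

noncomputable section

/-- A locally compact Hausdorff space with an action of the group with two elements. -/
structure GSpace where
  /-- the underlying space -/
  carrier : Type
  [top : TopologicalSpace carrier]
  [t2 : T2Space carrier]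
  [lc : LocallyCompactSpace carrier]
  [act : Invol carrier]

attribute [instance] GSpace.top GSpace.t2 GSpace.lc GSpace.act

namespace GSpace

/-- The product with the diagonal action. -/
def prod (K L : GSpace) : GSpace where
  carrier := K.carrier × L.carrier

/-- The trivial representation `ℝ^k`. -/
def triv (k : ℕ) : GSpace where
  carrier := Triv k

/-- The representation `ℂ^k` on which the generator acts by `-1`. -/
def csgn (k : ℕ) : GSpace where
  carrier := CSgn k

/-- The representation `V k = ℝ^k ⊕ ℂ^k`. Every finite dimensional real representation is a
direct summand of some `V k`. -/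
def rep (k : ℕ) : GSpace := (triv k).prod (csgn k)

/-- The real sign representation `σ`. -/
def sigma : GSpace where
  carrier := RSgn

/-- The orbit `G/H`. -/
def orbit (H : Subgroup ℤˣ) : GSpace where
  carrier := Orbit H

/-- The open Möbius band with the trivial action. -/
def moebius : GSpace where
  carrier := Mb

/-- The space `σ × (open Möbius band)`; its one-point compactification is `S^σ ∧ RP²`. -/
def X : GSpace := sigma.prod moebius

/-- The space `σ × ℝ²`; its one-point compactification is `S^σ ∧ S²`. -/
def Y : GSpace := sigma.prod (triv 2)

/-- The one-point compactification of `K` is a finite pointed `G`-CW complex. -/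
def FiniteCW (K : GSpace) : Prop := IsFiniteCW K.carrier

end GSpace

/-- Pointed equivariant maps from `OnePoint K` to `OnePoint L`. -/
def GMap (K L : GSpace) : Type := PMap K.carrier L.carrier

namespace GMap

variable {K L M K' L' : GSpace}

/-- The identity map. -/
def id (K : GSpace) : GMap K K := PMap.id K.carrier

/-- Composition (`ψ` after `φ`). -/
def comp (ψ : GMap L M) (φ : GMap K L) : GMap K M := PMap.comp ψ φ

/-- The smash product of two maps. -/
def smash (φ : GMap K L) (ψ : GMap K' L') : GMap (K.prod K') (L.prod L') := MP2c15fb.smash φ ψ

/-- `φ` is homotopic to the constant map through pointed equivariant maps. -/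
def Null (φ : GMap K L) : Prop := MP2c15fb.Null φ

/-- `φ` becomes null after smashing with the sphere of some representation `V m`. -/
def StablyNull (φ : GMap K L) : Prop := ∃ m : ℕ, ((GMap.id (GSpace.rep m)).smash φ).Null

theorem continuous_shuffle (E V T K : GSpace) : Continuous (OnePoint.map
    (fun p : (E.prod (V.prod (T.prod K))).carrier =>
      ((p.2.1, (p.2.2.1, (p.1, p.2.2.2))) : (V.prod (T.prod (E.prod K))).carrier))) :=
  (shuffleHomeo E.carrier V.carrier T.carrier K.carrier).onePointCongr.continuous

/-- The map which permutes the factors: `(e, (v, (t, k))) ↦ (v, (t, (e, k)))`. -/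
def shuffle (E V T K : GSpace) :
    GMap (E.prod (V.prod (T.prod K))) (V.prod (T.prod (E.prod K))) where
  map := ⟨_, continuous_shuffle E V T K⟩
  prop := by
    refine ⟨rfl, fun x => ?_⟩
    induction x using OnePoint.rec with
    | infty => rfl
    | coe a => rfl

end GMap

open GSpace in
/-- The composite of stable maps. If `u : (V n)⁺ ∧ A⁺ → (V n)⁺ ∧ (ℝ^j)⁺ ∧ K⁺` represents a stable
map `A⁺ → Σ^j K⁺` and `f : (V m)⁺ ∧ K⁺ → (V m)⁺ ∧ L⁺` represents a stable map `K⁺ → L⁺`, then
`f.after u : (V m)⁺ ∧ (V n)⁺ ∧ A⁺ → (V n)⁺ ∧ (ℝ^j)⁺ ∧ (V m)⁺ ∧ L⁺` represents the composite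
of `u` with the `j`-fold suspension of `f`. -/
def GMap.after {m n j : ℕ} {A K L : GSpace} (f : GMap ((rep m).prod K) ((rep m).prod L))
    (u : GMap ((rep n).prod A) ((rep n).prod ((triv j).prod K))) :
    GMap ((rep m).prod ((rep n).prod A)) ((rep n).prod ((triv j).prod ((rep m).prod L))) :=
  ((GMap.id (rep n)).smash ((GMap.id (triv j)).smash f)).comp
    ((GMap.shuffle (rep m) (rep n) (triv j) K).comp ((GMap.id (rep m)).smash u))

end

end Pool.Agent.MP2c15fb
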