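import Pool.Agent.MP_2c15fb_gt.Reduce

/-!
# Vanishing of `f` on homotopy groups
-/

set_option linter.unusedSectionVars false

namespace Pool.Agent.MP2c15fb

open Topology OnePoint unitInterval Filter

noncomputable section

section general

variable {A B C D : Type} [TopologicalSpace A] [TopologicalSpace B] [TopologicalSpace C]
  [TopologicalSpace D] [T2Space A] [T2Space B] [T2Space C] [T2Space D]
  [LocallyCompactSpace A] [LocallyCompactSpace B] [LocallyCompactSpace C] [LocallyCompactSpace D]
  [Invol A] [Invol B] [Invol C] [Invol D]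

/-- the involution as a pointed equivariant map -/
def invMap (A : Type) [TopologicalSpace A] [T2Space A] [LocallyCompactSpace A] [Invol A] :
    PMap A A where
  map := ⟨opInv, continuous_opInv⟩
  prop := ⟨rfl, fun _ => rfl⟩

theorem GHtpy.comp_left {φ ψ : PMap A B} (h : GHtpy φ ψ) (χ : PMap B C) :
    GHtpy (χ.comp φ) (χ.comp ψ) := by
  obtain ⟨H, hc, h0, h1, hi, he⟩ := h
  refine ⟨fun p => χ (H p), χ.continuous.comp hc, fun x => ?_, fun x => ?_, fun t => ?_,
    fun t x => ?_⟩
  · beta_reduce; rw [h0]; rfl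
  · beta_reduce; rw [h1]; rfl
  · beta_reduce; rw [hi, χ.map_infty]
  · beta_reduce; rw [he, χ.map_opInv]

theorem GHtpy.comp_right {φ ψ : PMap A B} (h : GHtpy φ ψ) (χ : PMap C A) :
    GHtpy (φ.comp χ) (ψ.comp χ) := by
  obtain ⟨H, hc, h0, h1, hi, he⟩ := h
  refine ⟨fun p => H (p.1, χ p.2), hc.comp (continuous_fst.prodMk
    (χ.continuous.comp continuous_snd)), fun x => ?_, fun x => ?_, fun t => ?_,
    fun t x => ?_⟩
  · dsimp only; rw [h0]; rfl
  · dsimp only; rw [h1]; rfl
  · dsimp only; rw [χ.map_infty, hi]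
  · dsimp only; rw [← he, χ.map_opInv]

theorem NHtpy.comp_right {φ ψ : PMap A B} (h : NHtpy φ ψ) (χ : PMap C A) :
    NHtpy (φ.comp χ) (ψ.comp χ) := by
  obtain ⟨H, hc, h0, h1, hi⟩ := h
  refine ⟨fun p => H (p.1, χ p.2), hc.comp (continuous_fst.prodMk
    (χ.continuous.comp continuous_snd)), fun x => ?_, fun x => ?_, fun t => ?_⟩
  · dsimp only; rw [h0]; rfl
  · dsimp only; rw [h1]; rfl
  · dsimp only; rw [χ.map_infty, hi]

theorem NHtpy.smash_left {φ ψ : PMap A B} (h : NHtpy φ ψ) (χ : PMap C D) :
    NHtpy (smash χ φ) (smash χ ψ) := by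
  obtain ⟨H, hc, h0, h1, hi⟩ := h
  have key : ∀ (t : I) (x : OnePoint C) (y : OnePoint A),
      smashFun χ (fun x => H (t, x)) (pair x y) = pair (χ x) (H (t, y)) := fun t x y =>
    smashFun_pair χ.map_infty (hi t) x y
  refine ⟨fun p => smashFun χ (fun x => H (p.1, x)) p.2, ?_, fun x => ?_, fun x => ?_,
    fun t => rfl⟩
  · rw [(isQuotientMap_pair I).continuous_iff]
    have : (fun p : I × OnePoint (C × A) => smashFun χ (fun x => H (p.1, x)) p.2) ∘
        (fun p : I × (OnePoint C × OnePoint A) => (p.1, pair p.2.1 p.2.2)) =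
        fun p => pair (χ p.2.1) (H (p.1, p.2.2)) := by
      funext p
      exact key _ _ _
    rw [this]
    refine continuous_pair.comp (Continuous.prodMk ?_ ?_)
    · exact χ.continuous.comp (continuous_fst.comp continuous_snd)
    · exact hc.comp (continuous_fst.prodMk (continuous_snd.comp continuous_snd))
  · induction x using OnePoint.rec with
    | infty => rfl
    | coe p =>
      change pair _ (H (0, p.2)) = pair _ _
      rw [h0]
  · induction x using OnePoint.rec with
    | infty => rfl
    | coe p =>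
      change pair _ (H (1, p.2)) = pair _ _
      rw [h1]

/-- If the domain is a disjoint union of two sheets interchanged by the involution, homotopic
equivariant maps are equivariantly homotopic. -/
theorem ghtpy_of_nhtpy {φ ψ : PMap A B} (h : NHtpy φ ψ) (s : A → Bool) (hs : Continuous s)
    (hinv : ∀ a, s (inv a) = !(s a)) : GHtpy φ ψ := by
  classical
  obtain ⟨H, hc, h0, h1, hi⟩ := h
  let H' : I × OnePoint A → OnePoint B := fun p => p.2.elim ∞ fun a =>
    if s a then H (p.1, a) else opInv (H (p.1, ((inv a : A) : OnePoint A)))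
  have hclosed : ∀ b : Bool, IsClosed {p : I × OnePoint A |
      p.2 ∉ ((↑) : A → OnePoint A) '' (s ⁻¹' {b})} := by
    intro b
    have : IsOpen (((↑) : A → OnePoint A) '' (s ⁻¹' {b})) :=
      OnePoint.isOpenMap_coe _ ((isOpen_discrete _).preimage hs)
    exact (this.isClosed_compl).preimage continuous_snd
  refine ⟨H', ?_, fun x => ?_, fun x => ?_, fun t => rfl, fun t x => ?_⟩
  · rw [← continuousOn_univ]
    have huniv : (Set.univ : Set (I × OnePoint A)) =
        {p : I × OnePoint A | p.2 ∉ ((↑) : A → OnePoint A) '' (s ⁻¹' {false})} ∪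
        {p : I × OnePoint A | p.2 ∉ ((↑) : A → OnePoint A) '' (s ⁻¹' {true})} := by
      symm
      rw [Set.eq_univ_iff_forall]
      rintro ⟨t, x⟩
      by_contra hcon
      rw [Set.mem_union, not_or] at hcon
      obtain ⟨hc1, hc2⟩ := hcon
      simp only [Set.mem_ofPred_eq, not_not] at hc1 hc2
      obtain ⟨a, ha, rfl⟩ := hc1
      obtain ⟨b, hb, hab⟩ := hc2
      rw [OnePoint.coe_eq_coe] at hab
      subst hab
      simp only [Set.mem_preimage, Set.mem_singleton_iff] at ha hb
      rw [ha] at hb
      exact absurd hb (by simp)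
    rw [huniv]
    apply ContinuousOn.union_of_isClosed _ _ (hclosed false) (hclosed true)
    · apply hc.continuousOn.congr
      rintro ⟨t, x⟩ hx
      induction x using OnePoint.rec with
      | infty => exact (hi t).symm
      | coe a =>
        have : s a = true := by
          by_contra hcon
          exact hx ⟨a, by simpa using hcon, rfl⟩
        change (if s a then H (t, a) else _) = _
        rw [if_pos this]
    · have : Continuous (fun p : I × OnePoint A => opInv (H (p.1, opInv p.2))) :=
        continuous_opInv.comp (hc.comp (continuous_fst.prodMk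
          (continuous_opInv.comp continuous_snd)))
      apply this.continuousOn.congr
      rintro ⟨t, x⟩ hx
      induction x using OnePoint.rec with
      | infty =>
        change (∞ : OnePoint B) = opInv (H (t, ∞))
        rw [hi]
        rfl
      | coe a =>
        have : s a = false := by
          by_contra hcon
          exact hx ⟨a, by simpa using hcon, rfl⟩
        change (if s a then H (t, a) else _) = _
        rw [this]
        rfl
  · induction x using OnePoint.rec with
    | infty => exact (φ.map_infty).symm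
    | coe a =>
      change (if s a then H (0, a) else opInv (H (0, ((inv a : A) : OnePoint A)))) = _
      split_ifs
      · exact h0 _
      · rw [h0, ← opInv_coe, φ.map_opInv, opInv_opInv]
  · induction x using OnePoint.rec with
    | infty => exact (ψ.map_infty).symm
    | coe a =>
      change (if s a then H (1, a) else opInv (H (1, ((inv a : A) : OnePoint A)))) = _
      split_ifs
      · exact h1 _
      · rw [h1, ← opInv_coe, ψ.map_opInv, opInv_opInv]
  · induction x using OnePoint.rec with
    | infty => rfl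
    | coe a =>
      change (if s (inv a) then H (t, ((inv a : A) : OnePoint A)) else
        opInv (H (t, ((inv (inv a) : A) : OnePoint A)))) =
        opInv (if s a then H (t, a) else opInv (H (t, ((inv a : A) : OnePoint A))))
      rw [hinv, inv_inv]
      cases s a <;> simp

theorem ghtpy_fam {φ ψ : PMap A B} (Φ : I × A → B) (Ψ : I × B → A) (hΦ : Continuous Φ)
    (hΨ : Continuous Ψ) (hl : ∀ t a, Ψ (t, Φ (t, a)) = a)
    (h0 : ∀ a : A, φ (a : OnePoint A) = (Φ (0, a) : B))
    (h1 : ∀ a : A, ψ (a : OnePoint A) = (Φ (1, a) : B))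
    (he : ∀ t a, Φ (t, inv a) = inv (Φ (t, a))) : GHtpy φ ψ := by
  refine ⟨_, continuous_famExt Φ Ψ hΦ hΨ hl, fun x => ?_, fun x => ?_, fun t => rfl,
    fun t x => ?_⟩
  · induction x using OnePoint.rec with
    | infty => exact (φ.map_infty).symm
    | coe a => exact (h0 a).symm
  · induction x using OnePoint.rec with
    | infty => exact (ψ.map_infty).symm
    | coe a => exact (h1 a).symm
  · induction x using OnePoint.rec with
    | infty => rfl
    | coe a =>
      change ((Φ (t, inv a) : B) : OnePoint B) = ((inv (Φ (t, a)) : B) : OnePoint B)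
      rw [he]

theorem nhtpy_fam {φ ψ : PMap A B} (Φ : I × A → B) (Ψ : I × B → A) (hΦ : Continuous Φ)
    (hΨ : Continuous Ψ) (hl : ∀ t a, Ψ (t, Φ (t, a)) = a)
    (h0 : ∀ a : A, φ (a : OnePoint A) = (Φ (0, a) : B))
    (h1 : ∀ a : A, ψ (a : OnePoint A) = (Φ (1, a) : B)) : NHtpy φ ψ := by
  refine ⟨_, continuous_famExt Φ Ψ hΦ hΨ hl, fun x => ?_, fun x => ?_, fun t => rfl⟩
  · induction x using OnePoint.rec with
    | infty => exact (φ.map_infty).symm
    | coe a => exact (h0 a).symm
  · induction x using OnePoint.rec with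
    | infty => exact (ψ.map_infty).symm
    | coe a => exact (h1 a).symm

end general

/-- `exp (π t i)` -/
def cx (t : ℝ) : ℂ := Complex.exp (Real.pi * t * Complex.I)

theorem continuous_cx : Continuous cx := by
  unfold cx
  fun_prop

theorem cx_zero : cx 0 = 1 := by simp [cx]

theorem cx_one : cx 1 = -1 := by simp [cx]

theorem cx_add (s t : ℝ) : cx (s + t) = cx s * cx t := by
  rw [cx, cx, cx, ← Complex.exp_add]
  congr 1
  push_cast
  ring

theorem cx_neg_mul (t : ℝ) : cx (-t) * cx t = 1 := by
  rw [← cx_add]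
  simp [cx_zero]

section rot

variable {A : Type} [TopologicalSpace A] [T2Space A] [LocallyCompactSpace A] [Invol A]

/-- rotation of the domain -/
def rotK (n : ℕ) (A : Type) (p : I × (CSgn 1 × (V n × A))) : CSgn 1 × (V n × A) :=
  (fun i => cx p.1 * p.2.1 i, ((p.2.2.1.1, fun i => cx p.1 * p.2.2.1.2 i), p.2.2.2))

/-- rotation of the domain, inverse -/
def rotK' (n : ℕ) (A : Type) (p : I × (CSgn 1 × (V n × A))) : CSgn 1 × (V n × A) :=
  (fun i => cx (-p.1) * p.2.1 i, ((p.2.2.1.1, fun i => cx (-p.1) * p.2.2.1.2 i), p.2.2.2))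

theorem ghtpy_id_inv (n : ℕ) (hA : ∀ a : A, inv a = a) :
    GHtpy (PMap.id (CSgn 1 × (V n × A))) (invMap (CSgn 1 × (V n × A))) := by
  have hc := continuous_cx
  apply ghtpy_fam (rotK n A) (rotK' n A)
  · unfold rotK
    fun_prop
  · unfold rotK'
    fun_prop
  · rintro t ⟨b, ⟨x, y⟩, a⟩
    simp only [rotK, rotK', ← mul_assoc, cx_neg_mul, one_mul]
  · rintro ⟨b, ⟨x, y⟩, a⟩
    simp only [rotK, Set.Icc.coe_zero, cx_zero, one_mul]
    rfl
  · rintro ⟨b, ⟨x, y⟩, a⟩
    change ((inv (b, ((x, y), a)) : CSgn 1 × (V n × A)) : OnePoint (CSgn 1 × (V n × A))) = _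
    rw [OnePoint.coe_eq_coe]
    simp only [rotK, Set.Icc.coe_one, cx_one, inv_prod, hA, inv_CSgn, inv_Triv]
    refine Prod.ext ?_ (Prod.ext (Prod.ext rfl ?_) rfl)
    · funext i; simp
    · funext i; simp
  · rintro t ⟨b, ⟨x, y⟩, a⟩
    simp only [rotK, inv_prod, inv_CSgn, inv_Triv]
    refine Prod.ext ?_ (Prod.ext (Prod.ext rfl ?_) rfl)
    · funext i; simp
    · funext i; simp

end rot

end

end Pool.Agent.MP2c15fb
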